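/-
MP_e8bc6f_co, rank 4: basic definitions (author helper2).
-/
import Mathlib

set_option autoImplicit false

namespace Pool.Agent.Helper2.R4

open Finset

section Fam
variable {V : Type*} [Fintype V] [DecidableEq V]

/-- A packing: blocks of size at least 4, two different blocks share at most 2 points. -/
def IsPack (B : Finset (Finset V)) : Prop :=
  (∀ b ∈ B, 4 ≤ b.card) ∧ ∀ b ∈ B, ∀ c ∈ B, b ≠ c → (b ∩ c).card ≤ 2

/-- No block contains a member of `S`. -/
def Avoids (S B : Finset (Finset V)) : Prop := ∀ e ∈ S, ∀ b ∈ B, ¬ e ⊆ b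

open Classical in
/-- The packings avoiding `S`. -/
noncomputable def Fam (S : Finset (Finset V)) : Finset (Finset (Finset V)) :=
  univ.filter (fun B => IsPack B ∧ Avoids S B)

/-- The set `t` is covered by a block. -/
def Cov (B : Finset (Finset V)) (t : Finset V) : Prop := ∃ b ∈ B, t ⊆ b

instance (B : Finset (Finset V)) (t : Finset V) : Decidable (Cov B t) :=
  inferInstanceAs (Decidable (∃ b ∈ B, t ⊆ b))

/-- The points `z` such that `{a, x, z}` is not covered for some `x ∈ p`. -/
def bad (a : V) (B : Finset (Finset V)) (p : Finset V) : Finset V :=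
  univ.filter (fun z => ∃ x ∈ p, ¬ Cov B {a, x, z})

/-- Number of members of `S` containing `x`. -/
def dg (S : Finset (Finset V)) (x : V) : ℕ := (S.filter (fun e => x ∈ e)).card

/-- The block `b` contains `a` and a member of `P`. -/
def Hit (a : V) (P : Finset (Finset V)) (b : Finset V) : Prop := a ∈ b ∧ ∃ p ∈ P, p ⊆ b

open Classical in
/-- Remove the point `a` from the blocks which contain `a` and a member of `P`
(blocks of size 4 disappear). -/
noncomputable def strip (a : V) (P B : Finset (Finset V)) : Finset (Finset V) :=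
  B.filter (fun b => ¬ Hit a P b) ∪
    (B.filter (fun b => Hit a P b ∧ 5 ≤ b.card)).image (fun b => b.erase a)

/-- The switching: strip both sides and add the blocks `{a, c} ∪ p`. -/
noncomputable def mv (a c : V) (P B : Finset (Finset V)) : Finset (Finset V) :=
  strip c P (strip a P B) ∪ P.image (fun p => insert a (insert c p))

/-- Allowed pairs for the edge `{a, c}`. -/
def alw (S : Finset (Finset V)) (a c : V) : Finset (Finset V) :=
  univ.filter (fun p => p.card = 2 ∧ a ∉ p ∧ c ∉ p ∧ p ∉ S ∧
    ∀ x ∈ p, ({a, x} : Finset V) ∉ S ∧ ({c, x} : Finset V) ∉ S)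

/-- Allowed pairs which are uncovered in the link of `a` (resp. of `c`: exchange `a`, `c`). -/
def unc (S : Finset (Finset V)) (a c : V) (B : Finset (Finset V)) :
    Finset (Finset V) :=
  (alw S a c).filter (fun p => ¬ Cov B (insert a p))

/-- Allowed pairs both ends of which have small degree in both uncovered graphs. -/
def low (S : Finset (Finset V)) (a c : V) (Δ : ℕ) (B : Finset (Finset V)) :
    Finset (Finset V) :=
  (alw S a c).filter (fun p => ∀ x ∈ p, dg (unc S a c B) x ≤ Δ ∧ dg (unc S c a B) x ≤ Δ)

/-- The `k`-matchings in a set `E` of pairs. -/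
def matchings (E : Finset (Finset V)) (k : ℕ) : Finset (Finset (Finset V)) :=
  (E.powersetCard k).filter (fun P => ∀ p ∈ P, ∀ q ∈ P, p ≠ q → Disjoint p q)

/-- A partial linear space: lines of size at least 3, two lines share at most one point. -/
def IsLin (L : Finset (Finset V)) : Prop :=
  (∀ l ∈ L, 3 ≤ l.card) ∧ ∀ l ∈ L, ∀ m ∈ L, l ≠ m → (l ∩ m).card ≤ 1

/-- `Y` is a subspace. -/
def Closed (L : Finset (Finset V)) (Y : Finset V) : Prop := ∀ l ∈ L, 2 ≤ (l ∩ Y).card → l ⊆ Y

open Classical in
/-- The subspace generated by `X`. -/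
noncomputable def cl (L : Finset (Finset V)) (X : Finset V) : Finset V :=
  univ.filter (fun v => ∀ Y, Closed L Y → X ⊆ Y → v ∈ Y)

/-- Three points not on a line of `L`. -/
def Tri (L : Finset (Finset V)) (t : Finset V) : Prop := t.card = 3 ∧ ∀ l ∈ L, ¬ t ⊆ l

/-- `P` is a system of planes for the linear space `L`. -/
structure IsPlanes (L P : Finset (Finset V)) : Prop where
  closed : ∀ h ∈ P, Closed L h
  exu : ∀ t, Tri L t → ∃! h, h ∈ P ∧ t ⊆ h
  ne : ∀ h ∈ P, ∃ t, Tri L t ∧ t ⊆ h

end Fam

section Ord
variable {V : Type*} [Fintype V] [LinearOrder V]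

/-- Pairs on a line of `L` which has a point larger than both. -/
def Sp (L : Finset (Finset V)) : Finset (Finset V) :=
  univ.filter (fun e => e.card = 2 ∧ ∃ l ∈ L, e ⊆ l ∧ ∃ u ∈ l, ∀ x ∈ e, x < u)

/-- The greedy generating set of `h`, in decreasing order. -/
noncomputable def greedy (L : Finset (Finset V)) (h : Finset V) : Finset V :=
  h.filter (fun v => v ∉ cl L (h.filter (fun w => v < w)))

/-- The encoding: greedy sets of planes, if they have at least 4 elements. -/
noncomputable def enc (L P : Finset (Finset V)) : Finset (Finset V) :=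
  (P.image (greedy L)).filter (fun b => 4 ≤ b.card)

end Ord

section Mat
variable {V : Type*}

/-- Simple matroids of rank 4 with ground set `V`. -/
def Good (M : Matroid V) : Prop :=
  M.E = Set.univ ∧ (∀ I : Set V, I.ncard ≤ 2 → M.Indep I) ∧ ∀ B : Set V, M.IsBase B → B.ncard = 4

/-- Paving (for rank 4): all sets with at most 3 elements are independent. -/
def Pav (M : Matroid V) : Prop := ∀ I : Set V, I.ncard ≤ 3 → M.Indep I

variable [Fintype V] [DecidableEq V]

open Classical in
/-- The lines with at least three points. -/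
noncomputable def lin (M : Matroid V) : Finset (Finset V) :=
  univ.filter (fun l => 3 ≤ l.card ∧ ∃ x y, x ≠ y ∧ (l : Set V) = M.closure {x, y})

open Classical in
/-- The planes. -/
noncomputable def pln (M : Matroid V) : Finset (Finset V) :=
  univ.filter (fun h => ∃ x y z, x ≠ y ∧ x ≠ z ∧ y ≠ z ∧ M.Indep {x, y, z} ∧
    (h : Set V) = M.closure {x, y, z})

end Mat

end Pool.Agent.Helper2.R4
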