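/-
MP_e8bc6f_co, rank 4, block R4-DEG (degrees in the sparse class).
-/
import Pool.Agent.Helper2.R4.Defs

set_option autoImplicit false

namespace Pool.Agent.Helper2.R4

open Finset

variable {V : Type*} [Fintype V] [DecidableEq V]

private theorem sum_dg7 (E : Finset (Finset V)) (hE : ∀ e ∈ E, e.card = 2) :
    ∑ x, dg E x = 2 * E.card := by
  unfold dg
  simp_rw [card_filter]
  rw [sum_comm]
  have h : ∀ e ∈ E, ∑ x : V, (if x ∈ e then 1 else 0) = 2 := by
    intro e he
    rw [← card_filter, ← hE e he]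
    congr 1
    ext x
    simp
  rw [sum_congr rfl h]
  simp [mul_comm]

private theorem unc_card2 (S : Finset (Finset V)) (a c : V) (B : Finset (Finset V)) :
    ∀ e ∈ unc S a c B, e.card = 2 := by
  intro e he
  have h := (mem_filter.1 he).1
  exact (mem_filter.1 h).2.1

/-- few vertices of large degree -/
private theorem card_high7 (E : Finset (Finset V)) (hE : ∀ e ∈ E, e.card = 2) (k Δ : ℕ) (hk : 1 ≤ k)
    (h2 : 256 * k ≤ Δ) (h : E.card < 8 * k * Fintype.card V) :
    16 * (univ.filter (fun x => Δ < dg E x)).card ≤ Fintype.card V := by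
  set H := univ.filter (fun x => Δ < dg E x) with hH
  have h1 : H.card * (256 * k) ≤ 2 * E.card := by
    rw [← sum_dg7 E hE]
    calc H.card * (256 * k) = ∑ x ∈ H, 256 * k := by rw [sum_const, smul_eq_mul]
      _ ≤ ∑ x ∈ H, dg E x := by
        apply sum_le_sum
        intro x hx
        have := (mem_filter.1 hx).2
        omega
      _ ≤ ∑ x, dg E x := sum_le_sum_of_subset (subset_univ _)
  have h3 : (16 * k) * (16 * H.card) ≤ (16 * k) * Fintype.card V := by
    calc (16 * k) * (16 * H.card) = H.card * (256 * k) := by ring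
      _ ≤ 2 * E.card := h1
      _ ≤ 2 * (8 * k * Fintype.card V) := Nat.mul_le_mul_left _ h.le
      _ = (16 * k) * Fintype.card V := by ring
  exact Nat.le_of_mul_le_mul_left h3 (by omega)

/-- neighbours of a point in a set of pairs -/
private theorem card_nb7 (E : Finset (Finset V)) (hE : ∀ e ∈ E, e.card = 2) (x : V) :
    (univ.filter (fun z => ({x, z} : Finset V) ∈ E)).card ≤ dg E x := by
  unfold dg
  apply card_le_card_of_injOn (fun z => ({x, z} : Finset V))
  · intro z hz
    have h := (mem_filter.1 (mem_coe.1 hz)).2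
    simp only [coe_filter, Set.mem_ofPred_eq]
    exact ⟨h, mem_insert_self _ _⟩
  · intro z hz w hw hzw
    have h1 := (mem_filter.1 (mem_coe.1 hz)).2
    have hzx : z ≠ x := by
      intro h
      have := hE _ h1
      rw [h] at this
      simp at this
    have h3 : z ∈ ({x, w} : Finset V) := by
      dsimp only at hzw
      rw [← hzw]
      simp
    rw [mem_insert, mem_singleton] at h3
    rcases h3 with h3 | h3
    · exact absurd h3 hzx
    · exact h3

/-- In the sparse class almost all pairs are allowed and low.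
`alw S a c` misses only the pairs in `S` (at most `n Δ / 2`), and those meeting `{a,c}` or an
`S`-neighbour of `a` or `c` (at most `(2 + 2 Δ) n` pairs).  Points with `dg (unc S a c B) x > Δ` are
at most `2 * (8 k n) / Δ ≤ n / 16` (as `256 k ≤ Δ`), and the same for `c`. -/
theorem card_low (S : Finset (Finset V)) (hS2 : ∀ e ∈ S, e.card = 2) (k Δ : ℕ) (hk : 1 ≤ k)
    (hdeg : ∀ x, dg S x ≤ Δ) (h2 : 256 * k ≤ Δ) (h3 : 64 * (Δ + 1) ≤ Fintype.card V)
    (h4 : 2304 * k * Δ ^ 2 ≤ Fintype.card V ^ 2)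
    (a c : V) (hac : a ≠ c) (B : Finset (Finset V))
    (ha : (unc S a c B).card < 8 * k * Fintype.card V)
    (hc : (unc S c a B).card < 8 * k * Fintype.card V) :
    2 * k * Fintype.card V + k * (288 * Δ ^ 2) ≤ (low S a c Δ B).card := by
  set n := Fintype.card V with hn
  set Ha := univ.filter (fun x => Δ < dg (unc S a c B) x) with hHa
  set Hc := univ.filter (fun x => Δ < dg (unc S c a B) x) with hHc
  set Na := univ.filter (fun z => ({a, z} : Finset V) ∈ S) with hNa
  set Nc := univ.filter (fun z => ({c, z} : Finset V) ∈ S) with hNc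
  have e1 : 16 * Ha.card ≤ n := card_high7 _ (unc_card2 S a c B) k Δ hk h2 ha
  have e2 : 16 * Hc.card ≤ n := card_high7 _ (unc_card2 S c a B) k Δ hk h2 hc
  have e3 : Na.card ≤ Δ := (card_nb7 S hS2 a).trans (hdeg a)
  have e4 : Nc.card ≤ Δ := (card_nb7 S hS2 c).trans (hdeg c)
  set X : Finset V := ({a, c} ∪ (Na ∪ Nc)) ∪ (Ha ∪ Hc) with hX
  have e5 : X.card ≤ 2 + (Na.card + Nc.card) + (Ha.card + Hc.card) := by
    have q1 := card_union_le ({a, c} ∪ (Na ∪ Nc)) (Ha ∪ Hc)
    have q2 := card_union_le {a, c} (Na ∪ Nc)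
    have q3 := card_union_le Na Nc
    have q4 := card_union_le Ha Hc
    have q5 : ({a, c} : Finset V).card ≤ 2 := card_le_two
    rw [hX]
    omega
  have e6 : 32 * X.card ≤ 5 * n := by omega
  have hXc : (univ \ X).card = n - X.card := by
    rw [card_sdiff_of_subset (subset_univ X), card_univ]
  set m := (univ \ X).card with hm
  have e7 : 27 * n ≤ 32 * m := by omega
  have e8 : 2 * S.card ≤ n * Δ := by
    rw [← sum_dg7 S hS2]
    calc ∑ x, dg S x ≤ ∑ _x : V, Δ := sum_le_sum fun x _ => hdeg x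
      _ = n * Δ := by rw [sum_const, smul_eq_mul, card_univ]
  have hsub : (powersetCard 2 (univ \ X)) \ S ⊆ low S a c Δ B := by
    intro p hp
    obtain ⟨hp1, hpS⟩ := mem_sdiff.1 hp
    obtain ⟨hpX, hp2⟩ := mem_powersetCard.1 hp1
    have hnX : ∀ x ∈ p, x ∉ X := fun x hx => (mem_sdiff.1 (hpX hx)).2
    have haX : a ∈ X := mem_union_left _ (mem_union_left _ (mem_insert_self _ _))
    have hcX : c ∈ X := mem_union_left _ (mem_union_left _ (mem_insert_of_mem
      (mem_singleton_self _)))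
    unfold low alw
    rw [mem_filter, mem_filter]
    refine ⟨⟨mem_univ _, hp2, fun h => hnX a h haX, fun h => hnX c h hcX, hpS, ?_⟩, ?_⟩
    · intro x hx
      constructor
      · intro h
        exact hnX x hx (mem_union_left _ (mem_union_right _ (mem_union_left _
          (mem_filter.2 ⟨mem_univ _, h⟩))))
      · intro h
        exact hnX x hx (mem_union_left _ (mem_union_right _ (mem_union_right _
          (mem_filter.2 ⟨mem_univ _, h⟩))))
    · intro x hx
      constructor
      · by_contra h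
        exact hnX x hx (mem_union_right _ (mem_union_left _
          (mem_filter.2 ⟨mem_univ _, not_le.1 h⟩)))
      · by_contra h
        exact hnX x hx (mem_union_right _ (mem_union_right _
          (mem_filter.2 ⟨mem_univ _, not_le.1 h⟩)))
  have e9 : m.choose 2 ≤ (low S a c Δ B).card + S.card := by
    have q1 := card_le_card hsub
    have q2 : (powersetCard 2 (univ \ X)).card ≤
        ((powersetCard 2 (univ \ X)) \ S).card + S.card := by
      have := card_le_card_sdiff_add_card (s := powersetCard 2 (univ \ X)) (t := S)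
      exact this
    rw [card_powersetCard, ← hm] at q2
    omega
  have e10 : 2 * m.choose 2 = m * (m - 1) := by
    rw [Nat.choose_two_right, Nat.mul_div_cancel' (Nat.even_mul_pred_self m).two_dvd]
  -- now the arithmetic
  have hD : 256 ≤ Δ := by omega
  have hn1 : 64 * 257 ≤ n := by omega
  have hm1 : 3 * n ≤ 4 * (m - 1) := by omega
  have hm2 : 3 * n ≤ 4 * m := by omega
  have e11 : 9 * (n * n) ≤ 16 * (m * (m - 1)) := by
    calc 9 * (n * n) = (3 * n) * (3 * n) := by ring
      _ ≤ (4 * m) * (4 * (m - 1)) := Nat.mul_le_mul hm2 hm1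
      _ = 16 * (m * (m - 1)) := by ring
  have e12 : 64 * (n * Δ) ≤ n * n := by
    calc 64 * (n * Δ) = n * (64 * Δ) := by ring
      _ ≤ n * n := Nat.mul_le_mul_left _ (by omega)
  have e13 : 64 * 256 * (k * n) ≤ n * n := by
    calc 64 * 256 * (k * n) = (64 * (256 * k)) * n := by ring
      _ ≤ n * n := Nat.mul_le_mul_right _ (by omega)
  have e14 : 8 * (k * (288 * Δ ^ 2)) ≤ n * n := by
    calc 8 * (k * (288 * Δ ^ 2)) = 2304 * k * Δ ^ 2 := by ring
      _ ≤ n ^ 2 := h4
      _ = n * n := sq n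
  have e15 : 2 * k * n = 2 * (k * n) := by ring
  rw [e15]
  generalize k * n = kn at *
  generalize n * n = nn at *
  generalize k * (288 * Δ ^ 2) = kd at *
  generalize m * (m - 1) = mm at *
  generalize n * Δ = nd at *
  omega

private theorem card_badx7 (S : Finset (Finset V)) (hS2 : ∀ e ∈ S, e.card = 2) (Δ : ℕ) (hΔ : 3 ≤ Δ)
    (hdeg : ∀ x, dg S x ≤ Δ) (a c : V) (B : Finset (Finset V))
    (x : V) (hxa : x ≠ a) (hxc : x ≠ c) (hax : ({a, x} : Finset V) ∉ S)
    (hcx : ({c, x} : Finset V) ∉ S) (hd : dg (unc S a c B) x ≤ Δ) :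
    (univ.filter (fun z => ¬ Cov B {a, x, z})).card ≤ 5 * Δ := by
  set N1 := univ.filter (fun z => ({a, z} : Finset V) ∈ S) with hN1
  set N2 := univ.filter (fun z => ({c, z} : Finset V) ∈ S) with hN2
  set N3 := univ.filter (fun z => ({x, z} : Finset V) ∈ S) with hN3
  set N4 := univ.filter (fun z => ({x, z} : Finset V) ∈ unc S a c B) with hN4
  have e1 : N1.card ≤ Δ := (card_nb7 S hS2 a).trans (hdeg a)
  have e2 : N2.card ≤ Δ := (card_nb7 S hS2 c).trans (hdeg c)
  have e3 : N3.card ≤ Δ := (card_nb7 S hS2 x).trans (hdeg x)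
  have e4 : N4.card ≤ Δ := (card_nb7 _ (unc_card2 S a c B) x).trans hd
  have hsub : (univ.filter (fun z => ¬ Cov B {a, x, z})) ⊆
      ({a, c, x} ∪ (N1 ∪ N2)) ∪ (N3 ∪ N4) := by
    intro z hz
    have hz1 := (mem_filter.1 hz).2
    by_contra hcon
    rw [mem_union, mem_union, mem_union, mem_union] at hcon
    push Not at hcon
    obtain ⟨⟨h1, h2, h3⟩, h4, h5⟩ := hcon
    rw [mem_insert, mem_insert, mem_singleton] at h1
    push Not at h1
    obtain ⟨hza, hzc, hzx⟩ := h1
    rw [hN1, mem_filter] at h2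
    rw [hN2, mem_filter] at h3
    rw [hN3, mem_filter] at h4
    apply h5
    rw [hN4, mem_filter]
    refine ⟨mem_univ _, ?_⟩
    unfold unc alw
    rw [mem_filter, mem_filter]
    refine ⟨⟨mem_univ _, card_pair hzx.symm, ?_, ?_, fun h => h4 ⟨mem_univ _, h⟩, ?_⟩, hz1⟩
    · rw [mem_insert, mem_singleton]
      push Not
      exact ⟨hxa.symm, hza.symm⟩
    · rw [mem_insert, mem_singleton]
      push Not
      exact ⟨hxc.symm, hzc.symm⟩
    · intro y hy
      rw [mem_insert, mem_singleton] at hy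
      rcases hy with rfl | rfl
      · exact ⟨hax, hcx⟩
      · exact ⟨fun h => h2 ⟨mem_univ _, h⟩, fun h => h3 ⟨mem_univ _, h⟩⟩
  have q0 := card_le_card hsub
  have q1 := card_union_le ({a, c, x} ∪ (N1 ∪ N2)) (N3 ∪ N4)
  have q2 := card_union_le {a, c, x} (N1 ∪ N2)
  have q3 := card_union_le N1 N2
  have q4 := card_union_le N3 N4
  have q5 : ({a, c, x} : Finset V).card ≤ 3 := card_le_three
  omega

private theorem card_bad7 (S : Finset (Finset V)) (hS2 : ∀ e ∈ S, e.card = 2) (Δ : ℕ) (hΔ : 3 ≤ Δ)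
    (hdeg : ∀ x, dg S x ≤ Δ) (a c : V) (B : Finset (Finset V)) (p : Finset V) (hp2 : p.card = 2)
    (hpa : a ∉ p) (hpc : c ∉ p)
    (hp : ∀ x ∈ p, ({a, x} : Finset V) ∉ S ∧ ({c, x} : Finset V) ∉ S)
    (hd : ∀ x ∈ p, dg (unc S a c B) x ≤ Δ) :
    (bad a B p).card ≤ 10 * Δ := by
  have hsub : bad a B p ⊆ p.biUnion (fun x => univ.filter (fun z => ¬ Cov B {a, x, z})) := by
    intro z hz
    obtain ⟨x, hx, hz1⟩ := (mem_filter.1 hz).2
    exact mem_biUnion.2 ⟨x, hx, mem_filter.2 ⟨mem_univ _, hz1⟩⟩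
  calc (bad a B p).card ≤ (p.biUnion (fun x => univ.filter (fun z => ¬ Cov B {a, x, z}))).card :=
        card_le_card hsub
    _ ≤ ∑ x ∈ p, (univ.filter (fun z => ¬ Cov B {a, x, z})).card := card_biUnion_le
    _ ≤ ∑ x ∈ p, 5 * Δ := by
        apply sum_le_sum
        intro x hx
        exact card_badx7 S hS2 Δ hΔ hdeg a c B x (fun h => hpa (h ▸ hx)) (fun h => hpc (h ▸ hx))
          (hp x hx).1 (hp x hx).2 (hd x hx)
    _ = 10 * Δ := by
        rw [sum_const, hp2, smul_eq_mul]
        ring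

/-- Few uncovered triples `{a, x, z}` at the ends of a low pair: for `x` in such a pair the
possible `z` are `a`, `c`, `x`, the `S`-neighbours of `a`, of `c` and of `x` (at most `3 Δ`), and
those with `{x, z} ∈ unc S a c B` (at most `Δ`); so at most `4 Δ + 3 ≤ 5 Δ` for each of the two
points `x` of `p`. -/
theorem card_unc_le (S : Finset (Finset V)) (hS2 : ∀ e ∈ S, e.card = 2) (Δ : ℕ) (hΔ : 3 ≤ Δ)
    (hdeg : ∀ x, dg S x ≤ Δ) (a c : V) (hac : a ≠ c) (B : Finset (Finset V))
    {p : Finset V} (hp : p ∈ low S a c Δ B) :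
    (bad a B p).card ≤ 10 * Δ ∧
      (bad c B p).card ≤ 10 * Δ := by
  obtain ⟨h1, h2⟩ := mem_filter.1 hp
  obtain ⟨-, hp2, hpa, hpc, hpS, hp3⟩ := mem_filter.1 h1
  constructor
  · exact card_bad7 S hS2 Δ hΔ hdeg a c B p hp2 hpa hpc hp3 fun x hx => (h2 x hx).1
  · exact card_bad7 S hS2 Δ hΔ hdeg c a B p hp2 hpc hpa (fun x hx => ⟨(hp3 x hx).2, (hp3 x hx).1⟩)
      fun x hx => (h2 x hx).2

end Pool.Agent.Helper2.R4
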