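/-
MP_e8bc6f_co, rank 4, block R4-ENC1 (subspaces and greedy generating sets).
-/
import Pool.Agent.Helper2.R4.Defs

set_option autoImplicit false

namespace Pool.Agent.Helper2.R4

open Finset

section
variable {V : Type*} [Fintype V] [DecidableEq V]

theorem closed_cl (L : Finset (Finset V)) (X : Finset V) : Closed L (cl L X) := by
  classical
  intro l hl h2 v hv
  simp only [cl, mem_filter, mem_univ, true_and]
  intro Y hY hXY
  have h1 : l ∩ cl L X ⊆ l ∩ Y := by
    intro w hw
    simp only [cl, mem_inter, mem_filter, mem_univ, true_and] at hw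
    exact mem_inter.2 ⟨hw.1, hw.2 Y hY hXY⟩
  exact hY l hl (h2.trans (card_le_card h1)) hv

theorem subset_cl (L : Finset (Finset V)) (X : Finset V) : X ⊆ cl L X := by
  classical
  intro v hv
  simp only [cl, mem_filter, mem_univ, true_and]
  intro Y _ hXY
  exact hXY hv

theorem cl_min {L : Finset (Finset V)} {X Y : Finset V} (h : X ⊆ Y) (hY : Closed L Y) :
    cl L X ⊆ Y := by
  classical
  intro v hv
  simp only [cl, mem_filter, mem_univ, true_and] at hv
  exact hv Y hY h

/-- A line of a partial linear space is a subspace. -/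
theorem closed_line {L : Finset (Finset V)} (hL : IsLin L) {l : Finset V} (hl : l ∈ L) :
    Closed L l := by
  intro m hm h2
  by_cases h : m = l
  · exact h ▸ Subset.refl _
  · have := hL.2 m hm l hl h
    omega

/-- A set which contains a noncollinear triple is not generated by two points. -/
theorem three_le_card_of_cl {L : Finset (Finset V)} (hL : IsLin L) {X t : Finset V}
    (ht : Tri L t) (h : t ⊆ cl L X) : 3 ≤ X.card := by
  by_contra hc
  have hc2 : X.card ≤ 2 := by omega
  by_cases he : ∃ l ∈ L, X ⊆ l
  · obtain ⟨l, hl, hX⟩ := he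
    exact ht.2 l hl (h.trans (cl_min hX (closed_line hL hl)))
  · have hcl : Closed L X := by
      intro l hl h2
      exfalso
      have h3 : l ∩ X = X := eq_of_subset_of_card_le inter_subset_right (hc2.trans h2)
      exact he ⟨l, hl, fun v hv => (mem_inter.1 (h3.symm ▸ hv)).1⟩
    have h4 := card_le_card (h.trans (cl_min (Subset.refl X) hcl))
    have h5 := ht.1
    omega
end

section
variable {V : Type*} [Fintype V] [LinearOrder V]

theorem greedy_subset (L : Finset (Finset V)) (h : Finset V) : greedy L h ⊆ h := by
  unfold greedy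
  exact filter_subset _ _

/-- A point of `h` on a line with two larger points of `h` is not in the greedy set. -/
private theorem h68_not_mem {L : Finset (Finset V)} {h l : Finset V} {x y z : V} (hl : l ∈ L)
    (hx : x ∈ l) (hy : y ∈ l) (hz : z ∈ l) (hyh : y ∈ h) (hzh : z ∈ h) (hxy : x < y)
    (hxz : x < z) (hyz : y ≠ z) : x ∉ greedy L h := by
  intro hg
  have h1 : x ∉ cl L (h.filter (fun w => x < w)) := by
    unfold greedy at hg
    exact (mem_filter.1 hg).2
  apply h1
  have hyc : y ∈ cl L (h.filter (fun w => x < w)) :=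
    subset_cl L _ (mem_filter.2 ⟨hyh, hxy⟩)
  have hzc : z ∈ cl L (h.filter (fun w => x < w)) :=
    subset_cl L _ (mem_filter.2 ⟨hzh, hxz⟩)
  refine closed_cl L _ l hl ?_ hx
  have h2 : ({y, z} : Finset V) ⊆ l ∩ cl L (h.filter (fun w => x < w)) := by
    intro w hw
    rcases mem_insert.1 hw with rfl | hw
    · exact mem_inter.2 ⟨hy, hyc⟩
    · rw [mem_singleton.1 hw]
      exact mem_inter.2 ⟨hz, hzc⟩
  calc 2 = ({y, z} : Finset V).card := (card_pair hyz).symm
    _ ≤ _ := card_le_card h2

/-- The greedy set generates (downward induction on the elements of `h`). -/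
theorem cl_greedy {L : Finset (Finset V)} {h : Finset V} (hh : Closed L h) :
    cl L (greedy L h) = h := by
  apply Subset.antisymm (cl_min (greedy_subset L h) hh)
  intro v
  induction v using WellFoundedGT.induction with
  | ind v ih =>
    intro hv
    by_cases hg : v ∈ greedy L h
    · exact subset_cl L _ hg
    · have h1 : v ∈ cl L (h.filter (fun w => v < w)) := by
        by_contra hc
        apply hg
        unfold greedy
        exact mem_filter.2 ⟨hv, hc⟩
      have h2 : h.filter (fun w => v < w) ⊆ cl L (greedy L h) := by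
        intro w hw
        exact ih w (mem_filter.1 hw).2 (mem_filter.1 hw).1
      exact cl_min h2 (closed_cl L _) h1

/-- No three points of a greedy set are collinear (the smallest of the three would be generated by
larger points). -/
theorem greedy_tri {L : Finset (Finset V)} {h t : Finset V} (ht : t ⊆ greedy L h)
    (h3 : t.card = 3) : Tri L t := by
  refine ⟨h3, fun l hl htl => ?_⟩
  have hne : t.Nonempty := by
    rw [← card_pos]
    omega
  have hm := min'_mem t hne
  have h4 : (t.erase (t.min' hne)).card = 2 := by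
    rw [card_erase_of_mem hm]
    omega
  obtain ⟨y, z, hyz, he⟩ := card_eq_two.1 h4
  have hy : y ∈ t.erase (t.min' hne) := by
    rw [he]
    simp
  have hz : z ∈ t.erase (t.min' hne) := by
    rw [he]
    simp
  have hy2 := mem_erase.1 hy
  have hz2 := mem_erase.1 hz
  exact h68_not_mem hl (htl hm) (htl hy2.2) (htl hz2.2) (greedy_subset L h (ht hy2.2))
    (greedy_subset L h (ht hz2.2)) (lt_of_le_of_ne (min'_le t y hy2.2) (Ne.symm hy2.1))
    (lt_of_le_of_ne (min'_le t z hz2.2) (Ne.symm hz2.1)) hyz (ht hm)

/-- A greedy set contains no pair of `Sp L`: if `x < y` are in the greedy set and on the line `l`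
with a point `u > y`, then `u, y ∈ h` (as `l ⊆ h`) are larger than `x` and generate `x`. -/
theorem greedy_sp {L : Finset (Finset V)} {h e : Finset V} (hh : Closed L h) (he : e ∈ Sp L) :
    ¬ e ⊆ greedy L h := by
  intro hs
  simp only [Sp, mem_filter, mem_univ, true_and] at he
  obtain ⟨h2, l, hl, hel, u, hu, hlt⟩ := he
  have hlh : l ⊆ h := by
    apply hh l hl
    rw [← h2]
    apply card_le_card
    intro v hv
    exact mem_inter.2 ⟨hel hv, greedy_subset L h (hs hv)⟩
  obtain ⟨x, y, hxy, rfl⟩ := card_eq_two.1 h2
  have hx : x ∈ ({x, y} : Finset V) := by simp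
  have hy : y ∈ ({x, y} : Finset V) := by simp
  rcases lt_or_gt_of_ne hxy with hlt2 | hlt2
  · exact h68_not_mem hl (hel hx) (hel hy) hu (hlh (hel hy)) (hlh hu) hlt2 (hlt x hx)
      (ne_of_lt (hlt y hy)) (hs hx)
  · exact h68_not_mem hl (hel hy) (hel hx) hu (hlh (hel hx)) (hlh hu) hlt2 (hlt y hy)
      (ne_of_lt (hlt x hx)) (hs hy)
end

end Pool.Agent.Helper2.R4
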