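/-
MP_e8bc6f_co, rank 4, block R4-ENC2 (the encoding of plane systems is injective).
-/
import Pool.Agent.Helper2.R4.ENC1

set_option autoImplicit false

namespace Pool.Agent.Helper2.R4

open Finset

variable {V : Type*} [Fintype V] [LinearOrder V]

/-- The encoding is a packing avoiding `Sp L` (two planes which share a noncollinear triple are
equal). -/
theorem enc_mem {L P : Finset (Finset V)} (hL : IsLin L) (hP : IsPlanes L P) :
    enc L P ∈ Fam (Sp L) := by
  classical
  have hmem : ∀ b ∈ enc L P, ∃ h ∈ P, greedy L h = b ∧ 4 ≤ b.card := by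
    intro b hb
    unfold enc at hb
    obtain ⟨h1, h2⟩ := mem_filter.1 hb
    obtain ⟨h, hh, rfl⟩ := mem_image.1 h1
    exact ⟨h, hh, rfl, h2⟩
  unfold Fam
  simp only [mem_filter, mem_univ, true_and]
  refine ⟨⟨fun b hb => ?_, fun b hb c hc hbc => ?_⟩, fun e he b hb => ?_⟩
  · obtain ⟨h, _, _, h4⟩ := hmem b hb
    exact h4
  · obtain ⟨h, hh, rfl, _⟩ := hmem b hb
    obtain ⟨k, hk, rfl, _⟩ := hmem c hc
    by_contra hlt
    have h3 : 3 ≤ (greedy L h ∩ greedy L k).card := by omega
    obtain ⟨t, ht, ht3⟩ := exists_subset_card_eq h3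
    have ht1 : t ⊆ greedy L h := ht.trans inter_subset_left
    have ht2 : t ⊆ greedy L k := ht.trans inter_subset_right
    have hT : Tri L t := greedy_tri ht1 ht3
    have heq : h = k := (hP.exu t hT).unique ⟨hh, ht1.trans (greedy_subset L h)⟩
      ⟨hk, ht2.trans (greedy_subset L k)⟩
    exact hbc (by rw [heq])
  · obtain ⟨h, hh, rfl, _⟩ := hmem b hb
    exact greedy_sp (hP.closed h hh) he

private theorem h2_enc_four {L P P' : Finset (Finset V)} (hP : IsPlanes L P)
    (hP' : IsPlanes L P') (h : enc L P = enc L P') {k : Finset V} (hk : k ∈ P)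
    (h4 : 4 ≤ (greedy L k).card) : k ∈ P' := by
  have h1 : greedy L k ∈ enc L P := by
    unfold enc
    exact mem_filter.2 ⟨mem_image_of_mem _ hk, h4⟩
  rw [h] at h1
  unfold enc at h1
  obtain ⟨k', hk', he⟩ := mem_image.1 (mem_filter.1 h1).1
  have h2 := cl_greedy (hP'.closed k' hk')
  rw [he, cl_greedy (hP.closed k hk)] at h2
  rw [h2]
  exact hk'

private theorem h2_greedy_three {L P : Finset (Finset V)} (hL : IsLin L) (hP : IsPlanes L P)
    {k : Finset V} (hk : k ∈ P) (h4 : ¬ 4 ≤ (greedy L k).card) : Tri L (greedy L k) := by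
  obtain ⟨t, ht, htk⟩ := hP.ne k hk
  rw [← cl_greedy (hP.closed k hk)] at htk
  have h3 := three_le_card_of_cl hL ht htk
  exact greedy_tri (Subset.refl _) (by omega)

private theorem h2_enc_sub {L P P' : Finset (Finset V)} (hL : IsLin L) (hP : IsPlanes L P)
    (hP' : IsPlanes L P') (h : enc L P = enc L P') : P ⊆ P' := by
  intro k hk
  by_cases h4 : 4 ≤ (greedy L k).card
  · exact h2_enc_four hP hP' h hk h4
  · have hG := h2_greedy_three hL hP hk h4
    obtain ⟨k', ⟨hk', hGk'⟩, _⟩ := hP'.exu _ hG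
    have h1 : k ⊆ k' := by
      rw [← cl_greedy (hP.closed k hk)]
      exact cl_min hGk' (hP'.closed k' hk')
    by_cases h5 : 4 ≤ (greedy L k').card
    · have h6 : k' ∈ P := h2_enc_four hP' hP h.symm hk' h5
      have h7 : k = k' := (hP.exu _ hG).unique ⟨hk, greedy_subset L k⟩ ⟨h6, hGk'⟩
      rw [h7]
      exact hk'
    · have hT := h2_greedy_three hL hP' hk' h5
      obtain ⟨m, ⟨hm, hTm⟩, _⟩ := hP.exu _ hT
      have h6 : k' ⊆ m := by
        rw [← cl_greedy (hP'.closed k' hk')]
        exact cl_min hTm (hP.closed m hm)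
      have h7 : k = m := (hP.exu _ hG).unique ⟨hk, greedy_subset L k⟩ ⟨hm, hGk'.trans h6⟩
      have h8 : k = k' := Subset.antisymm h1 (h7 ▸ h6)
      rw [h8]
      exact hk'

/-- The encoding is injective.  Let `h ∈ P`, `G = greedy L h`, `h = cl L G`.  If `4 ≤ |G|` then
`G ∈ enc L P = enc L P'`, `G = greedy L k` with `k ∈ P'` and `k = cl L G = h`.  Otherwise `|G| = 3`
(`three_le_card_of_cl`); let `k ∈ P'` be the plane of `P'` through the noncollinear triple `G`, so
`h = cl L G ⊆ k`.  If `4 ≤ |greedy L k|` then `k ∈ P` by the first part, and `h = k` because both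
are planes of `P` containing `G`.  Otherwise `k = cl L T`, `|T| = 3`; the plane `h' ∈ P` through `T`
contains `k ⊇ h`, so `h' = h = k`.  So `P ⊆ P'`, and conversely. -/
theorem enc_inj {L P P' : Finset (Finset V)} (hL : IsLin L) (hP : IsPlanes L P)
    (hP' : IsPlanes L P') (h : enc L P = enc L P') : P = P' :=
  Subset.antisymm (h2_enc_sub hL hP hP' h) (h2_enc_sub hL hP' hP h.symm)

end Pool.Agent.Helper2.R4
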