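/-
MP_e8bc6f_co, rank 4, block R4-EX (pairs with bounded degree).
-/
import Pool.Agent.Helper2.R4.Defs

set_option autoImplicit false
set_option linter.unusedSectionVars false

namespace Pool.Agent.Helper2.R4

open Finset

variable {V : Type*} [Fintype V] [LinearOrder V]

private theorem dg_insert_le (S : Finset (Finset V)) (e : Finset V) (x : V) :
    dg (insert e S) x ≤ dg S x + 1 := by
  unfold dg
  rw [Finset.filter_insert]
  split_ifs with h
  · exact Finset.card_insert_le _ _
  · omega

private theorem dg_insert_of_notMem (S : Finset (Finset V)) (e : Finset V) (x : V) (h : x ∉ e) :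
    dg (insert e S) x = dg S x := by
  unfold dg
  rw [Finset.filter_insert, if_neg h]

private theorem sum_dg (S : Finset (Finset V)) (hS : ∀ e ∈ S, e.card = 2) :
    ∑ x, dg S x = 2 * S.card := by
  unfold dg
  simp only [Finset.card_filter]
  rw [Finset.sum_comm]
  have : ∀ e ∈ S, ∑ x : V, (if x ∈ e then 1 else 0) = 2 := by
    intro e he
    rw [← Finset.card_filter, Finset.filter_mem_eq_inter, Finset.univ_inter, hS e he]
  rw [Finset.sum_congr rfl this, Finset.sum_const, smul_eq_mul, mul_comm]

/-- The number of lines through a point. -/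
private theorem lines_le (L : Finset (Finset V)) (hL : IsLin L) (v : V) :
    2 * (L.filter (fun l => v ∈ l)).card ≤ Fintype.card V := by
  have h1 : ∑ l ∈ L.filter (fun l => v ∈ l), (l.erase v).card =
      ((L.filter (fun l => v ∈ l)).biUnion (fun l => l.erase v)).card := by
    rw [Finset.card_biUnion]
    intro l hl m hm hlm
    change Disjoint (l.erase v) (m.erase v)
    rw [Finset.disjoint_left]
    intro x hx hx'
    rw [Finset.mem_coe, Finset.mem_filter] at hl hm
    rw [Finset.mem_erase] at hx hx'
    have h2 := hL.2 l hl.1 m hm.1 hlm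
    have h3 : ({v, x} : Finset V) ⊆ l ∩ m := by
      intro y hy
      rw [Finset.mem_insert, Finset.mem_singleton] at hy
      rw [Finset.mem_inter]
      rcases hy with rfl | rfl
      · exact ⟨hl.2, hm.2⟩
      · exact ⟨hx.2, hx'.2⟩
    have h4 := Finset.card_le_card h3
    rw [Finset.card_pair (fun h => hx.1 h.symm)] at h4
    omega
  have h2 : ∑ l ∈ L.filter (fun l => v ∈ l), 2 ≤
      ∑ l ∈ L.filter (fun l => v ∈ l), (l.erase v).card := by
    refine Finset.sum_le_sum fun l hl => ?_
    rw [Finset.mem_filter] at hl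
    rw [Finset.card_erase_of_mem hl.2]
    have := hL.1 l hl.1
    omega
  rw [Finset.sum_const, smul_eq_mul] at h2
  have h3 := Finset.card_le_univ ((L.filter (fun l => v ∈ l)).biUnion (fun l => l.erase v))
  omega

/-- Take `S0 ⊆ Sp L` maximal with all degrees at most `Δ`, `T` the set of points of degree exactly
`Δ` (saturated).  Then `|T| Δ ≤ 2 |S0|`.  For a line `l` let `u_l` be the number of unsaturated
points of `l` other than its largest one; by maximality all the `u_l (u_l - 1) / 2` pairs of these
points are in `S0` (pairs on different lines are different).  If `2 ≤ u_l` then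
`|l| ≤ 1 + u_l + |l ∩ T| ≤ 3 (u_l choose 2) + |l ∩ T|`, otherwise `|l ∩ T| ≥ |l| - 2 ≥ 1` and
`|l| ≤ 3 |l ∩ T|`.  Finally `∑_l |l ∩ T| = ∑_{v ∈ T} #{l ∋ v} ≤ |T| n / 2`.  So
`∑_l |l| ≤ 3 |S0| + 3 |T| n / 2`, times `Δ`: `≤ 3 |S0| Δ + 3 |S0| n ≤ 6 n |S0|`. -/
theorem extract (L : Finset (Finset V)) (hL : IsLin L) (Δ : ℕ) (hΔ : 1 ≤ Δ)
    (hn : Δ ≤ Fintype.card V) :
    ∃ S0 ⊆ Sp L, (∀ x, dg S0 x ≤ Δ) ∧
      (∑ l ∈ L, l.card) * Δ ≤ 6 * Fintype.card V * S0.card := by
  classical
  -- a maximal family
  obtain ⟨S0, hS0, hmax⟩ : ∃ S0 ∈ (Sp L).powerset.filter (fun S => ∀ x, dg S x ≤ Δ),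
      ∀ S ∈ (Sp L).powerset.filter (fun S => ∀ x, dg S x ≤ Δ), S.card ≤ S0.card := by
    refine Finset.exists_max_image _ _ ⟨∅, ?_⟩
    rw [Finset.mem_filter]
    refine ⟨Finset.mem_powerset.2 (Finset.empty_subset _), fun x => ?_⟩
    simp [dg]
  rw [Finset.mem_filter, Finset.mem_powerset] at hS0
  obtain ⟨hsub, hdeg⟩ := hS0
  refine ⟨S0, hsub, hdeg, ?_⟩
  have hcard2 : ∀ e ∈ S0, e.card = 2 := by
    intro e he
    have := hsub he
    rw [Sp, Finset.mem_filter] at this
    exact this.2.1
  set T : Finset V := Finset.univ.filter (fun x => dg S0 x = Δ) with hT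
  -- saturated points
  have hTcard : T.card * Δ ≤ 2 * S0.card := by
    rw [← sum_dg S0 hcard2]
    calc T.card * Δ = ∑ x ∈ T, dg S0 x := by
          rw [Finset.sum_congr rfl (fun x hx => (Finset.mem_filter.1 hx).2), Finset.sum_const,
            smul_eq_mul]
      _ ≤ ∑ x, dg S0 x := Finset.sum_le_sum_of_subset (Finset.subset_univ _)
  have hne : ∀ l ∈ L, l.Nonempty := by
    intro l hl
    rw [← Finset.card_pos]
    have := hL.1 l hl
    omega
  -- unsaturated points of a line
  let U : Finset V → Finset V := fun l =>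
    if h : l.Nonempty then (l.erase (l.max' h)).filter (fun x => dg S0 x < Δ) else ∅
  have hUl : ∀ l, U l ⊆ l := by
    intro l x hx
    by_cases h : l.Nonempty
    · simp only [U, dif_pos h] at hx
      exact Finset.mem_of_mem_erase (Finset.mem_filter.1 hx).1
    · simp only [U, dif_neg h] at hx
      simp at hx
  have hpairs : ∀ l ∈ L, (U l).powersetCard 2 ⊆ S0 := by
    intro l hl e he
    rw [Finset.mem_powersetCard] at he
    by_contra hns
    have hn0 := hne l hl
    have heU : ∀ x ∈ e, x ∈ l ∧ x ≠ l.max' hn0 ∧ dg S0 x < Δ := by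
      intro x hx
      have := he.1 hx
      simp only [U, dif_pos hn0] at this
      rw [Finset.mem_filter, Finset.mem_erase] at this
      exact ⟨this.1.2, this.1.1, this.2⟩
    have h1 : insert e S0 ∈ (Sp L).powerset.filter (fun S => ∀ x, dg S x ≤ Δ) := by
      rw [Finset.mem_filter, Finset.mem_powerset]
      refine ⟨?_, fun x => ?_⟩
      · refine Finset.insert_subset ?_ hsub
        rw [Sp, Finset.mem_filter]
        refine ⟨Finset.mem_univ _, he.2, l, hl, fun x hx => (heU x hx).1, l.max' hn0,
          l.max'_mem hn0, fun x hx => ?_⟩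
        exact lt_of_le_of_ne (l.le_max' x (heU x hx).1) (heU x hx).2.1
      · by_cases hx : x ∈ e
        · have := dg_insert_le S0 e x
          have := (heU x hx).2.2
          omega
        · rw [dg_insert_of_notMem S0 e x hx]
          exact hdeg x
    have h2 := hmax _ h1
    rw [Finset.card_insert_of_notMem hns] at h2
    omega
  have hsumU : ∑ l ∈ L, (U l).card.choose 2 ≤ S0.card := by
    have h1 : ∑ l ∈ L, ((U l).powersetCard 2).card =
        (L.biUnion (fun l => (U l).powersetCard 2)).card := by
      rw [Finset.card_biUnion]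
      intro l hl m hm hlm
      change Disjoint ((U l).powersetCard 2) ((U m).powersetCard 2)
      rw [Finset.disjoint_left]
      intro e he he'
      rw [Finset.mem_powersetCard] at he he'
      have h2 := hL.2 l hl m hm hlm
      have h3 : e ⊆ l ∩ m :=
        Finset.subset_inter (he.1.trans (hUl l)) (he'.1.trans (hUl m))
      have h4 := Finset.card_le_card h3
      rw [he.2] at h4
      omega
    simp only [Finset.card_powersetCard] at h1
    rw [h1]
    refine Finset.card_le_card ?_
    intro e he
    rw [Finset.mem_biUnion] at he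
    obtain ⟨l, hl, he⟩ := he
    exact hpairs l hl he
  have hline : ∀ l ∈ L, l.card ≤ 3 * (U l).card.choose 2 + 3 * (l ∩ T).card := by
    intro l hl
    have hn0 := hne l hl
    have h3 := hL.1 l hl
    have h4 : l.card ≤ 1 + (U l).card + (l ∩ T).card := by
      have h5 : l ⊆ insert (l.max' hn0) (U l ∪ (l ∩ T)) := by
        intro x hx
        rw [Finset.mem_insert]
        by_cases hxm : x = l.max' hn0
        · exact Or.inl hxm
        · right
          rw [Finset.mem_union]
          rcases lt_or_eq_of_le (hdeg x) with h | h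
          · left
            simp only [U, dif_pos hn0]
            rw [Finset.mem_filter, Finset.mem_erase]
            exact ⟨⟨hxm, hx⟩, h⟩
          · right
            rw [Finset.mem_inter, hT, Finset.mem_filter]
            exact ⟨hx, Finset.mem_univ _, h⟩
      have h6 := Finset.card_le_card h5
      have h7 := Finset.card_insert_le (l.max' hn0) (U l ∪ (l ∩ T))
      have h8 := Finset.card_union_le (U l) (l ∩ T)
      omega
    rcases Nat.lt_or_ge (U l).card 2 with hu | hu
    · omega
    · have h9 : (U l).card + 1 ≤ 3 * (U l).card.choose 2 := by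
        obtain ⟨w, hw⟩ : ∃ w, (U l).card = w + 2 := ⟨(U l).card - 2, by omega⟩
        rw [hw]
        have h10 : (w + 2).choose 2 = (w + 2) * (w + 1) / 2 := by
          rw [Nat.choose_two_right]
          rfl
        have h11 : 2 * (w + 2).choose 2 = (w + 2) * (w + 1) := by
          rw [h10]
          exact Nat.two_mul_div_two_of_even (by
            have := Nat.even_mul_succ_self (w + 1)
            rwa [mul_comm] at this)
        nlinarith
      omega
  have hswap : 2 * ∑ l ∈ L, (l ∩ T).card ≤ T.card * Fintype.card V := by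
    have h1 : ∑ l ∈ L, (l ∩ T).card = ∑ v ∈ T, (L.filter (fun l => v ∈ l)).card := by
      simp only [Finset.card_filter]
      rw [Finset.sum_comm]
      refine Finset.sum_congr rfl fun l _ => ?_
      rw [← Finset.card_filter, Finset.inter_comm]
      congr 1
    rw [h1, Finset.mul_sum]
    calc ∑ v ∈ T, 2 * (L.filter (fun l => v ∈ l)).card ≤ ∑ v ∈ T, Fintype.card V :=
          Finset.sum_le_sum fun v _ => lines_le L hL v
      _ = T.card * Fintype.card V := by rw [Finset.sum_const, smul_eq_mul]
  have hsum : ∑ l ∈ L, l.card ≤ 3 * S0.card + 3 * ∑ l ∈ L, (l ∩ T).card := by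
    calc ∑ l ∈ L, l.card ≤ ∑ l ∈ L, (3 * (U l).card.choose 2 + 3 * (l ∩ T).card) :=
          Finset.sum_le_sum hline
      _ = 3 * ∑ l ∈ L, (U l).card.choose 2 + 3 * ∑ l ∈ L, (l ∩ T).card := by
          rw [Finset.sum_add_distrib, Finset.mul_sum, Finset.mul_sum]
      _ ≤ _ := by omega
  generalize (∑ l ∈ L, l.card) = A at hsum ⊢
  generalize (∑ l ∈ L, (l ∩ T).card) = B at hsum hswap
  generalize Fintype.card V = n at hn hswap ⊢
  generalize S0.card = s at hTcard hsum ⊢
  generalize T.card = t at hTcard hswap
  have e1 : A * Δ ≤ (3 * s + 3 * B) * Δ := Nat.mul_le_mul_right _ hsum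
  have e2 : 2 * B * Δ ≤ t * n * Δ := Nat.mul_le_mul_right _ hswap
  have e3 : t * Δ * n ≤ 2 * s * n := Nat.mul_le_mul_right _ hTcard
  have e4 : s * Δ ≤ s * n := Nat.mul_le_mul_left _ hn
  nlinarith

end Pool.Agent.Helper2.R4
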