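/-
MP_e8bc6f_co, rank 4, block R4-PAV (from packings to paving matroids).
-/
import Pool.Agent.Helper2.R4.Defs

set_option autoImplicit false

namespace Pool.Agent.Helper2.R4

open Finset

variable {V : Type*} [Fintype V] [DecidableEq V]

/-- There are finitely many matroids on a finite type. -/
theorem finite_matroid : Finite (Matroid V) := by
  have hinj : Function.Injective
      (fun M : Matroid V => (M.E, {I : Set V | M.Indep I})) := by
    intro M N h
    simp only [Prod.mk.injEq] at h
    obtain ⟨hE, hI⟩ := h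
    apply Matroid.ext_indep hE
    intro I _
    have := congrArg (fun S : Set (Set V) => I ∈ S) hI
    simpa using this
  exact Finite.of_injective _ hinj

private theorem h2_mem_fam {B : Finset (Finset V)} :
    B ∈ Fam (∅ : Finset (Finset V)) ↔ IsPack B := by
  classical
  unfold Fam Avoids
  simp

private theorem h2_eq_of_three {B : Finset (Finset V)} (hB : IsPack B) {b c t : Finset V}
    (hb : b ∈ B) (hc : c ∈ B) (ht : 3 ≤ t.card) (htb : t ⊆ b) (htc : t ⊆ c) : b = c := by
  by_contra hne
  have h1 := hB.2 b hb c hc hne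
  have h2 := card_le_card (subset_inter htb htc)
  omega

/-- A packing without the block `univ` defines a paving matroid of rank 4: the independent sets
are those with at most 3 elements and those with 4 elements which lie in no block.  Augmentation:
for `|I| = 3 < |J| = 4`, if no block contains `I` any `x ∈ J \ I` works, and if `I ⊆ b` (`b` is
unique) some `x ∈ J \ b`. -/
theorem exists_mat (B : Finset (Finset V)) (hB : B ∈ Fam (∅ : Finset (Finset V)))
    (hu : univ ∉ B) (hV : 4 ≤ Fintype.card V) :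
    ∃ M : Matroid V, Good M ∧ Pav M ∧
      ∀ I : Finset V, I.card = 4 → (M.Indep (I : Set V) ↔ ∀ b ∈ B, ¬ I ⊆ b) := by
  classical
  have hP := h2_mem_fam.1 hB
  -- a set with three elements and a point outside every block through it
  have key : ∀ (I : Set V) (x : V), I.ncard = 3 → x ∉ I → (∀ b ∈ B, I ⊆ (b : Set V) → x ∉ b) →
      (insert x I : Set V).ncard = 4 ∧ ∀ b ∈ B, ¬ (insert x I : Set V) ⊆ (b : Set V) := by
    intro I x hI hx h
    refine ⟨?_, fun b hb hs => ?_⟩
    · rw [Set.ncard_insert_of_notMem hx (Set.toFinite _), hI]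
    · exact h b hb ((Set.subset_insert x I).trans hs) (hs (Set.mem_insert x I))
  have huniq : ∀ (I : Set V), I.ncard = 3 → ∀ b ∈ B, ∀ c ∈ B, I ⊆ (b : Set V) →
      I ⊆ (c : Set V) → b = c := by
    intro I hI b hb c hc h1 h2
    have h3 : I.toFinset.card = 3 := by rw [← Set.ncard_eq_toFinset_card', hI]
    exact h2_eq_of_three hP hb hc (t := I.toFinset) (by omega)
      (fun v hv => h1 (Set.mem_toFinset.1 hv)) (fun v hv => h2 (Set.mem_toFinset.1 hv))
  have hext : ∀ I : Set V, I.ncard = 3 → ∃ x, x ∉ I ∧ ∀ b ∈ B, I ⊆ (b : Set V) → x ∉ b := by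
    intro I hI
    by_cases h : ∃ b ∈ B, I ⊆ (b : Set V)
    · obtain ⟨b, hb, hIb⟩ := h
      have hbu : b ≠ univ := fun h => hu (h ▸ hb)
      obtain ⟨x, hx⟩ : ∃ x, x ∉ b := by
        by_contra hc
        push Not at hc
        exact hbu (eq_univ_iff_forall.2 hc)
      refine ⟨x, fun hxI => hx (hIb hxI), fun c hc hIc => ?_⟩
      rw [huniq I hI c hc b hb hIc hIb]
      exact hx
    · push Not at h
      have h1 : I ≠ Set.univ := by
        intro h2
        rw [h2, Set.ncard_univ, Nat.card_eq_fintype_card] at hI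
        omega
      obtain ⟨x, hx⟩ := (Set.ne_univ_iff_exists_notMem I).1 h1
      exact ⟨x, hx, fun b hb hIb => (h b hb hIb).elim⟩
  let Ind : Set V → Prop := fun I => I.ncard ≤ 3 ∨ (I.ncard = 4 ∧ ∀ b ∈ B, ¬ I ⊆ (b : Set V))
  have haug : ∀ ⦃I J : Set V⦄, Ind I → Ind J → I.ncard < J.ncard →
      ∃ e ∈ J, e ∉ I ∧ Ind (insert e I) := by
    intro I J hI hJ hlt
    have hJ4 : J.ncard ≤ 4 := by rcases hJ with h | h <;> omega
    by_cases h2 : I.ncard ≤ 2
    · obtain ⟨e, heJ, heI⟩ := Set.exists_mem_notMem_of_ncard_lt_ncard hlt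
      refine ⟨e, heJ, heI, Or.inl ?_⟩
      have := Set.ncard_insert_le e I
      omega
    · have hI3 : I.ncard = 3 := by omega
      have hJ' : J.ncard = 4 ∧ ∀ b ∈ B, ¬ J ⊆ (b : Set V) := by
        rcases hJ with h | h
        · omega
        · exact h
      by_cases h : ∃ b ∈ B, I ⊆ (b : Set V)
      · obtain ⟨b, hb, hIb⟩ := h
        obtain ⟨e, heJ, heb⟩ := Set.not_subset.1 (hJ'.2 b hb)
        have heI : e ∉ I := fun h => heb (hIb h)
        refine ⟨e, heJ, heI, Or.inr (key I e hI3 heI fun c hc hIc => ?_)⟩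
        rw [huniq I hI3 c hc b hb hIc hIb]
        exact heb
      · push Not at h
        obtain ⟨e, heJ, heI⟩ := Set.exists_mem_notMem_of_ncard_lt_ncard hlt
        exact ⟨e, heJ, heI, Or.inr (key I e hI3 heI fun b hb hIb => (h b hb hIb).elim)⟩
  let M : IndepMatroid V := IndepMatroid.ofFinite (E := Set.univ) (Set.toFinite _) Ind
    (Or.inl (by simp))
    (by
      intro I J hJ hIJ
      have hle := Set.ncard_le_ncard hIJ (Set.toFinite _)
      rcases hJ with h | h
      · exact Or.inl (hle.trans h)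
      · rcases Nat.lt_or_ge I.ncard 4 with h4 | h4
        · exact Or.inl (by omega)
        · have : I = J := Set.eq_of_subset_of_ncard_le hIJ (by omega) (Set.toFinite _)
          exact Or.inr (this ▸ h))
    haug
    (fun I _ => Set.subset_univ I)
  have hind : ∀ I : Set V, M.matroid.Indep I ↔ Ind I := fun I => Iff.rfl
  refine ⟨M.matroid, ⟨rfl, fun I hI => ?_, fun J hJ => ?_⟩, fun I hI => ?_, fun I hI => ?_⟩
  · rw [hind]
    exact Or.inl (by omega)
  · have h1 : Ind J := (hind J).1 hJ.indep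
    by_contra h4
    have hJ3 : J.ncard ≤ 3 := by
      rcases h1 with h | h
      · exact h
      · exact (h4 h.1).elim
    have h5 : ∃ x, x ∉ J ∧ Ind (insert x J) := by
      by_cases h3 : J.ncard = 3
      · obtain ⟨x, hx, h⟩ := hext J h3
        exact ⟨x, hx, Or.inr (key J x h3 hx h)⟩
      · have h1 : J ≠ Set.univ := by
          intro h2
          rw [h2, Set.ncard_univ, Nat.card_eq_fintype_card] at hJ3
          omega
        obtain ⟨x, hx⟩ := (Set.ne_univ_iff_exists_notMem J).1 h1
        refine ⟨x, hx, Or.inl ?_⟩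
        have := Set.ncard_insert_le x J
        omega
    obtain ⟨x, hx, hi⟩ := h5
    have h6 := hJ.eq_of_subset_indep ((hind _).2 hi) (Set.subset_insert x J)
    exact hx (h6 ▸ Set.mem_insert x J)
  · rw [hind]
    exact Or.inl hI
  · rw [hind]
    have h1 : (I : Set V).ncard = 4 := by rw [Set.ncard_coe_finset, hI]
    constructor
    · rintro (h | h)
      · omega
      · intro b hb hs
        exact h.2 b hb (by exact_mod_cast hs)
    · intro h
      exact Or.inr ⟨h1, fun b hb hs => h b hb (by exact_mod_cast hs)⟩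

private theorem h2_det_sub {B B' : Finset (Finset V)} (hB : IsPack B) (hB' : IsPack B')
    (h : ∀ I : Finset V, I.card = 4 → ((∀ b ∈ B, ¬ I ⊆ b) ↔ ∀ b ∈ B', ¬ I ⊆ b))
    {b : Finset V} (hb : b ∈ B) : ∃ c ∈ B', b ⊆ c := by
  have h4 := hB.1 b hb
  obtain ⟨t, htb, ht⟩ := exists_subset_card_eq (show 3 ≤ b.card by omega)
  have hx : ∀ x ∈ b, x ∉ t → ∃ c ∈ B', insert x t ⊆ c := by
    intro x hxb hxt
    by_contra hc
    push Not at hc
    have h5 := (h (insert x t) (by rw [card_insert_of_notMem hxt, ht])).2 hc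
    exact h5 b hb (insert_subset hxb htb)
  obtain ⟨x, hxb, hxt⟩ := exists_mem_notMem_of_card_lt_card (show t.card < b.card by omega)
  obtain ⟨c, hc, hxc⟩ := hx x hxb hxt
  refine ⟨c, hc, fun y hy => ?_⟩
  by_cases hyt : y ∈ t
  · exact hxc (mem_insert_of_mem hyt)
  · obtain ⟨d, hd, hyd⟩ := hx y hy hyt
    have : c = d := h2_eq_of_three hB' hc hd (t := t) (by omega)
      ((subset_insert x t).trans hxc) ((subset_insert y t).trans hyd)
    rw [this]
    exact hyd (mem_insert_self y t)

private theorem h2_det {B B' : Finset (Finset V)} (hB : IsPack B) (hB' : IsPack B')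
    (h : ∀ I : Finset V, I.card = 4 → ((∀ b ∈ B, ¬ I ⊆ b) ↔ ∀ b ∈ B', ¬ I ⊆ b)) : B ⊆ B' := by
  intro b hb
  obtain ⟨c, hc, hbc⟩ := h2_det_sub hB hB' h hb
  obtain ⟨d, hd, hcd⟩ := h2_det_sub hB' hB (fun I hI => (h I hI).symm) hc
  have h4 := hB.1 b hb
  have h1 : b = d := h2_eq_of_three hB hb hd (t := b) (by omega) (Subset.refl b) (hbc.trans hcd)
  have h2 : b = c := Subset.antisymm hbc (h1 ▸ hcd)
  rw [h2]
  exact hc

/-- A packing is determined by the 4-sets contained in blocks. -/
theorem fam_det {B B' : Finset (Finset V)} (hB : B ∈ Fam (∅ : Finset (Finset V)))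
    (hB' : B' ∈ Fam (∅ : Finset (Finset V)))
    (h : ∀ I : Finset V, I.card = 4 → ((∀ b ∈ B, ¬ I ⊆ b) ↔ ∀ b ∈ B', ¬ I ⊆ b)) : B = B' :=
  Subset.antisymm (h2_det (h2_mem_fam.1 hB) (h2_mem_fam.1 hB') h)
    (h2_det (h2_mem_fam.1 hB') (h2_mem_fam.1 hB) fun I hI => (h I hI).symm)

/-- Number of paving matroids of rank 4 (`{univ}` is the only packing with the block `univ`). -/
theorem card_fam_le (hV : 4 ≤ Fintype.card V) :
    (Fam (∅ : Finset (Finset V))).card ≤ {M : Matroid V | Good M ∧ Pav M}.ncard + 1 := by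
  classical
  have : Finite (Matroid V) := finite_matroid
  have h1 : (Fam (∅ : Finset (Finset V))).filter (fun B => univ ∈ B) ⊆ {{univ}} := by
    intro B hB
    obtain ⟨hB1, hB2⟩ := mem_filter.1 hB
    have hP := h2_mem_fam.1 hB1
    rw [mem_singleton]
    apply eq_singleton_iff_unique_mem.2 ⟨hB2, fun b hb => ?_⟩
    have h4 := hP.1 b hb
    exact h2_eq_of_three hP hb hB2 (t := b) (by omega) (Subset.refl b) (subset_univ b)
  have h2 : ((Fam (∅ : Finset (Finset V))).filter (fun B => univ ∈ B)).card ≤ 1 :=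
    (card_le_card h1).trans (by simp)
  have h3 : ((Fam (∅ : Finset (Finset V))).filter (fun B => ¬ univ ∈ B)).card ≤
      {M : Matroid V | Good M ∧ Pav M}.ncard := by
    have hex : ∀ B : Finset (Finset V), B ∈ (Fam (∅ : Finset (Finset V))).filter
        (fun B => ¬ univ ∈ B) → ∃ M : Matroid V, Good M ∧ Pav M ∧
        ∀ I : Finset V, I.card = 4 → (M.Indep (I : Set V) ↔ ∀ b ∈ B, ¬ I ⊆ b) := by
      intro B hB
      obtain ⟨hB1, hB2⟩ := mem_filter.1 hB
      exact exists_mat B hB1 hB2 hV
    have : Nonempty (Matroid V) := ⟨Matroid.emptyOn V⟩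
    choose! f hf using hex
    rw [← Set.ncard_coe_finset]
    refine Set.ncard_le_ncard_of_injOn f (fun B hB => ?_) (fun B hB B' hB' he => ?_)
      (Set.toFinite _)
    · exact ⟨(hf B (mem_coe.1 hB)).1, (hf B (mem_coe.1 hB)).2.1⟩
    · have hB1 := mem_coe.1 hB
      have hB1' := mem_coe.1 hB'
      refine fam_det (mem_filter.1 hB1).1 (mem_filter.1 hB1').1 fun I hI => ?_
      rw [← (hf B hB1).2.2 I hI, ← (hf B' hB1').2.2 I hI, he]
  have h4 := card_filter_add_card_filter_not (s := Fam (∅ : Finset (Finset V)))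
    (fun B => univ ∈ B)
  omega

/-- There are at least two packings. -/
theorem two_le_card_fam (hV : 4 ≤ Fintype.card V) :
    2 ≤ (Fam (∅ : Finset (Finset V))).card := by
  classical
  have h1 : ({∅, {univ}} : Finset (Finset (Finset V))) ⊆ Fam (∅ : Finset (Finset V)) := by
    intro B hB
    rw [h2_mem_fam]
    rcases mem_insert.1 hB with rfl | hB
    · exact ⟨by simp, by simp⟩
    · rw [mem_singleton.1 hB]
      refine ⟨fun b hb => ?_, fun b hb c hc hne => ?_⟩
      · rw [mem_singleton.1 hb, card_univ]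
        exact hV
      · rw [mem_singleton.1 hb, mem_singleton.1 hc] at hne
        exact (hne rfl).elim
  calc 2 = ({∅, {univ}} : Finset (Finset (Finset V))).card := by
        rw [card_pair]
        exact (singleton_ne_empty _).symm
    _ ≤ _ := card_le_card h1

end Pool.Agent.Helper2.R4
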