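/-
MP_e8bc6f_co, rank 4, block R4-FIX (matroids with a nontrivial automorphism).
-/
import Pool.Agent.Helper2.R4.PAV

set_option autoImplicit false

namespace Pool.Agent.Helper2.R4

open Finset

variable {V : Type*} [Fintype V] [DecidableEq V]

open Classical in
/-- A fixed representative of a set. -/
private noncomputable def rep (S : Set V) : Option V := if h : S.Nonempty then some h.some else none

omit [Fintype V] [DecidableEq V] in
private theorem rep_ne_none {S : Set V} : rep S ≠ none ↔ S.Nonempty := by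
  unfold rep
  by_cases h : S.Nonempty
  · simp [h]
  · simp [h]

omit [Fintype V] [DecidableEq V] in
private theorem rep_inter {S T : Set V} (hS : S.Nonempty) (hT : T.Nonempty) (h : rep S = rep T) :
    ∃ w, w ∈ S ∧ w ∈ T := by
  unfold rep at h
  rw [dif_pos hS, dif_pos hT] at h
  have h1 : hS.some = hT.some := Option.some_injective _ h
  exact ⟨hS.some, hS.some_mem, by rw [h1]; exact hT.some_mem⟩

/-- The set attached to `u`. -/
private def cls (M : Matroid V) (X : Set V) (u : V) : Set V := M.closure (insert u X) \ M.closure X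

omit [Fintype V] [DecidableEq V] in
private theorem cls_nonempty {M : Matroid V} (hE : M.E = Set.univ) {X : Set V} {u : V} :
    (cls M X u).Nonempty ↔ u ∉ M.closure X := by
  constructor
  · rintro ⟨w, hw⟩ hu
    unfold cls at hw
    rw [Matroid.closure_insert_eq_of_mem_closure hu] at hw
    exact hw.2 hw.1
  · intro hu
    refine ⟨u, M.mem_closure_of_mem (Set.mem_insert _ _) (by rw [hE]; exact Set.subset_univ _), hu⟩

omit [Fintype V] [DecidableEq V] in
private theorem indep3 {M : Matroid V} (hE : M.E = Set.univ) {X : Set V} (hX : M.Indep X) {u : V}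
    (hu : u ∉ X) : M.Indep (insert u X) ↔ rep (cls M X u) ≠ none := by
  rw [rep_ne_none, cls_nonempty hE, hX.insert_indep_iff_of_notMem hu, hE]
  simp

omit [Fintype V] [DecidableEq V] in
private theorem indep4 {M : Matroid V} (hE : M.E = Set.univ) {X : Set V} (hX : M.Indep X) {u v : V}
    (hu : u ∉ X) (hv : v ∉ X) (huv : u ≠ v) :
    M.Indep (insert v (insert u X)) ↔
      rep (cls M X u) ≠ none ∧ rep (cls M X v) ≠ none ∧ rep (cls M X u) ≠ rep (cls M X v) := by
  have hXE : X ⊆ M.E := by rw [hE]; exact Set.subset_univ _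
  have hv' : v ∉ insert u X := by
    rw [Set.mem_insert_iff, not_or]; exact ⟨huv.symm, hv⟩
  constructor
  · intro h
    have h1 : M.Indep (insert u X) := h.subset (Set.subset_insert _ _)
    have h2 : v ∉ M.closure (insert u X) := by
      rw [h1.insert_indep_iff_of_notMem hv'] at h
      exact h.2
    have h3 : v ∉ M.closure X := fun h4 =>
      h2 (M.closure_subset_closure (Set.subset_insert _ _) h4)
    have h4 : u ∉ M.closure X := by
      rw [hX.insert_indep_iff_of_notMem hu] at h1
      exact h1.2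
    refine ⟨rep_ne_none.2 ((cls_nonempty hE).2 h4), rep_ne_none.2 ((cls_nonempty hE).2 h3), ?_⟩
    intro h5
    obtain ⟨w, hw1, hw2⟩ := rep_inter ((cls_nonempty hE).2 h4) ((cls_nonempty hE).2 h3) h5
    have e1 := Matroid.closure_insert_congr hw1
    have e2 := Matroid.closure_insert_congr hw2
    apply h2
    rw [← e1, e2]
    exact M.mem_closure_of_mem (Set.mem_insert _ _) (by rw [hE]; exact Set.subset_univ _)
  · rintro ⟨h1, h2, h3⟩
    have h4 : u ∉ M.closure X := (cls_nonempty hE).1 (rep_ne_none.1 h1)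
    have h5 : v ∉ M.closure X := (cls_nonempty hE).1 (rep_ne_none.1 h2)
    have h6 : M.Indep (insert u X) := by
      rw [hX.insert_indep_iff_of_notMem hu, hE]
      exact ⟨Set.mem_univ _, h4⟩
    rw [h6.insert_indep_iff_of_notMem hv', hE]
    refine ⟨Set.mem_univ _, fun h7 => h3 ?_⟩
    have h8 := Matroid.closure_insert_congr (M := M) (e := v) (f := u) (X := X) ⟨h7, h5⟩
    unfold cls
    rw [h8]

omit [Fintype V] [DecidableEq V] in
private theorem good_ncard_le [Finite V] {M : Matroid V} (hM : Good M) {I : Set V} (h : M.Indep I) :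
    I.ncard ≤ 4 := by
  obtain ⟨B, hB, hIB⟩ := h.exists_isBase_superset
  rw [← hM.2.2 B hB]
  exact Set.ncard_le_ncard hIB (Set.toFinite _)

/-- Sets containing `x` and `y`. -/
private theorem det_xy {M₁ M₂ : Matroid V} (h₁ : Good M₁) (h₂ : Good M₂) {x y : V} (hxy : x ≠ y)
    (hf : ∀ u, rep (cls M₁ {x, y} u) = rep (cls M₂ {x, y} u)) {I : Set V} (hx : x ∈ I)
    (hy : y ∈ I) : M₁.Indep I ↔ M₂.Indep I := by
  have hX₁ : M₁.Indep {x, y} := h₁.2.1 _ (Set.ncard_insert_le _ _ |>.trans (by simp))
  have hX₂ : M₂.Indep {x, y} := h₂.2.1 _ (Set.ncard_insert_le _ _ |>.trans (by simp))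
  set J : Set V := I \ {x, y} with hJ
  have hIJ : I = J ∪ {x, y} := by
    rw [hJ, Set.sdiff_union_self]
    exact (Set.union_eq_self_of_subset_right (by
      rintro z (rfl | rfl)
      · exact hx
      · exact hy)).symm
  have hdisj : ∀ u ∈ J, u ∉ ({x, y} : Set V) := fun u hu => hu.2
  rcases lt_or_ge 2 J.ncard with h | h
  · have hc : 5 ≤ I.ncard := by
      rw [hIJ, Set.ncard_union_eq (Set.disjoint_left.2 fun u hu => hdisj u hu)
        (Set.toFinite _) (Set.toFinite _), Set.ncard_pair hxy]
      omega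
    constructor
    · intro h'
      have := good_ncard_le h₁ h'
      omega
    · intro h'
      have := good_ncard_le h₂ h'
      omega
  · have h3 : J.ncard = 0 ∨ J.ncard = 1 ∨ J.ncard = 2 := by omega
    rcases h3 with h3 | h3 | h3
    · rw [Set.ncard_eq_zero (Set.toFinite _)] at h3
      rw [hIJ, h3, Set.empty_union]
      exact ⟨fun _ => hX₂, fun _ => hX₁⟩
    · obtain ⟨u, hu⟩ := Set.ncard_eq_one.1 h3
      have hu' : u ∉ ({x, y} : Set V) := hdisj u (by rw [hu]; exact Set.mem_singleton _)
      rw [hIJ, hu, Set.singleton_union, indep3 h₁.1 hX₁ hu', indep3 h₂.1 hX₂ hu', hf]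
    · obtain ⟨u, v, huv, hJ2⟩ := Set.ncard_eq_two.1 h3
      have hu' : u ∉ ({x, y} : Set V) := hdisj u (by rw [hJ2]; exact Set.mem_insert _ _)
      have hv' : v ∉ ({x, y} : Set V) := hdisj v (by
        rw [hJ2]; exact Set.mem_insert_of_mem _ (Set.mem_singleton _))
      have e : J ∪ {x, y} = insert v (insert u {x, y}) := by
        rw [hJ2]
        ext z
        simp only [Set.mem_union, Set.mem_insert_iff, Set.mem_singleton_iff]
        tauto
      rw [hIJ, e, indep4 h₁.1 hX₁ hu' hv' huv, indep4 h₂.1 hX₂ hu' hv' huv, hf, hf]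

omit [Fintype V] [DecidableEq V] in
private theorem comap_indep' (M : Matroid V) {y : V} {I : Set V} (hy : y ∉ I) :
    M.Indep I ↔ (M.comap (Subtype.val : {v : V // v ≠ y} → V)).Indep (Subtype.val ⁻¹' I) := by
  have e : Subtype.val '' ((Subtype.val : {v : V // v ≠ y} → V) ⁻¹' I) = I := by
    rw [Set.image_preimage_eq_iff]
    intro z hz
    refine ⟨⟨z, ?_⟩, rfl⟩
    rintro rfl
    exact hy hz
  rw [Matroid.comap_indep_iff, e]
  exact ⟨fun h => ⟨h, Subtype.val_injective.injOn⟩, fun h => h.1⟩

private theorem good_comap {M : Matroid V} (hM : Good M) {y : V} {B₀ : Set V} (hB₀ : M.IsBase B₀)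
    (hy : y ∉ B₀) : Good (M.comap (Subtype.val : {v : V // v ≠ y} → V)) := by
  refine ⟨?_, ?_, ?_⟩
  · rw [Matroid.comap_ground_eq, hM.1, Set.preimage_univ]
  · intro I hI
    rw [Matroid.comap_indep_iff]
    refine ⟨hM.2.1 _ ?_, Subtype.val_injective.injOn⟩
    rw [Set.ncard_image_of_injective _ Subtype.val_injective]
    exact hI
  · intro B hB
    rw [Matroid.comap_isBase_iff, hM.1, Set.preimage_univ, Set.image_univ] at hB
    have h1 : B₀ ⊆ Set.range (Subtype.val : {v : V // v ≠ y} → V) := by
      intro z hz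
      refine ⟨⟨z, ?_⟩, rfl⟩
      rintro rfl
      exact hy hz
    have h2 := hB₀.isBase_of_isBasis_superset h1 hB.1
    have h3 := hM.2.2 _ h2
    rwa [Set.ncard_image_of_injective _ Subtype.val_injective] at h3

/-- Let `σ x = y ≠ x`.  (1) If `y` is a coloop then so is `x`, and `M` is determined: `I` is
independent iff `|I \ {x, y}| ≤ 2`.  (2) Otherwise the restriction `M' = M.comap Subtype.val` to
`{v // v ≠ y}` is `Good`, and `M` is determined by `M'` and the function `f : V → Option V`,
`f u = none` if `{x, y, u}` is dependent, otherwise `some` of a fixed representative of the class of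
`u` for the relation '`u = v` or `{x, y, u, v}` is dependent': sets without `y` are in `M'`; sets
`D` with `x, y ∈ D`, `|D| ≤ 4`, are decided by `f`; if `y ∈ D`, `x ∉ D`, then `σ⁻¹ D` contains `x`
and is of one of the two former kinds. -/
theorem card_fix_le (σ : Equiv.Perm V) (hσ : σ ≠ 1) :
    ∃ y : V, {M : Matroid V | Good M ∧ ∀ I : Set V, M.Indep I ↔ M.Indep (σ '' I)}.ncard ≤
      1 + (Fintype.card V + 1) ^ Fintype.card V *
        {M : Matroid {v : V // v ≠ y} | Good M}.ncard := by
  classical
  obtain ⟨x, hx⟩ : ∃ x, σ x ≠ x := by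
    by_contra hc
    push Not at hc
    exact hσ (Equiv.ext hc)
  set y := σ x with hy
  have hxy : x ≠ y := hx.symm
  haveI : Finite (Matroid V) := finite_matroid
  haveI : Finite (Matroid {v : V // v ≠ y}) := finite_matroid
  refine ⟨y, ?_⟩
  set T1 : Set (Matroid V) := {M | (Good M ∧ ∀ I : Set V, M.Indep I ↔ M.Indep (σ '' I)) ∧
    ∀ B, M.IsBase B → y ∈ B} with hT1
  set T2 : Set (Matroid V) := {M | (Good M ∧ ∀ I : Set V, M.Indep I ↔ M.Indep (σ '' I)) ∧
    ∃ B, M.IsBase B ∧ y ∉ B} with hT2
  have hsub : {M : Matroid V | Good M ∧ ∀ I : Set V, M.Indep I ↔ M.Indep (σ '' I)} ⊆ T1 ∪ T2 := by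
    intro M hM
    by_cases h : ∀ B, M.IsBase B → y ∈ B
    · exact Or.inl ⟨hM, h⟩
    · push Not at h
      exact Or.inr ⟨hM, h⟩
  have h1 : T1.ncard ≤ 1 := by
    have key : ∀ M ∈ T1, ∀ I : Set V, M.Indep I ↔ (I \ {x, y}).ncard ≤ 2 := by
      rintro M ⟨⟨hM, hinv⟩, hcol⟩ I
      have hxB : ∀ B, M.IsBase B → x ∈ B := by
        intro B hB
        have h2 : M.Indep (σ '' B) := (hinv B).1 hB.indep
        obtain ⟨B', hB', hBB'⟩ := h2.exists_isBase_superset
        have h3 : (σ '' B).ncard = 4 := by
          rw [Set.ncard_image_of_injective _ σ.injective]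
          exact hM.2.2 B hB
        have h4 : σ '' B = B' := Set.eq_of_subset_of_ncard_le hBB'
          (by rw [h3, hM.2.2 B' hB']) (Set.toFinite _)
        have h5 := hcol B' hB'
        rw [← h4] at h5
        obtain ⟨z, hz, hzy⟩ := h5
        have : z = x := σ.injective hzy
        rwa [this] at hz
      have hpair : ∀ B, M.IsBase B → ({x, y} : Set V) ⊆ B := by
        intro B hB z hz
        rcases hz with rfl | hz
        · exact hxB B hB
        · rw [Set.mem_singleton_iff.1 hz]; exact hcol B hB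
      constructor
      · intro hI
        obtain ⟨B, hB, hIB⟩ := hI.exists_isBase_superset
        have h2 : (B \ {x, y}).ncard = 2 := by
          have h3 := Set.ncard_sdiff_add_ncard_of_subset (hpair B hB) (Set.toFinite _)
          rw [Set.ncard_pair hxy, hM.2.2 B hB] at h3
          omega
        rw [← h2]
        exact Set.ncard_le_ncard (Set.sdiff_subset_sdiff_left hIB) (Set.toFinite _)
      · intro hI
        obtain ⟨B, hB, hIB⟩ := (hM.2.1 _ hI).exists_isBase_superset
        refine hB.indep.subset fun z hz => ?_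
        by_cases hz' : z ∈ ({x, y} : Set V)
        · exact hpair B hB hz'
        · exact hIB ⟨hz, hz'⟩
    rw [Set.ncard_le_one (Set.toFinite _)]
    intro M₁ hM₁ M₂ hM₂
    refine Matroid.ext_indep (by rw [hM₁.1.1.1, hM₂.1.1.1]) fun I _ => ?_
    rw [key M₁ hM₁, key M₂ hM₂]
  have h2 : T2.ncard ≤ (Fintype.card V + 1) ^ Fintype.card V *
        {M : Matroid {v : V // v ≠ y} | Good M}.ncard := by
    have h3 : T2.ncard ≤ ({M : Matroid {v : V // v ≠ y} | Good M} ×ˢ
        (Set.univ : Set (V → Option V))).ncard := by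
      refine Set.ncard_le_ncard_of_injOn
        (fun M => (M.comap (Subtype.val : {v : V // v ≠ y} → V),
          fun u => rep (cls M {x, y} u))) ?_ ?_ (Set.toFinite _)
      · rintro M ⟨⟨hM, _⟩, B, hB, hyB⟩
        exact ⟨good_comap hM hB hyB, Set.mem_univ _⟩
      · rintro M₁ ⟨⟨h₁, i₁⟩, -⟩ M₂ ⟨⟨h₂, i₂⟩, -⟩ heq
        have e1 : M₁.comap (Subtype.val : {v : V // v ≠ y} → V)
            = M₂.comap (Subtype.val : {v : V // v ≠ y} → V) := congrArg Prod.fst heq
        have e2 : ∀ u, rep (cls M₁ {x, y} u) = rep (cls M₂ {x, y} u) := fun u =>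
          congrFun (congrArg Prod.snd heq) u
        have ka : ∀ I : Set V, y ∉ I → (M₁.Indep I ↔ M₂.Indep I) := by
          intro I hI
          rw [comap_indep' M₁ hI, comap_indep' M₂ hI, e1]
        have kb : ∀ I : Set V, x ∈ I → (M₁.Indep I ↔ M₂.Indep I) := by
          intro I hI
          by_cases hyI : y ∈ I
          · exact det_xy h₁ h₂ hxy e2 hI hyI
          · exact ka I hyI
        refine Matroid.ext_indep (by rw [h₁.1, h₂.1]) fun I _ => ?_
        by_cases hyI : y ∈ I
        · have e3 : σ '' (σ ⁻¹' I) = I := Set.image_preimage_eq _ σ.surjective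
          have hx' : x ∈ σ ⁻¹' I := hyI
          rw [← e3, ← i₁, ← i₂]
          exact kb _ hx'
        · exact ka I hyI
    refine h3.trans (le_of_eq ?_)
    rw [Set.ncard_prod, Set.ncard_univ, Nat.card_eq_fintype_card, Fintype.card_fun,
      Fintype.card_option, mul_comm]
  calc _ ≤ (T1 ∪ T2).ncard := Set.ncard_le_ncard hsub (Set.toFinite _)
    _ ≤ T1.ncard + T2.ncard := Set.ncard_union_le _ _
    _ ≤ _ := add_le_add h1 h2

end Pool.Agent.Helper2.R4
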