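/-
MP_e8bc6f_co, rank 4, block R4-MAT (lines and planes of a simple matroid of rank 4).
-/
import Pool.Agent.Helper2.R4.Defs

set_option autoImplicit false
set_option linter.unusedSectionVars false

namespace Pool.Agent.Helper2.R4

open Finset

variable {V : Type*} [Fintype V] [DecidableEq V]

private theorem mem_E47 {M : Matroid V} (hM : Good M) (X : Set V) : X ⊆ M.E := by
  rw [hM.1]; exact Set.subset_univ X

/-- An independent set `X` in the closure of `Y`, at least as large as `Y`, has the same closure. -/
private theorem cl_eq47 {M : Matroid V} {X Y : Set V} (hX : M.Indep X)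
    (hXY : X ⊆ M.closure Y) (hc : Y.encard ≤ X.encard) : M.closure X = M.closure Y := by
  have hfin : M.IsRkFinite X := M.isRkFinite_of_finite (Set.toFinite X)
  have h1 : M.eRk (M.closure Y) ≤ M.eRk X := by
    rw [M.eRk_closure_eq, hX.eRk_eq_encard]
    exact (M.eRk_le_encard Y).trans hc
  rw [hfin.closure_eq_closure_of_subset_of_eRk_ge_eRk hXY h1, M.closure_closure]

private theorem pair_indep47 {M : Matroid V} (hM : Good M) (x y : V) : M.Indep {x, y} := by
  apply hM.2.1
  exact (Set.ncard_insert_le x {y}).trans (by rw [Set.ncard_singleton])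

private theorem mem_lin47 {M : Matroid V} {l : Finset V} :
    l ∈ lin M ↔ 3 ≤ l.card ∧ ∃ x y, x ≠ y ∧ (l : Set V) = M.closure {x, y} := by
  unfold lin; rw [Finset.mem_filter]; simp

private theorem mem_pln47 {M : Matroid V} {h : Finset V} :
    h ∈ pln M ↔ ∃ x y z, x ≠ y ∧ x ≠ z ∧ y ≠ z ∧ M.Indep {x, y, z} ∧
      (h : Set V) = M.closure {x, y, z} := by
  classical
  simp [pln]

/-- a line is spanned by any two of its points -/
private theorem lin_span47 {M : Matroid V} (hM : Good M) {l : Finset V} (hl : l ∈ lin M)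
    {x y : V} (hx : x ∈ l) (hy : y ∈ l) (hxy : x ≠ y) : (l : Set V) = M.closure {x, y} := by
  obtain ⟨_, a, b, hab, he⟩ := mem_lin47.1 hl
  rw [he]
  symm
  apply cl_eq47 (pair_indep47 hM x y)
  · rw [← he]
    intro z hz
    rcases hz with hz | hz
    · rw [hz]; exact hx
    · rw [Set.mem_singleton_iff] at hz; rw [hz]; exact hy
  · rw [Set.encard_pair hab, Set.encard_pair hxy]

/-- a plane is spanned by any independent triple of its points -/
private theorem pln_span47 {M : Matroid V} {h : Finset V} (hh : h ∈ pln M)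
    {X : Set V} (hX : M.Indep X) (hXh : X ⊆ (h : Set V)) (hc : 3 ≤ X.encard) :
    (h : Set V) = M.closure X := by
  obtain ⟨a, b, c, hab, hac, hbc, hi, he⟩ := mem_pln47.1 hh
  rw [he]
  symm
  apply cl_eq47 hX
  · rw [← he]; exact hXh
  · refine le_trans ?_ hc
    rw [Set.encard_insert_of_notMem, Set.encard_pair hbc]
    · norm_num
    · simp only [Set.mem_insert_iff, Set.mem_singleton_iff, not_or]
      exact ⟨hab, hac⟩

private theorem finset_of47 (X : Set V) : ∃ s : Finset V, (s : Set V) = X :=
  ⟨(Set.toFinite X).toFinset, by simp⟩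

/-- a triple is independent iff it is on no line -/
private theorem tri_iff47 {M : Matroid V} (hM : Good M) {t : Finset V} (ht : t.card = 3) :
    M.Indep (t : Set V) ↔ ∀ l ∈ lin M, ¬ t ⊆ l := by
  obtain ⟨x, y, z, hxy, hxz, hyz, rfl⟩ := Finset.card_eq_three.1 ht
  constructor
  · intro hi l hl hsub
    have hx : x ∈ l := hsub (by simp)
    have hy : y ∈ l := hsub (by simp)
    have hz : z ∈ l := hsub (by simp)
    have h1 := lin_span47 hM hl hy hz hyz
    have h2 : x ∈ M.closure {y, z} := by rw [← h1]; exact hx
    have h3 : x ∉ ({y, z} : Set V) := by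
      simp only [Set.mem_insert_iff, Set.mem_singleton_iff, not_or]; exact ⟨hxy, hxz⟩
    have h4 := ((pair_indep47 hM y z).mem_closure_iff_of_notMem h3).1 h2
    apply h4.not_indep
    have : ((({x, y, z} : Finset V)) : Set V) = insert x {y, z} := by simp
    rw [← this]; exact hi
  · intro hn
    by_contra hi
    have h3 : x ∉ ({y, z} : Set V) := by
      simp only [Set.mem_insert_iff, Set.mem_singleton_iff, not_or]; exact ⟨hxy, hxz⟩
    have hcoe : ((({x, y, z} : Finset V)) : Set V) = insert x {y, z} := by simp
    rw [hcoe] at hi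
    have h4 : x ∈ M.closure {y, z} := by
      by_contra hx
      exact hi (((pair_indep47 hM y z).notMem_closure_iff_of_notMem h3
        (mem_E47 hM {x} rfl)).1 hx)
    obtain ⟨s, hs⟩ := finset_of47 (M.closure {y, z})
    have hsub : ({x, y, z} : Finset V) ⊆ s := by
      intro w hw
      rw [← Finset.mem_coe, hs]
      simp only [Finset.mem_insert, Finset.mem_singleton] at hw
      rcases hw with rfl | rfl | rfl
      · exact h4
      · exact M.mem_closure_of_mem (by simp) (mem_E47 hM _)
      · exact M.mem_closure_of_mem (by simp) (mem_E47 hM _)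
    refine hn s (mem_lin47.2 ⟨?_, y, z, hyz, hs⟩) hsub
    rw [← ht]; exact Finset.card_le_card hsub

/-- In a simple matroid of rank 4 all independent sets have at most 4 elements. -/
theorem indep_card_le {M : Matroid V} (hM : Good M) {I : Set V} (hI : M.Indep I) :
    I.ncard ≤ 4 := by
  obtain ⟨B, hB, hIB⟩ := hI.exists_isBase_superset
  rw [← hM.2.2 B hB]
  exact Set.ncard_le_ncard hIB (Set.toFinite B)

theorem lin_isLin {M : Matroid V} (hM : Good M) : IsLin (lin M) := by
  refine ⟨fun l hl => (mem_lin47.1 hl).1, ?_⟩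
  intro l hl m hm hne
  by_contra hcard
  push Not at hcard
  obtain ⟨x, hx, y, hy, hxy⟩ := Finset.one_lt_card.1 hcard
  rw [Finset.mem_inter] at hx hy
  apply hne
  have h1 := lin_span47 hM hl hx.1 hy.1 hxy
  have h2 := lin_span47 hM hm hx.2 hy.2 hxy
  exact Finset.coe_injective (h1.trans h2.symm)

theorem pln_isPlanes {M : Matroid V} (hM : Good M) : IsPlanes (lin M) (pln M) := by
  refine ⟨?_, ?_, ?_⟩
  · intro h hh l hl hcard
    obtain ⟨x, hx, y, hy, hxy⟩ := Finset.one_lt_card.1 (show 1 < (l ∩ h).card from hcard)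
    rw [Finset.mem_inter] at hx hy
    have h1 := lin_span47 hM hl hx.1 hy.1 hxy
    obtain ⟨a, b, c, -, -, -, -, he⟩ := mem_pln47.1 hh
    rw [← Finset.coe_subset, h1, he]
    apply M.closure_subset_closure_of_subset_closure
    rw [← he]
    intro z hz
    rcases hz with hz | hz
    · rw [hz]; exact hx.2
    · rw [Set.mem_singleton_iff] at hz; rw [hz]; exact hy.2
  · intro t ht
    have hi : M.Indep (t : Set V) := (tri_iff47 hM ht.1).2 ht.2
    have henc : (3 : ℕ∞) ≤ (t : Set V).encard := by
      rw [Set.encard_coe_eq_coe_finsetCard, ht.1]; rfl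
    obtain ⟨s, hs⟩ := finset_of47 (M.closure (t : Set V))
    refine ⟨s, ⟨?_, ?_⟩, ?_⟩
    · obtain ⟨x, y, z, hxy, hxz, hyz, rfl⟩ := Finset.card_eq_three.1 ht.1
      have hcoe : ((({x, y, z} : Finset V)) : Set V) = {x, y, z} := by simp
      rw [hcoe] at hi hs
      exact mem_pln47.2 ⟨x, y, z, hxy, hxz, hyz, hi, hs⟩
    · rw [← Finset.coe_subset, hs]
      exact M.subset_closure _ (mem_E47 hM _)
    · rintro h' ⟨hh', hth'⟩
      apply Finset.coe_injective
      rw [hs]
      exact pln_span47 hh' hi (by exact_mod_cast hth') henc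
  · intro h hh
    obtain ⟨x, y, z, hxy, hxz, hyz, hi, he⟩ := mem_pln47.1 hh
    have hcoe : ((({x, y, z} : Finset V)) : Set V) = {x, y, z} := by simp
    have hc3 : ({x, y, z} : Finset V).card = 3 := Finset.card_eq_three.2 ⟨x, y, z, hxy, hxz, hyz, rfl⟩
    refine ⟨{x, y, z}, ⟨hc3, (tri_iff47 hM hc3).1 (by rw [hcoe]; exact hi)⟩, ?_⟩
    rw [← Finset.coe_subset, he, hcoe]
    exact M.subset_closure _ (mem_E47 hM _)

/-- a set of 4 points is dependent iff it lies in a plane or on a line -/
private theorem four_iff47 {M : Matroid V} (hM : Good M) {t : Finset V} (ht : t.card = 4) :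
    M.Indep (t : Set V) ↔ (∀ l ∈ lin M, ¬ t ⊆ l) ∧ ∀ h ∈ pln M, ¬ t ⊆ h := by
  have henc : (t : Set V).encard = 4 := by
    rw [Set.encard_coe_eq_coe_finsetCard, ht]; rfl
  constructor
  · intro hi
    constructor
    · intro l hl hsub
      obtain ⟨_, a, b, hab, he⟩ := mem_lin47.1 hl
      have h1 : (t : Set V).encard ≤ M.eRk (M.closure {a, b}) := by
        apply hi.encard_le_eRk_of_subset
        rw [← he]; exact_mod_cast hsub
      rw [M.eRk_closure_eq, henc] at h1
      have h2 := h1.trans (M.eRk_le_encard _)
      rw [Set.encard_pair hab] at h2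
      exact absurd h2 (by decide)
    · intro h hh hsub
      obtain ⟨a, b, c, hab, hac, hbc, -, he⟩ := mem_pln47.1 hh
      have h1 : (t : Set V).encard ≤ M.eRk (M.closure {a, b, c}) := by
        apply hi.encard_le_eRk_of_subset
        rw [← he]; exact_mod_cast hsub
      rw [M.eRk_closure_eq, henc] at h1
      have h2 := h1.trans (M.eRk_le_encard _)
      have h3 : ({a, b, c} : Set V).encard ≤ 3 := by
        calc ({a, b, c} : Set V).encard ≤ ({b, c} : Set V).encard + 1 :=
              Set.encard_insert_le _ _
          _ = 3 := by rw [Set.encard_pair hbc]; norm_num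
      exact absurd (h2.trans h3) (by decide)
  · rintro ⟨hl, hh⟩
    by_contra hi
    obtain ⟨x, hx, y, hy, hxy⟩ := Finset.one_lt_card.1 (show 1 < t.card by omega)
    by_cases hcase : (t : Set V) ⊆ M.closure {x, y}
    · obtain ⟨s, hs⟩ := finset_of47 (M.closure {x, y})
      have hsub : t ⊆ s := by rw [← Finset.coe_subset, hs]; exact hcase
      refine hl s (mem_lin47.2 ⟨?_, x, y, hxy, hs⟩) hsub
      have := Finset.card_le_card hsub; omega
    · obtain ⟨z, hz, hzn⟩ := Set.not_subset.1 hcase
      have hzxy : z ∉ ({x, y} : Set V) := fun h => hzn (M.mem_closure_of_mem h (mem_E47 hM _))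
      have hzx : z ≠ x := fun h => hzxy (by simp [h])
      have hzy : z ≠ y := fun h => hzxy (by simp [h])
      have hi3 : M.Indep {z, x, y} :=
        ((pair_indep47 hM x y).notMem_closure_iff_of_notMem hzxy (mem_E47 hM {z} rfl)).1 hzn
      obtain ⟨s, hs⟩ := finset_of47 (M.closure {z, x, y})
      refine hh s (mem_pln47.2 ⟨z, x, y, hzx, hzy, hxy, hi3, hs⟩) ?_
      intro w hw
      rw [← Finset.mem_coe, hs]
      by_contra hwn
      have hwn' : w ∉ ({z, x, y} : Set V) := fun h => hwn (M.mem_closure_of_mem h (mem_E47 hM _))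
      have hi4 := (hi3.notMem_closure_iff_of_notMem hwn' (mem_E47 hM {w} rfl)).1 hwn
      apply hi
      have hsub : ({w, z, x, y} : Finset V) ⊆ t := by
        intro u hu
        simp only [Finset.mem_insert, Finset.mem_singleton] at hu
        rcases hu with rfl | rfl | rfl | rfl
        · exact hw
        · exact hz
        · exact hx
        · exact hy
      have hcard4 : ({w, z, x, y} : Finset V).card = 4 := by
        have hw3 : w ∉ ({z, x, y} : Finset V) := by
          intro h; apply hwn'; simpa using h
        rw [Finset.card_insert_of_notMem hw3,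
          Finset.card_eq_three.2 ⟨z, x, y, hzx, hzy, hxy, rfl⟩]
      have heq : ({w, z, x, y} : Finset V) = t :=
        Finset.eq_of_subset_of_card_le hsub (by rw [ht, hcard4])
      rw [← heq]
      have hcoe : ((({w, z, x, y} : Finset V)) : Set V) = insert w {z, x, y} := by simp
      rw [hcoe]; exact hi4

/-- A simple matroid of rank 4 is determined by its lines and planes: a set of 3 elements is
dependent iff it lies on a line of `lin M`; a set of 4 elements is dependent iff it lies in a plane
or on a line; sets with at most 2 elements are independent, sets with at least 5 dependent. -/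
theorem mat_det {M M' : Matroid V} (hM : Good M) (hM' : Good M') (h1 : lin M = lin M')
    (h2 : pln M = pln M') : M = M' := by
  apply Matroid.ext_indep (by rw [hM.1, hM'.1])
  intro I _
  obtain ⟨t, rfl⟩ := finset_of47 I
  have hn : (t : Set V).ncard = t.card := Set.ncard_coe_finset t
  rcases Nat.lt_or_ge t.card 3 with h | h
  · constructor
    · intro _; exact hM'.2.1 _ (by omega)
    · intro _; exact hM.2.1 _ (by omega)
  · rcases Nat.lt_or_ge t.card 5 with h5 | h5
    · have h34 : t.card = 3 ∨ t.card = 4 := by omega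
      rcases h34 with h3 | h4
      · rw [tri_iff47 hM h3, tri_iff47 hM' h3, h1]
      · rw [four_iff47 hM h4, four_iff47 hM' h4, h1, h2]
    · constructor
      · intro hi; have := indep_card_le hM hi; omega
      · intro hi; have := indep_card_le hM' hi; omega

theorem lin_eq_empty_iff {M : Matroid V} (hM : Good M) : lin M = ∅ ↔ Pav M := by
  constructor
  · intro he I hI
    obtain ⟨t, rfl⟩ := finset_of47 I
    have hn : (t : Set V).ncard = t.card := Set.ncard_coe_finset t
    rcases Nat.lt_or_ge t.card 3 with h | h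
    · exact hM.2.1 _ (by omega)
    · rw [tri_iff47 hM (by omega), he]; simp
  · intro hp
    rw [Finset.eq_empty_iff_forall_notMem]
    intro l hl
    obtain ⟨t, htl, ht⟩ := Finset.exists_subset_card_eq (mem_lin47.1 hl).1
    have hi : M.Indep (t : Set V) := hp _ (by rw [Set.ncard_coe_finset, ht])
    exact (tri_iff47 hM ht).1 hi l hl htl

end Pool.Agent.Helper2.R4
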