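/-
MP_e8bc6f_co, rank 4, block R4-MC (number of matchings) and an abstract double count.
-/
import Pool.Agent.Helper2.R4.Defs

set_option autoImplicit false

namespace Pool.Agent.Helper2.R4

open Finset

/-- At most `n` pairs of `E` contain a given point. -/
private theorem card_star_le {V : Type*} [Fintype V] [DecidableEq V] (E : Finset (Finset V))
    (hE : ∀ e ∈ E, e.card = 2) (x : V) :
    (E.filter (fun e => x ∈ e)).card ≤ Fintype.card V := by
  classical
  have h1 : E.filter (fun e => x ∈ e) ⊆ (univ : Finset V).image (fun y => ({x, y} : Finset V)) := by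
    intro e he
    rw [mem_filter] at he
    obtain ⟨u, v, huv, rfl⟩ := Finset.card_eq_two.mp (hE e he.1)
    rw [mem_image]
    have hx := he.2
    rw [mem_insert, mem_singleton] at hx
    rcases hx with rfl | rfl
    · exact ⟨v, mem_univ _, rfl⟩
    · exact ⟨u, mem_univ _, Finset.pair_comm _ _⟩
  calc (E.filter (fun e => x ∈ e)).card
      ≤ ((univ : Finset V).image (fun y => ({x, y} : Finset V))).card := card_le_card h1
    _ ≤ (univ : Finset V).card := card_image_le
    _ = Fintype.card V := rfl

private theorem mem_matchings {V : Type*} [Fintype V] [DecidableEq V] (E : Finset (Finset V))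
    (j : ℕ) (P : Finset (Finset V)) :
    P ∈ matchings E j ↔ (P ⊆ E ∧ P.card = j) ∧ ∀ p ∈ P, ∀ q ∈ P, p ≠ q → Disjoint p q := by
  unfold matchings
  rw [mem_filter, mem_powersetCard]

/-- The edges of `E` disjoint from all members of `P`. -/
private theorem card_ext {V : Type*} [Fintype V] [DecidableEq V] (E : Finset (Finset V))
    (hE : ∀ e ∈ E, e.card = 2) (j : ℕ) (P : Finset (Finset V)) (hP : P ∈ matchings E j) :
    E.card ≤ (E.filter (fun e => ∀ p ∈ P, Disjoint e p)).card + 2 * j * Fintype.card V := by
  classical
  rw [mem_matchings] at hP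
  obtain ⟨⟨hPE, hPj⟩, hPd⟩ := hP
  have h1 : E ⊆ (E.filter (fun e => ∀ p ∈ P, Disjoint e p)) ∪
      (P.biUnion id).biUnion (fun x => E.filter (fun e => x ∈ e)) := by
    intro e he
    rw [mem_union]
    by_cases h : ∀ p ∈ P, Disjoint e p
    · left; exact mem_filter.mpr ⟨he, h⟩
    · right
      push Not at h
      obtain ⟨p, hp, hd⟩ := h
      rw [Finset.not_disjoint_iff] at hd
      obtain ⟨x, hx1, hx2⟩ := hd
      rw [mem_biUnion]
      exact ⟨x, mem_biUnion.mpr ⟨p, hp, hx2⟩, mem_filter.mpr ⟨he, hx1⟩⟩
  have h2 : (P.biUnion id).card ≤ 2 * j := by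
    calc (P.biUnion id).card ≤ ∑ p ∈ P, (id p).card := card_biUnion_le
      _ = ∑ p ∈ P, 2 := sum_congr rfl (fun p hp => hE p (hPE hp))
      _ = 2 * j := by rw [sum_const, hPj, smul_eq_mul, mul_comm]
  have h3 : ((P.biUnion id).biUnion (fun x => E.filter (fun e => x ∈ e))).card
      ≤ 2 * j * Fintype.card V := by
    calc ((P.biUnion id).biUnion (fun x => E.filter (fun e => x ∈ e))).card
        ≤ ∑ x ∈ P.biUnion id, (E.filter (fun e => x ∈ e)).card := card_biUnion_le
      _ ≤ ∑ _x ∈ P.biUnion id, Fintype.card V := sum_le_sum (fun x _ => card_star_le E hE x)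
      _ = (P.biUnion id).card * Fintype.card V := by rw [sum_const, smul_eq_mul]
      _ ≤ 2 * j * Fintype.card V := Nat.mul_le_mul_right _ h2
  calc E.card ≤ _ := card_le_card h1
    _ ≤ _ := card_union_le _ _
    _ ≤ _ := Nat.add_le_add_left h3 _

/-- Many edges give many matchings: `#M_{j+1} ≥ m * #M_j` for `j < k`, since a `j`-matching extends
by at least `|E| - 2 j n ≥ k m ≥ (j+1) m` edges, and a `(j+1)`-matching contains `j+1`
`j`-matchings. -/
theorem card_matchings {V : Type*} [Fintype V] [DecidableEq V] (E : Finset (Finset V))
    (hE : ∀ e ∈ E, e.card = 2) (k m : ℕ)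
    (h : 2 * k * Fintype.card V + k * m ≤ E.card) : m ^ k ≤ (matchings E k).card := by
  classical
  have key : ∀ j ≤ k, m ^ j ≤ (matchings E j).card := by
    intro j
    induction j with
    | zero =>
      intro _
      have : (∅ : Finset (Finset V)) ∈ matchings E 0 := by
        rw [mem_matchings]
        exact ⟨⟨empty_subset _, card_empty⟩, fun p hp => absurd hp (notMem_empty p)⟩
      simpa using Finset.card_pos.mpr ⟨_, this⟩
    | succ j ih =>
      intro hj
      have ih' := ih (by omega)
      have hdc : (matchings E j).card * ((j + 1) * m) ≤ (matchings E (j + 1)).card * (j + 1) := by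
        refine Finset.card_mul_le_card_mul (fun P Q => P ⊆ Q) ?_ ?_
        · intro P hP
          have hext := card_ext E hE j P hP
          have hP' := hP
          rw [mem_matchings] at hP'
          obtain ⟨⟨hPE, hPj⟩, hPd⟩ := hP'
          have hnot : ∀ e ∈ E.filter (fun e => ∀ p ∈ P, Disjoint e p), e ∉ P := by
            intro e he heP
            rw [mem_filter] at he
            have hd := he.2 e heP
            rw [disjoint_self_iff_empty] at hd
            have := hE e he.1
            rw [hd, card_empty] at this
            omega
          have hsub : (E.filter (fun e => ∀ p ∈ P, Disjoint e p)).image (fun e => insert e P) ⊆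
              (matchings E (j + 1)).bipartiteAbove (fun P Q => P ⊆ Q) P := by
            intro Q hQ
            rw [mem_image] at hQ
            obtain ⟨e, he, rfl⟩ := hQ
            have heP := hnot e he
            rw [mem_filter] at he
            rw [Finset.mem_bipartiteAbove, mem_matchings]
            refine ⟨⟨⟨?_, ?_⟩, ?_⟩, subset_insert _ _⟩
            · exact insert_subset he.1 hPE
            · rw [card_insert_of_notMem heP, hPj]
            · intro p hp q hq hpq
              rw [mem_insert] at hp hq
              rcases hp with rfl | hp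
              · rcases hq with rfl | hq
                · exact absurd rfl hpq
                · exact he.2 q hq
              · rcases hq with rfl | hq
                · exact (he.2 p hp).symm
                · exact hPd p hp q hq hpq
          have hinj : ((E.filter (fun e => ∀ p ∈ P, Disjoint e p)).image
              (fun e => insert e P)).card = (E.filter (fun e => ∀ p ∈ P, Disjoint e p)).card := by
            apply card_image_of_injOn
            intro e he f hf hef
            have hef' : insert e P = insert f P := hef
            have h1 : e ∈ insert f P := by rw [← hef']; exact mem_insert_self _ _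
            rw [mem_insert] at h1
            rcases h1 with h1 | h1
            · exact h1
            · exact absurd h1 (hnot e he)
          have hcard := card_le_card hsub
          rw [hinj] at hcard
          have h4 : (j + 1) * m ≤ k * m := Nat.mul_le_mul_right _ hj
          have h5 : 2 * j * Fintype.card V ≤ 2 * k * Fintype.card V :=
            Nat.mul_le_mul_right _ (by omega)
          omega
        · intro Q hQ
          rw [mem_matchings] at hQ
          have hsub : (matchings E j).bipartiteBelow (fun P Q => P ⊆ Q) Q ⊆ Q.powersetCard j := by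
            intro P hP
            rw [Finset.mem_bipartiteBelow, mem_matchings] at hP
            rw [mem_powersetCard]
            exact ⟨hP.2, hP.1.1.2⟩
          have := card_le_card hsub
          rw [card_powersetCard, hQ.1.2, Nat.choose_succ_self_right] at this
          exact this
      have h6 : m ^ (j + 1) * (j + 1) ≤ (matchings E (j + 1)).card * (j + 1) := by
        calc m ^ (j + 1) * (j + 1) = m ^ j * ((j + 1) * m) := by ring
          _ ≤ (matchings E j).card * ((j + 1) * m) := Nat.mul_le_mul_right _ ih'
          _ ≤ _ := hdc
      exact Nat.le_of_mul_le_mul_right h6 (Nat.succ_pos j)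
  exact key k le_rfl

/-- Double counting. -/
theorem double_count {α β γ : Type*} [DecidableEq α] [DecidableEq β] [DecidableEq γ]
    (C : Finset α) (Pf : α → Finset β) (φ : α → β → γ) (T : Finset γ) (F R : ℕ)
    (hF : ∀ a ∈ C, F ≤ (Pf a).card) (hT : ∀ a ∈ C, ∀ b ∈ Pf a, φ a b ∈ T)
    (hR : ∀ t ∈ T, ((C.sigma Pf).filter (fun x => φ x.1 x.2 = t)).card ≤ R) :
    C.card * F ≤ R * T.card := by
  classical
  have h1 : C.card * F ≤ (C.sigma Pf).card := by
    rw [card_sigma]
    calc C.card * F = ∑ _a ∈ C, F := by rw [sum_const, smul_eq_mul]
      _ ≤ ∑ a ∈ C, (Pf a).card := sum_le_sum hF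
  have h2 : (C.sigma Pf).card ≤ R * T.card := by
    refine Finset.card_le_mul_card_image_of_maps_to (f := fun x => φ x.1 x.2) ?_ R hR
    intro x hx
    rw [mem_sigma] at hx
    exact hT x.1 hx.1 x.2 hx.2
  exact h1.trans h2

end Pool.Agent.Helper2.R4
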