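/-
MP_e8bc6f_co, rank 4, block R4-SL (side lemma).
Statement and proof plan by helper2, Lean proof by helper48.
-/
import Pool.Agent.Helper2.R4.Defs

set_option autoImplicit false

namespace Pool.Agent.Helper2.R4

open Finset

variable {V : Type*} [Fintype V] [DecidableEq V]

section SLaux

open Classical in
/-- The block containing `a` and `p` (empty if there is none). -/
private noncomputable def slBet (a : V) (B : Finset (Finset V)) (p : Finset V) : Finset V :=
  if h : ∃ b ∈ B, insert a p ⊆ b then h.choose else ∅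

open Classical in
/-- The block containing `t` (`t` if there is none). -/
private noncomputable def slH (B1 : Finset (Finset V)) (t : Finset V) : Finset V :=
  if h : ∃ b ∈ B1, t ⊆ b then h.choose else t

omit [Fintype V] in
private theorem sl_uniq {B : Finset (Finset V)} (hB : IsPack B) {b c t : Finset V} (hb : b ∈ B)
    (hc : c ∈ B) (ht : 3 ≤ t.card) (h1 : t ⊆ b) (h2 : t ⊆ c) : b = c := by
  by_contra hne
  have h3 := hB.2 b hb c hc hne
  have h4 : t.card ≤ (b ∩ c).card := card_le_card (subset_inter h1 h2)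
  omega

omit [Fintype V] in
private theorem sl_bet_cases (a : V) (B : Finset (Finset V)) (p : Finset V) :
    slBet a B p = ∅ ∨ (slBet a B p ∈ B ∧ insert a p ⊆ slBet a B p) := by
  unfold slBet
  by_cases h : ∃ b ∈ B, insert a p ⊆ b
  · right
    rw [dif_pos h]
    exact h.choose_spec
  · left
    rw [dif_neg h]

omit [Fintype V] in
private theorem sl_bet_eq {a : V} {B : Finset (Finset V)} {p b : Finset V} (hB : IsPack B)
    (hp : p.card = 2 ∧ a ∉ p) (hb : b ∈ B) (h : insert a p ⊆ b) : slBet a B p = b := by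
  have hex : ∃ b ∈ B, insert a p ⊆ b := ⟨b, hb, h⟩
  unfold slBet
  rw [dif_pos hex]
  have h3 : 3 ≤ (insert a p).card := by
    rw [card_insert_of_notMem hp.2]; omega
  exact sl_uniq hB hex.choose_spec.1 hb h3 hex.choose_spec.2 h

omit [Fintype V] in
private theorem sl_mem_strip {a : V} {P B : Finset (Finset V)} {c : Finset V} :
    c ∈ strip a P B ↔ (c ∈ B ∧ ¬ Hit a P c) ∨
      ∃ b ∈ B, Hit a P b ∧ 5 ≤ b.card ∧ b.erase a = c := by
  unfold strip
  simp only [mem_union, mem_filter, mem_image]
  constructor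
  · rintro (h | ⟨b, ⟨hb, h1, h2⟩, h3⟩)
    · exact Or.inl h
    · exact Or.inr ⟨b, hb, h1, h2, h3⟩
  · rintro (h | ⟨b, hb, h1, h2, h3⟩)
    · exact Or.inl h
    · exact Or.inr ⟨b, ⟨hb, h1, h2⟩, h3⟩

omit [Fintype V] in
private theorem sl_recover {a : V} {P B : Finset (Finset V)} (hB : IsPack B)
    (hP : ∀ p ∈ P, p.card = 2 ∧ a ∉ p) (b : Finset V) :
    b ∈ B ↔ (b ∈ strip a P B ∧ ∀ p ∈ P, (slBet a B p).erase a ≠ b) ∨
      (b ≠ ∅ ∧ ∃ p ∈ P, slBet a B p = b) := by
  constructor
  · intro hb
    by_cases hh : Hit a P b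
    · right
      obtain ⟨ha, p, hp, hpb⟩ := hh
      refine ⟨?_, p, hp, sl_bet_eq hB (hP p hp) hb (insert_subset ha hpb)⟩
      rintro rfl
      simp at ha
    · left
      refine ⟨sl_mem_strip.mpr (Or.inl ⟨hb, hh⟩), ?_⟩
      intro p hp heq
      have hc4 := hB.1 b hb
      rcases sl_bet_cases a B p with h0 | ⟨h1, h2⟩
      · rw [h0] at heq
        rw [← heq] at hc4
        simp at hc4
      · have hab : a ∉ b := by rw [← heq]; simp
        have hne : b ≠ slBet a B p := by
          intro h
          apply hab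
          rw [h]
          exact h2 (mem_insert_self _ _)
        have h3 := hB.2 b hb _ h1 hne
        have h4 : b ∩ slBet a B p = b := by
          apply inter_eq_left.mpr
          rw [← heq]
          exact erase_subset _ _
        rw [h4] at h3
        omega
  · rintro (⟨h1, h2⟩ | ⟨h1, p, hp, h2⟩)
    · rcases sl_mem_strip.mp h1 with h | ⟨d, hd, ⟨had, p, hp, hpd⟩, h5, h6⟩
      · exact h.1
      · exfalso
        apply h2 p hp
        rw [sl_bet_eq hB (hP p hp) hd (insert_subset had hpd)]
        exact h6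
    · rcases sl_bet_cases a B p with h0 | ⟨h3, h4⟩
      · exact absurd (h2.symm.trans h0) h1
      · rw [← h2]; exact h3

omit [Fintype V] in
private theorem sl_value {a : V} {P B : Finset (Finset V)} (hB : IsPack B)
    (hP : ∀ p ∈ P, p.card = 2 ∧ a ∉ p) {p : Finset V} (hp : p ∈ P) {z : V}
    (hβ : slBet a B p ∈ B) (hs : insert a p ⊆ slBet a B p)
    (hz : z ∈ slBet a B p) (hzp : z ∉ insert a p) :
    slBet a B p = insert a (slH (strip a P B) (insert z p)) := by
  set β := slBet a B p with hβdef
  have hp2 := hP p hp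
  have haβ : a ∈ β := hs (mem_insert_self _ _)
  have hpβ : p ⊆ β := fun x hx => hs (mem_insert_of_mem hx)
  have hhit : Hit a P β := ⟨haβ, p, hp, hpβ⟩
  have hza : z ≠ a := fun h => hzp (by rw [h]; exact mem_insert_self _ _)
  have hzp' : z ∉ p := fun h => hzp (mem_insert_of_mem h)
  have ht : (insert z p).card = 3 := by
    rw [card_insert_of_notMem hzp']; omega
  have hat : a ∉ insert z p := by
    rw [mem_insert]
    rintro (h | h)
    · exact hza h.symm
    · exact hp2.2 h
  have htβ : insert z p ⊆ β := insert_subset hz hpβ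
  have key : ∀ c ∈ strip a P B, insert z p ⊆ c → 5 ≤ β.card ∧ c = β.erase a := by
    intro c hc htc
    rcases sl_mem_strip.mp hc with ⟨h1, h2⟩ | ⟨d, hd, h3, h4, h5⟩
    · exfalso
      have : c = β := sl_uniq hB h1 hβ (by omega) htc htβ
      rw [this] at h2
      exact h2 hhit
    · have htd : insert z p ⊆ d := by
        rw [← h5] at htc
        exact htc.trans (erase_subset _ _)
      have : d = β := sl_uniq hB hd hβ (by omega) htd htβ
      rw [this] at h4 h5
      exact ⟨h4, h5.symm⟩
  by_cases h5 : 5 ≤ β.card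
  · have hmem : β.erase a ∈ strip a P B := sl_mem_strip.mpr (Or.inr ⟨β, hβ, hhit, h5, rfl⟩)
    have hsub : insert z p ⊆ β.erase a := by
      intro x hx
      rw [mem_erase]
      refine ⟨?_, htβ hx⟩
      rintro rfl
      exact hat hx
    have hex : ∃ b ∈ strip a P B, insert z p ⊆ b := ⟨_, hmem, hsub⟩
    unfold slH
    rw [dif_pos hex]
    have := (key _ hex.choose_spec.1 hex.choose_spec.2).2
    rw [this, insert_erase haβ]
  · have hex : ¬ ∃ b ∈ strip a P B, insert z p ⊆ b := by
      rintro ⟨c, hc, htc⟩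
      exact h5 (key c hc htc).1
    unfold slH
    rw [dif_neg hex]
    symm
    apply eq_of_subset_of_card_le (insert_subset haβ htβ)
    rw [card_insert_of_notMem hat, ht]
    omega

omit [Fintype V] in
private theorem sl_notcov {a : V} {P B : Finset (Finset V)} (hB : IsPack B)
    (hP : ∀ p ∈ P, p.card = 2 ∧ a ∉ p) {p : Finset V} (hp : p ∈ P) {z x : V}
    (hβ : slBet a B p ∈ B) (hs : insert a p ⊆ slBet a B p)
    (hz : z ∈ slBet a B p) (hzp : z ∉ insert a p) (hx : x ∈ p) :
    ¬ Cov (strip a P B) {a, x, z} := by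
  rintro ⟨c, hc, hsub⟩
  have hp2 := hP p hp
  have hac : a ∈ c := hsub (by simp)
  rcases sl_mem_strip.mp hc with ⟨h1, h2⟩ | ⟨d, hd, h3, h4, h5⟩
  · have hax : a ≠ x := by rintro rfl; exact hp2.2 hx
    have haz : a ≠ z := by rintro rfl; exact hzp (mem_insert_self _ _)
    have hxz : x ≠ z := by rintro rfl; exact hzp (mem_insert_of_mem hx)
    have h3 : ({a, x, z} : Finset V).card = 3 := by
      rw [card_eq_three]
      exact ⟨a, x, z, hax, haz, hxz, rfl⟩
    have hsub2 : ({a, x, z} : Finset V) ⊆ slBet a B p := by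
      intro w hw
      simp only [mem_insert, mem_singleton] at hw
      rcases hw with rfl | rfl | rfl
      · exact hs (mem_insert_self _ _)
      · exact hs (mem_insert_of_mem hx)
      · exact hz
    have : c = slBet a B p := sl_uniq hB h1 hβ (by omega) hsub hsub2
    apply h2
    rw [this]
    exact ⟨hs (mem_insert_self _ _), p, hp, fun w hw => hs (mem_insert_of_mem hw)⟩
  · rw [← h5] at hac
    simp at hac

/-- The points which are determined by two hit blocks. -/
private noncomputable def slW (a : V) (P B0 : Finset (Finset V)) : Finset V :=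
  (P ×ˢ P).biUnion (fun q => if slBet a B0 q.1 = slBet a B0 q.2 then ∅
    else (slBet a B0 q.1 ∩ slBet a B0 q.2).erase a)

omit [Fintype V] in
private theorem sl_W_card {a : V} {P B0 : Finset (Finset V)} (hB : IsPack B0) :
    (slW a P B0).card ≤ P.card ^ 2 := by
  have h : ∀ q ∈ P ×ˢ P, (if slBet a B0 q.1 = slBet a B0 q.2 then ∅
    else (slBet a B0 q.1 ∩ slBet a B0 q.2).erase a).card ≤ 1 := by
    intro q hq
    split_ifs with heq
    · simp
    · rcases sl_bet_cases a B0 q.1 with h0 | ⟨h1, h2⟩
      · rw [h0]; simp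
      · rcases sl_bet_cases a B0 q.2 with h0 | ⟨h3, h4⟩
        · rw [h0]; simp
        · have h5 := hB.2 _ h1 _ h3 heq
          have h6 : a ∈ slBet a B0 q.1 ∩ slBet a B0 q.2 :=
            mem_inter.mpr ⟨h2 (mem_insert_self _ _), h4 (mem_insert_self _ _)⟩
          rw [card_erase_of_mem h6]
          omega
  have := card_biUnion_le_card_mul _ _ _ h
  rw [card_product] at this
  unfold slW
  calc _ ≤ P.card * P.card * 1 := this
    _ = P.card ^ 2 := by ring

private theorem sl_values {a : V} {P B B0 : Finset (Finset V)} (hB : IsPack B) (hB0 : IsPack B0)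
    (hP : ∀ p ∈ P, p.card = 2 ∧ a ∉ p) (hst : strip a P B = strip a P B0)
    {p : Finset V} (hp : p ∈ P) :
    slBet a B p ∈ ({∅, slBet a B0 p} : Finset (Finset V)) ∪
      (bad a B0 p ∪ slW a P B0).image (fun z => insert a (slH (strip a P B0) (insert z p))) := by
  rw [mem_union]
  rcases sl_bet_cases a B p with h0 | ⟨hβ, hs⟩
  · left; rw [h0]; simp
  have hp2 := hP p hp
  have hcard : (insert a p).card < (slBet a B p).card := by
    rw [card_insert_of_notMem hp2.2]
    have := hB.1 _ hβ
    omega
  obtain ⟨z, hz, hzp⟩ := exists_mem_notMem_of_card_lt_card hcard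
  have hval := sl_value hB hP hp hβ hs hz hzp
  rw [hst] at hval
  by_cases hbad : z ∈ bad a B0 p
  · right
    rw [mem_image]
    exact ⟨z, mem_union_left _ hbad, hval.symm⟩
  have hcov : ∀ x ∈ p, Cov B0 {a, x, z} := by
    intro x hx
    by_contra hc
    apply hbad
    unfold bad
    rw [mem_filter]
    exact ⟨mem_univ _, x, hx, hc⟩
  have hza : z ≠ a := by rintro rfl; exact hzp (mem_insert_self _ _)
  have hhit : ∀ x ∈ p, ∃ b ∈ B0, ({a, x, z} : Finset V) ⊆ b ∧ ∃ q ∈ P, slBet a B0 q = b := by
    intro x hx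
    obtain ⟨b, hb, hsub⟩ := hcov x hx
    refine ⟨b, hb, hsub, ?_⟩
    have hh : Hit a P b := by
      by_contra hn
      have := sl_notcov hB hP hp hβ hs hz hzp hx
      rw [hst] at this
      exact this ⟨b, sl_mem_strip.mpr (Or.inl ⟨hb, hn⟩), hsub⟩
    obtain ⟨hab, q, hq, hqb⟩ := hh
    exact ⟨q, hq, sl_bet_eq hB0 (hP q hq) hb (insert_subset hab hqb)⟩
  obtain ⟨x, y, hxy, hpxy⟩ := card_eq_two.mp hp2.1
  obtain ⟨b, hb, hbs, q, hq, hqb⟩ := hhit x (by rw [hpxy]; simp)
  obtain ⟨b', hb', hbs', q', hq', hqb'⟩ := hhit y (by rw [hpxy]; simp)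
  by_cases hbb : b = b'
  · left
    have hins : insert a p ⊆ b := by
      rw [hpxy]
      intro w hw
      simp only [mem_insert, mem_singleton] at hw
      rcases hw with rfl | rfl | rfl
      · exact hbs (by simp)
      · exact hbs (by simp)
      · rw [hbb]; exact hbs' (by simp)
    have hb0 : slBet a B0 p = b := sl_bet_eq hB0 hp2 hb hins
    have hval0 := sl_value hB0 hP hp (z := z) (by rw [hb0]; exact hb) (by rw [hb0]; exact hins)
      (by rw [hb0]; exact hbs (by simp)) hzp
    rw [hval, ← hval0]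
    simp
  · right
    rw [mem_image]
    refine ⟨z, mem_union_right _ ?_, hval.symm⟩
    unfold slW
    rw [mem_biUnion]
    refine ⟨(q, q'), mem_product.mpr ⟨hq, hq'⟩, ?_⟩
    have hne : ¬ slBet a B0 (q, q').1 = slBet a B0 (q, q').2 := by
      simp only
      rw [hqb, hqb']
      exact hbb
    rw [if_neg hne]
    simp only
    rw [hqb, hqb', mem_erase, mem_inter]
    exact ⟨hza, hbs (by simp), hbs' (by simp)⟩

end SLaux

/-- Number of preimages under `strip`.

Proof.  Let `𝒟` be nonempty, `B0 ∈ 𝒟`.  For `B ∈ 𝒟`, `p ∈ P` let `β_B(p)` be the block of `B`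
containing `insert a p` (unique, as blocks share at most 2 points), `∅` if there is none.  `B` is
determined by `B1 = strip a P B` and `β_B` on `P`: `B = (B1 \ {β(p).erase a}) ∪ {β(p) ≠ ∅}`.
For each `p` there are at most `D + |P|^2 + 2` values: `∅`, `β_{B0}(p)`, and for other values `β`
pick `z ∈ β \ insert a p`; then `β = insert a H(insert z p)`, `H(t)` = the block of `B1` containing
`t`, or `t` itself if there is none.  Now `{a,x,z}`, `{a,y,z}` (`p = {x,y}`) are not covered by `B1`.
If one of them is not covered by `B0`, then `z` is one of the `D` points of the hypothesis;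
otherwise they are covered by hit blocks `b, b'` of `B0`.  If `b = b'` then `b = β_{B0}(p) ∋ z` and
`β = insert a H(insert z p) = β_{B0}(p)`, excluded.  If `b ≠ b'` then `z` is the only point of
`(b ∩ b').erase a`, and there are at most `|P|` hit blocks in `B0` (each is `β_{B0}(q)` for some
`q ∈ P`), so at most `|P|^2` such `z`. -/
theorem side_lemma (a : V) (P : Finset (Finset V)) (hP : ∀ p ∈ P, p.card = 2 ∧ a ∉ p)
    (B1 : Finset (Finset V)) (D : ℕ) (𝒟 : Finset (Finset (Finset V)))
    (h𝒟 : ∀ B ∈ 𝒟, IsPack B ∧ strip a P B = B1 ∧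
      ∀ p ∈ P, (bad a B p).card ≤ D) :
    𝒟.card ≤ (D + P.card ^ 2 + 2) ^ P.card := by
  classical
  rcases 𝒟.eq_empty_or_nonempty with h0 | ⟨B0, hB0⟩
  · rw [h0]; simp
  obtain ⟨hpk0, hst0, hbad0⟩ := h𝒟 B0 hB0
  set F : ∀ p ∈ P, Finset (Finset V) := fun p _ => ({∅, slBet a B0 p} : Finset (Finset V)) ∪
      (bad a B0 p ∪ slW a P B0).image (fun z => insert a (slH (strip a P B0) (insert z p))) with hF
  have hcardF : ∀ p (hp : p ∈ P), (F p hp).card ≤ D + P.card ^ 2 + 2 := by
    intro p hp
    have h1 : (({∅, slBet a B0 p} : Finset (Finset V))).card ≤ 2 := card_le_two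
    have h2 : ((bad a B0 p ∪ slW a P B0).image
        (fun z => insert a (slH (strip a P B0) (insert z p)))).card ≤ D + P.card ^ 2 := by
      refine card_image_le.trans ((card_union_le _ _).trans ?_)
      exact Nat.add_le_add (hbad0 p hp) (sl_W_card hpk0)
    refine (card_union_le _ _).trans ?_
    omega
  have hle : 𝒟.card ≤ (Finset.pi P (fun p => ({∅, slBet a B0 p} : Finset (Finset V)) ∪
      (bad a B0 p ∪ slW a P B0).image
        (fun z => insert a (slH (strip a P B0) (insert z p))))).card := by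
    apply card_le_card_of_injOn (fun B => fun p _ => slBet a B p)
    · intro B hB
      have hB' := h𝒟 B hB
      rw [mem_coe, Finset.mem_pi]
      intro p hp
      exact sl_values hB'.1 hpk0 hP (hB'.2.1.trans hst0.symm) hp
    · intro B hB B' hB' heq
      have h1 := h𝒟 B hB
      have h2 := h𝒟 B' hB'
      have hst : strip a P B = strip a P B' := h1.2.1.trans h2.2.1.symm
      have hbet : ∀ p ∈ P, slBet a B p = slBet a B' p := fun p hp =>
        congrFun (congrFun heq p) hp
      ext b
      rw [sl_recover h1.1 hP b, sl_recover h2.1 hP b, hst]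
      constructor
      · rintro (⟨h3, h4⟩ | ⟨h3, p, hp, h4⟩)
        · exact Or.inl ⟨h3, fun p hp => by rw [← hbet p hp]; exact h4 p hp⟩
        · exact Or.inr ⟨h3, p, hp, by rw [← hbet p hp]; exact h4⟩
      · rintro (⟨h3, h4⟩ | ⟨h3, p, hp, h4⟩)
        · exact Or.inl ⟨h3, fun p hp => by rw [hbet p hp]; exact h4 p hp⟩
        · exact Or.inr ⟨h3, p, hp, by rw [hbet p hp]; exact h4⟩
  refine hle.trans ?_
  rw [card_pi]
  exact prod_le_pow_card _ _ _ (fun p hp => hcardF p hp)

end Pool.Agent.Helper2.R4
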