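/-
MP_e8bc6f_co, rank 4, block R4-VAL (the switching is well defined and remembers P).
-/
import Pool.Agent.Helper2.R4.Defs

set_option autoImplicit false

namespace Pool.Agent.Helper2.R4

open Finset

variable {V : Type*} [Fintype V] [DecidableEq V]

private theorem mem_Fam_iff (S : Finset (Finset V)) (B : Finset (Finset V)) :
    B ∈ Fam S ↔ IsPack B ∧ Avoids S B := by
  unfold Fam
  simp

private theorem mem_strip_iff (a : V) (P B : Finset (Finset V)) (b : Finset V) :
    b ∈ strip a P B ↔ (b ∈ B ∧ ¬ Hit a P b) ∨
      ∃ b0 ∈ B, Hit a P b0 ∧ 5 ≤ b0.card ∧ b0.erase a = b := by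
  unfold strip
  simp only [mem_union, mem_filter, mem_image]
  constructor
  · rintro (h | ⟨b0, ⟨h1, h2, h3⟩, h4⟩)
    · exact Or.inl h
    · exact Or.inr ⟨b0, h1, h2, h3, h4⟩
  · rintro (h | ⟨b0, h1, h2, h3, h4⟩)
    · exact Or.inl h
    · exact Or.inr ⟨b0, ⟨h1, h2, h3⟩, h4⟩

private theorem strip_parent (a : V) (P B : Finset (Finset V)) {b : Finset V}
    (h : b ∈ strip a P B) : ∃ b0 ∈ B, b ⊆ b0 := by
  rcases (mem_strip_iff a P B b).1 h with h | ⟨b0, h1, _, _, rfl⟩
  · exact ⟨b, h.1, Subset.rfl⟩
  · exact ⟨b0, h1, erase_subset _ _⟩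

/-- A block of the stripped family containing `a` contains no member of `P`. -/
private theorem strip_not_hit (a : V) (P B : Finset (Finset V)) {b : Finset V}
    (h : b ∈ strip a P B) : ¬ Hit a P b := by
  rcases (mem_strip_iff a P B b).1 h with h | ⟨b0, h1, _, _, rfl⟩
  · exact h.2
  · rintro ⟨h3, _⟩
    exact notMem_erase _ _ h3

/-- The stripped family is again in `Fam S` (blocks only lose points or disappear). -/
theorem strip_mem (S : Finset (Finset V)) (a : V) (P : Finset (Finset V))
    {B : Finset (Finset V)} (hB : B ∈ Fam S) : strip a P B ∈ Fam S := by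
  rw [mem_Fam_iff] at hB ⊢
  obtain ⟨⟨h4, h2⟩, hav⟩ := hB
  refine ⟨⟨?_, ?_⟩, ?_⟩
  · intro b hb
    rcases (mem_strip_iff a P B b).1 hb with h | ⟨b0, h1, hh, h5, rfl⟩
    · exact h4 b h.1
    · rw [card_erase_of_mem hh.1]
      omega
  · intro b hb c hc hne
    rcases (mem_strip_iff a P B b).1 hb with hb | ⟨b0, hb1, hbh, hb5, rfl⟩
    · rcases (mem_strip_iff a P B c).1 hc with hc | ⟨c0, hc1, hch, hc5, rfl⟩
      · exact h2 b hb.1 c hc.1 hne
      · have hne' : b ≠ c0 := by
          rintro rfl
          exact hb.2 hch
        refine le_trans (card_le_card ?_) (h2 b hb.1 c0 hc1 hne')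
        exact inter_subset_inter Subset.rfl (erase_subset _ _)
    · rcases (mem_strip_iff a P B c).1 hc with hc | ⟨c0, hc1, hch, hc5, rfl⟩
      · have hne' : b0 ≠ c := by
          rintro rfl
          exact hc.2 hbh
        refine le_trans (card_le_card ?_) (h2 b0 hb1 c hc.1 hne')
        exact inter_subset_inter (erase_subset _ _) Subset.rfl
      · have hne' : b0 ≠ c0 := by
          rintro rfl
          exact hne rfl
        refine le_trans (card_le_card ?_) (h2 b0 hb1 c0 hc1 hne')
        exact inter_subset_inter (erase_subset _ _) (erase_subset _ _)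
  · intro e he b hb hsub
    obtain ⟨b0, h1, hs⟩ := strip_parent a P B hb
    exact hav e he b0 h1 (hsub.trans hs)

/-- Stripping at `a` does not change coverage of triples containing `c`, if no block contains both
`a` and `c`. -/
theorem cov_strip (S : Finset (Finset V)) (a c : V) (P : Finset (Finset V))
    {B : Finset (Finset V)} (hB : B ∈ Fam (insert ({a, c} : Finset V) S)) (t : Finset V)
    (hc : c ∈ t) : Cov (strip a P B) t ↔ Cov B t := by
  rw [mem_Fam_iff] at hB
  constructor
  · rintro ⟨b, hb, hs⟩
    obtain ⟨b0, h1, h2⟩ := strip_parent a P B hb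
    exact ⟨b0, h1, hs.trans h2⟩
  · rintro ⟨b, hb, hs⟩
    refine ⟨b, (mem_strip_iff a P B b).2 (Or.inl ⟨hb, ?_⟩), hs⟩
    rintro ⟨ha, _⟩
    refine hB.2 {a, c} (mem_insert_self _ _) b hb ?_
    intro x hx
    rw [mem_insert, mem_singleton] at hx
    rcases hx with rfl | rfl
    · exact ha
    · exact hs hc

/-- If no pair of `P` is covered together with `a`, stripping at `a` does nothing. -/
theorem strip_eq_self (a : V) (P : Finset (Finset V)) (B : Finset (Finset V))
    (h : ∀ p ∈ P, ¬ Cov B (insert a p)) : strip a P B = B := by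
  have hh : ∀ b ∈ B, ¬ Hit a P b := by
    rintro b hb ⟨ha, p, hp, hs⟩
    exact h p hp ⟨b, hb, insert_subset ha hs⟩
  ext b
  rw [mem_strip_iff]
  constructor
  · rintro (h1 | ⟨b0, h1, h2, _, _⟩)
    · exact h1.1
    · exact absurd h2 (hh b0 h1)
  · intro hb
    exact Or.inl ⟨hb, hh b hb⟩

private theorem mem_alw_iff (S : Finset (Finset V)) (a c : V) (p : Finset V) :
    p ∈ alw S a c ↔ (p.card = 2 ∧ a ∉ p ∧ c ∉ p ∧ p ∉ S ∧
      ∀ x ∈ p, ({a, x} : Finset V) ∉ S ∧ ({c, x} : Finset V) ∉ S) := by
  unfold alw
  simp

/-- Blocks of the twice stripped family do not contain both `a` and `c`. -/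
private theorem old_block (S : Finset (Finset V)) (a c : V)
    {B : Finset (Finset V)} (hB : B ∈ Fam (insert ({a, c} : Finset V) S))
    (P : Finset (Finset V)) {b : Finset V} (hb : b ∈ strip c P (strip a P B)) :
    ¬ (a ∈ b ∧ c ∈ b) := by
  rintro ⟨ha, hc⟩
  have h1 := strip_mem (insert ({a, c} : Finset V) S) c P (strip_mem _ a P hB)
  rw [mem_Fam_iff] at h1
  refine h1.2 {a, c} (mem_insert_self _ _) b hb ?_
  intro x hx
  rw [mem_insert, mem_singleton] at hx
  rcases hx with rfl | rfl
  · exact ha
  · exact hc

/-- An old block meets a new block in at most two points. -/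
private theorem old_new (S : Finset (Finset V)) (a c : V)
    {B : Finset (Finset V)} (hB : B ∈ Fam (insert ({a, c} : Finset V) S))
    (P : Finset (Finset V)) (hP : P ⊆ alw S a c) {b : Finset V}
    (hb : b ∈ strip c P (strip a P B)) {p : Finset V} (hp : p ∈ P) :
    (b ∩ insert a (insert c p)).card ≤ 2 := by
  have hpa := (mem_alw_iff S a c p).1 (hP hp)
  obtain ⟨hp2, hap, hcp, _, _⟩ := hpa
  have hnc : ¬ Hit c P b := strip_not_hit c P _ hb
  obtain ⟨b1, hb1, hbb⟩ := strip_parent c P _ hb
  have hna1 : ¬ Hit a P b1 := strip_not_hit a P _ hb1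
  have hna : ¬ Hit a P b := by
    rintro ⟨h1, q, hq, h2⟩
    exact hna1 ⟨hbb h1, q, hq, h2.trans hbb⟩
  have hnac := old_block S a c hB P hb
  by_cases ha : a ∈ b
  · have hc : c ∉ b := fun h => hnac ⟨ha, h⟩
    have hpb : ¬ p ⊆ b := fun h => hna ⟨ha, p, hp, h⟩
    obtain ⟨x, hxp, hxb⟩ := not_subset.1 hpb
    have hsub : b ∩ insert a (insert c p) ⊆ insert a (p.erase x) := by
      intro y hy
      rw [mem_inter, mem_insert, mem_insert] at hy
      obtain ⟨hyb, hy⟩ := hy
      rw [mem_insert, mem_erase]
      rcases hy with rfl | rfl | hy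
      · exact Or.inl rfl
      · exact absurd hyb hc
      · refine Or.inr ⟨?_, hy⟩
        rintro rfl
        exact hxb hyb
    refine (card_le_card hsub).trans ((card_insert_le _ _).trans ?_)
    rw [card_erase_of_mem hxp]
    omega
  · by_cases hc : c ∈ b
    · have hpb : ¬ p ⊆ b := fun h => hnc ⟨hc, p, hp, h⟩
      obtain ⟨x, hxp, hxb⟩ := not_subset.1 hpb
      have hsub : b ∩ insert a (insert c p) ⊆ insert c (p.erase x) := by
        intro y hy
        rw [mem_inter, mem_insert, mem_insert] at hy
        obtain ⟨hyb, hy⟩ := hy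
        rw [mem_insert, mem_erase]
        rcases hy with rfl | rfl | hy
        · exact absurd hyb ha
        · exact Or.inl rfl
        · refine Or.inr ⟨?_, hy⟩
          rintro rfl
          exact hxb hyb
      refine (card_le_card hsub).trans ((card_insert_le _ _).trans ?_)
      rw [card_erase_of_mem hxp]
      omega
    · have hsub : b ∩ insert a (insert c p) ⊆ p := by
        intro y hy
        rw [mem_inter, mem_insert, mem_insert] at hy
        obtain ⟨hyb, hy⟩ := hy
        rcases hy with rfl | rfl | hy
        · exact absurd hyb ha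
        · exact absurd hyb hc
        · exact hy
      exact (card_le_card hsub).trans hp2.le

/-- The result of the switching avoids `S`. -/
theorem mv_mem (S : Finset (Finset V)) (a c : V) (hac : a ≠ c)
    (he : ({a, c} : Finset V) ∉ S) (hS2 : ∀ e ∈ S, e.card = 2)
    {B : Finset (Finset V)} (hB : B ∈ Fam (insert ({a, c} : Finset V) S))
    {P : Finset (Finset V)} (hP : P ⊆ alw S a c)
    (hd : ∀ p ∈ P, ∀ q ∈ P, p ≠ q → Disjoint p q) : mv a c P B ∈ Fam S := by
  have hold := strip_mem (insert ({a, c} : Finset V) S) c P (strip_mem _ a P hB)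
  rw [mem_Fam_iff] at hold
  obtain ⟨⟨h4, h2⟩, hav⟩ := hold
  rw [mem_Fam_iff]
  refine ⟨⟨?_, ?_⟩, ?_⟩
  · intro b hb
    unfold mv at hb
    rw [mem_union, mem_image] at hb
    rcases hb with hb | ⟨p, hp, rfl⟩
    · exact h4 b hb
    · obtain ⟨hp2, hap, hcp, _, _⟩ := (mem_alw_iff S a c p).1 (hP hp)
      rw [card_insert_of_notMem, card_insert_of_notMem hcp]
      · omega
      · rw [mem_insert]
        rintro (h | h)
        · exact hac h
        · exact hap h
  · intro b hb d hd' hne
    unfold mv at hb hd'
    rw [mem_union, mem_image] at hb hd'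
    rcases hb with hb | ⟨p, hp, rfl⟩
    · rcases hd' with hd' | ⟨q, hq, rfl⟩
      · exact h2 b hb d hd' hne
      · exact old_new S a c hB P hP hb hq
    · rcases hd' with hd' | ⟨q, hq, rfl⟩
      · rw [inter_comm]
        exact old_new S a c hB P hP hd' hp
      · have hpq : p ≠ q := by
          rintro rfl
          exact hne rfl
        have hdis := hd p hp q hq hpq
        have hsub : insert a (insert c p) ∩ insert a (insert c q) ⊆ ({a, c} : Finset V) := by
          intro y hy
          rw [mem_inter, mem_insert, mem_insert, mem_insert, mem_insert] at hy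
          rw [mem_insert, mem_singleton]
          obtain ⟨hy1, hy2⟩ := hy
          rcases hy1 with h | h | h
          · exact Or.inl h
          · exact Or.inr h
          · rcases hy2 with h' | h' | h'
            · exact Or.inl h'
            · exact Or.inr h'
            · exact absurd h' (disjoint_left.1 hdis h)
        exact (card_le_card hsub).trans card_le_two
  · intro e heS b hb hsub
    unfold mv at hb
    rw [mem_union, mem_image] at hb
    rcases hb with hb | ⟨p, hp, rfl⟩
    · exact hav e (mem_insert_of_mem heS) b hb hsub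
    · obtain ⟨hp2, hap, hcp, hpS, hx⟩ := (mem_alw_iff S a c p).1 (hP hp)
      have he2 := hS2 e heS
      obtain ⟨u, v, huv, rfl⟩ := card_eq_two.1 he2
      have hu : u ∈ insert a (insert c p) := hsub (by simp)
      have hv : v ∈ insert a (insert c p) := hsub (by simp)
      rw [mem_insert, mem_insert] at hu hv
      rcases hu with rfl | rfl | hu
      · rcases hv with rfl | rfl | hv
        · exact huv rfl
        · exact he heS
        · exact (hx v hv).1 heS
      · rcases hv with rfl | rfl | hv
        · exact he (by rw [pair_comm]; exact heS)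
        · exact huv rfl
        · exact (hx v hv).2 heS
      · rcases hv with rfl | rfl | hv
        · exact (hx u hu).1 (by rw [pair_comm]; exact heS)
        · exact (hx u hu).2 (by rw [pair_comm]; exact heS)
        · have hsub2 : ({u, v} : Finset V) ⊆ p := by
            intro y hy
            rw [mem_insert, mem_singleton] at hy
            rcases hy with rfl | rfl
            · exact hu
            · exact hv
          have heq : ({u, v} : Finset V) = p := eq_of_subset_of_card_le hsub2 (by
            rw [hp2, he2])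
          exact hpS (heq ▸ heS)

/-- The members of `P` can be read off. -/
private theorem mem_P_iff (S : Finset (Finset V)) (a c : V)
    {B : Finset (Finset V)} (hB : B ∈ Fam (insert ({a, c} : Finset V) S))
    {P : Finset (Finset V)} (hP : P ⊆ alw S a c) (p : Finset V) :
    p ∈ P ↔ a ∉ p ∧ c ∉ p ∧ insert a (insert c p) ∈ mv a c P B := by
  constructor
  · intro hp
    obtain ⟨hp2, hap, hcp, _, _⟩ := (mem_alw_iff S a c p).1 (hP hp)
    refine ⟨hap, hcp, ?_⟩
    unfold mv
    rw [mem_union, mem_image]
    exact Or.inr ⟨p, hp, rfl⟩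
  · rintro ⟨hap, hcp, hm⟩
    unfold mv at hm
    rw [mem_union, mem_image] at hm
    rcases hm with hm | ⟨q, hq, heq⟩
    · exact absurd ⟨by simp, by simp⟩ (old_block S a c hB P hm)
    · obtain ⟨hq2, haq, hcq, _, _⟩ := (mem_alw_iff S a c q).1 (hP hq)
      have hpq : p = q := by
        ext y
        have := congrArg (fun s : Finset V => y ∈ s) heq
        simp only [mem_insert, eq_iff_iff] at this
        constructor
        · intro hy
          rcases this.2 (Or.inr (Or.inr hy)) with h | h | h
          · exact absurd (h ▸ hy) hap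
          · exact absurd (h ▸ hy) hcp
          · exact h
        · intro hy
          rcases this.1 (Or.inr (Or.inr hy)) with h | h | h
          · exact absurd (h ▸ hy) haq
          · exact absurd (h ▸ hy) hcq
          · exact h
      rw [hpq]
      exact hq

/-- The old blocks can be read off. -/
private theorem mem_old_iff (S : Finset (Finset V)) (a c : V)
    {B : Finset (Finset V)} (hB : B ∈ Fam (insert ({a, c} : Finset V) S))
    (P : Finset (Finset V)) (b : Finset V) :
    b ∈ strip c P (strip a P B) ↔ b ∈ mv a c P B ∧ ¬ (a ∈ b ∧ c ∈ b) := by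
  constructor
  · intro hb
    refine ⟨?_, old_block S a c hB P hb⟩
    unfold mv
    rw [mem_union]
    exact Or.inl hb
  · rintro ⟨hb, hn⟩
    unfold mv at hb
    rw [mem_union, mem_image] at hb
    rcases hb with hb | ⟨p, _, rfl⟩
    · exact hb
    · exact absurd ⟨by simp, by simp⟩ hn

/-- The switching remembers `P` (the blocks containing `a` and `c` are the new ones). -/
theorem mv_inj (S : Finset (Finset V)) (a c : V) (hac : a ≠ c)
    {B B' : Finset (Finset V)} (hB : B ∈ Fam (insert ({a, c} : Finset V) S))
    (hB' : B' ∈ Fam (insert ({a, c} : Finset V) S))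
    {P P' : Finset (Finset V)} (hP : P ⊆ alw S a c) (hP' : P' ⊆ alw S a c)
    (h : mv a c P B = mv a c P' B') :
    P = P' ∧ strip c P (strip a P B) = strip c P' (strip a P' B') := by
  constructor
  · ext p
    rw [mem_P_iff S a c hB hP p, mem_P_iff S a c hB' hP' p, h]
  · ext b
    rw [mem_old_iff S a c hB P b, mem_old_iff S a c hB' P' b, h]

end Pool.Agent.Helper2.R4
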