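/-
MP_e8bc6f_co, rank 4, block R4-GAIN (one avoided pair costs 2^(-k), up to the factor 3).
-/
import Pool.Agent.Helper2.R4.SL
import Pool.Agent.Helper2.R4.VAL
import Pool.Agent.Helper2.R4.MC
import Pool.Agent.Helper2.R4.DEG

set_option autoImplicit false

namespace Pool.Agent.Helper2.R4

open Finset

variable {V : Type*} [Fintype V] [DecidableEq V]

private lemma alw_comm (S : Finset (Finset V)) (a c : V) : alw S a c = alw S c a := by
  unfold alw
  ext p
  simp only [mem_filter, mem_univ, true_and]
  constructor
  · rintro ⟨h1, h2, h3, h4, h5⟩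
    exact ⟨h1, h3, h2, h4, fun x hx => ⟨(h5 x hx).2, (h5 x hx).1⟩⟩
  · rintro ⟨h1, h2, h3, h4, h5⟩
    exact ⟨h1, h3, h2, h4, fun x hx => ⟨(h5 x hx).2, (h5 x hx).1⟩⟩

private lemma alw_spec {S : Finset (Finset V)} {a c : V} {p : Finset V} (h : p ∈ alw S a c) :
    p.card = 2 ∧ a ∉ p ∧ c ∉ p := by
  unfold alw at h
  rw [mem_filter] at h
  exact ⟨h.2.1, h.2.2.1, h.2.2.2.1⟩

private lemma mem_matchings {E : Finset (Finset V)} {k : ℕ} {P : Finset (Finset V)}
    (h : P ∈ matchings E k) :
    P ⊆ E ∧ P.card = k ∧ ∀ p ∈ P, ∀ q ∈ P, p ≠ q → Disjoint p q := by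
  unfold matchings at h
  rw [mem_filter, mem_powersetCard] at h
  exact ⟨h.1.1, h.1.2, h.2⟩

private lemma fam_pack {S : Finset (Finset V)} {B : Finset (Finset V)} (h : B ∈ Fam S) :
    IsPack B := by
  classical
  unfold Fam at h
  exact (mem_filter.mp h).2.1

/-- bound for the fibres when the second coordinate is constant -/
private lemma fibre_bound {α β : Type*} [DecidableEq α] (X : Finset ((_ : α) × β)) (R : ℕ)
    (hinj : ∀ x ∈ X, ∀ y ∈ X, x.2 = y.2) (h : ∀ x0 ∈ X, (X.image Sigma.fst).card ≤ R) :
    X.card ≤ R := by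
  rcases X.eq_empty_or_nonempty with h0 | ⟨x0, hx0⟩
  · rw [h0]; simp
  · have h1 : (X.image Sigma.fst).card = X.card := by
      refine Finset.card_image_of_injOn ?_
      intro x hx y hy hxy
      obtain ⟨x1, x2⟩ := x
      obtain ⟨y1, y2⟩ := y
      have e1 : x1 = y1 := hxy
      have e2 : x2 = y2 := hinj _ hx _ hy
      rw [e1, e2]
    rw [← h1]
    exact h x0 hx0

private lemma classA (S : Finset (Finset V)) (hS2 : ∀ e ∈ S, e.card = 2) (k Δ : ℕ) (hk : 1 ≤ k)
    (h1 : k ^ 2 + 2 ≤ Δ) (h3 : 64 * (Δ + 1) ≤ Fintype.card V)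
    (a c : V) (hac : a ≠ c) (he : ({a, c} : Finset V) ∉ S) :
    ((Fam (insert ({a, c} : Finset V) S)).filter
      (fun B => 8 * k * Fintype.card V ≤ (unc S a c B).card)).card * 2 ^ k ≤ (Fam S).card := by
  classical
  set n := Fintype.card V with hn
  have hnpos : 0 < n := by omega
  set C := (Fam (insert ({a, c} : Finset V) S)).filter
      (fun B => 8 * k * n ≤ (unc S a c B).card) with hC
  have hCm : ∀ B ∈ C, B ∈ Fam (insert ({a, c} : Finset V) S) ∧
      8 * k * n ≤ (unc S a c B).card := fun B hB => by
    rw [hC, mem_filter] at hB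
    exact hB
  have hsub : ∀ B, unc S a c B ⊆ alw S a c := fun B => by
    unfold unc; exact filter_subset _ _
  have key := double_count C (fun B => matchings (unc S a c B) k) (fun B P => mv a c P B) (Fam S)
    ((6 * n) ^ k) ((2 * n) ^ k)
    (fun B hB => card_matchings _ (fun e he => (alw_spec (hsub B he)).1) k (6 * n) (by
      have := (hCm B hB).2
      nlinarith))
    (fun B hB P hP => by
      obtain ⟨hP1, hP2, hP3⟩ := mem_matchings hP
      exact mv_mem S a c hac he hS2 (hCm B hB).1 (hP1.trans (hsub B)) hP3)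
    (fun t ht => by
      have hmem : ∀ x ∈ (C.sigma (fun B => matchings (unc S a c B) k)).filter
          (fun x => mv a c x.2 x.1 = t), x.1 ∈ C ∧ x.2 ∈ matchings (unc S a c x.1) k ∧
            mv a c x.2 x.1 = t := by
        intro x hx
        rw [mem_filter, mem_sigma] at hx
        exact ⟨hx.1.1, hx.1.2, hx.2⟩
      refine fibre_bound _ _ ?_ ?_
      · intro x hx y hy
        obtain ⟨hx1, hx2, hx3⟩ := hmem x hx
        obtain ⟨hy1, hy2, hy3⟩ := hmem y hy
        exact (mv_inj S a c hac (hCm _ hx1).1 (hCm _ hy1).1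
          ((mem_matchings hx2).1.trans (hsub _)) ((mem_matchings hy2).1.trans (hsub _))
          (hx3.trans hy3.symm)).1
      · intro x0 hx0
        obtain ⟨h01, h02, h03⟩ := hmem x0 hx0
        have hP0 := mem_matchings h02
        have hb := side_lemma c x0.2
          (fun p hp => by
            have := alw_spec (hsub _ (hP0.1 hp))
            exact ⟨this.1, this.2.2⟩)
          (strip c x0.2 x0.1) n
          (((C.sigma (fun B => matchings (unc S a c B) k)).filter
            (fun x => mv a c x.2 x.1 = t)).image Sigma.fst)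
          (fun B hB => by
            rw [mem_image] at hB
            obtain ⟨x, hx, rfl⟩ := hB
            obtain ⟨hx1, hx2, hx3⟩ := hmem x hx
            have hPx := mem_matchings hx2
            have hi := mv_inj S a c hac (hCm _ hx1).1 (hCm _ h01).1
              (hPx.1.trans (hsub _)) (hP0.1.trans (hsub _)) (hx3.trans h03.symm)
            have e1 : strip a x.2 x.1 = x.1 := strip_eq_self a x.2 x.1 (fun p hp => by
              have := hPx.1 hp
              unfold unc at this
              rw [mem_filter] at this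
              exact this.2)
            have e2 : strip a x0.2 x0.1 = x0.1 := strip_eq_self a x0.2 x0.1 (fun p hp => by
              have := hP0.1 hp
              unfold unc at this
              rw [mem_filter] at this
              exact this.2)
            refine ⟨fam_pack (hCm _ hx1).1, ?_, fun p _ => Finset.card_le_univ _⟩
            have h4 := hi.2
            rw [e1, e2, hi.1] at h4
            exact h4)
        rw [hP0.2.1] at hb
        refine hb.trans (Nat.pow_le_pow_left ?_ k)
        omega)
  have h6 : (6 * n) ^ k = 3 ^ k * (2 * n) ^ k := by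
    rw [← mul_pow]; congr 1; ring
  rw [h6] at key
  have h7 : (2 * n) ^ k * (C.card * 3 ^ k) ≤ (2 * n) ^ k * (Fam S).card := by
    calc (2 * n) ^ k * (C.card * 3 ^ k) = C.card * (3 ^ k * (2 * n) ^ k) := by ring
      _ ≤ _ := key
  have h8 := Nat.le_of_mul_le_mul_left h7 (by positivity)
  refine le_trans (Nat.mul_le_mul_left _ (Nat.pow_le_pow_left (by norm_num) k)) h8

private lemma classL (S : Finset (Finset V)) (hS2 : ∀ e ∈ S, e.card = 2) (k Δ : ℕ) (hk : 1 ≤ k)
    (h1 : k ^ 2 + 2 ≤ Δ) (h2 : 256 * k ≤ Δ) (h3 : 64 * (Δ + 1) ≤ Fintype.card V)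
    (h4 : 2304 * k * Δ ^ 2 ≤ Fintype.card V ^ 2) (hdeg : ∀ x, dg S x ≤ Δ)
    (a c : V) (hac : a ≠ c) (he : ({a, c} : Finset V) ∉ S) :
    ((Fam (insert ({a, c} : Finset V) S)).filter
      (fun B => (unc S a c B).card < 8 * k * Fintype.card V ∧
        (unc S c a B).card < 8 * k * Fintype.card V)).card * 2 ^ k ≤ (Fam S).card := by
  classical
  have hΔ : 0 < Δ := by omega
  set C := (Fam (insert ({a, c} : Finset V) S)).filter
      (fun B => (unc S a c B).card < 8 * k * Fintype.card V ∧
        (unc S c a B).card < 8 * k * Fintype.card V) with hC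
  have hCm : ∀ B ∈ C, B ∈ Fam (insert ({a, c} : Finset V) S) ∧
      (unc S a c B).card < 8 * k * Fintype.card V ∧
        (unc S c a B).card < 8 * k * Fintype.card V := fun B hB => by
    rw [hC, mem_filter] at hB
    exact hB
  have hsub : ∀ B, low S a c Δ B ⊆ alw S a c := fun B => by
    unfold low; exact filter_subset _ _
  have key := double_count C (fun B => matchings (low S a c Δ B) k) (fun B P => mv a c P B) (Fam S)
    ((288 * Δ ^ 2) ^ k) ((144 * Δ ^ 2) ^ k)
    (fun B hB => card_matchings _ (fun e he => (alw_spec (hsub B he)).1) k (288 * Δ ^ 2)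
      (card_low S hS2 k Δ hk hdeg h2 h3 h4 a c hac B (hCm B hB).2.1 (hCm B hB).2.2))
    (fun B hB P hP => by
      obtain ⟨hP1, hP2, hP3⟩ := mem_matchings hP
      exact mv_mem S a c hac he hS2 (hCm B hB).1 (hP1.trans (hsub B)) hP3)
    (fun t ht => by
      have hmem : ∀ x ∈ (C.sigma (fun B => matchings (low S a c Δ B) k)).filter
          (fun x => mv a c x.2 x.1 = t), x.1 ∈ C ∧ x.2 ∈ matchings (low S a c Δ x.1) k ∧
            mv a c x.2 x.1 = t := by
        intro x hx
        rw [mem_filter, mem_sigma] at hx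
        exact ⟨hx.1.1, hx.1.2, hx.2⟩
      refine fibre_bound _ _ ?_ ?_
      · intro x hx y hy
        obtain ⟨hx1, hx2, hx3⟩ := hmem x hx
        obtain ⟨hy1, hy2, hy3⟩ := hmem y hy
        exact (mv_inj S a c hac (hCm _ hx1).1 (hCm _ hy1).1
          ((mem_matchings hx2).1.trans (hsub _)) ((mem_matchings hy2).1.trans (hsub _))
          (hx3.trans hy3.symm)).1
      · intro x0 hx0
        obtain ⟨h01, h02, h03⟩ := hmem x0 hx0
        have hP0 := mem_matchings h02
        set W := ((C.sigma (fun B => matchings (low S a c Δ B) k)).filter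
            (fun x => mv a c x.2 x.1 = t)).image Sigma.fst with hW
        -- properties of the members of W
        have hWm : ∀ B ∈ W, B ∈ Fam (insert ({a, c} : Finset V) S) ∧
            strip c x0.2 (strip a x0.2 B) = strip c x0.2 (strip a x0.2 x0.1) ∧
            ∀ p ∈ x0.2, (bad a B p).card ≤ 10 * Δ ∧ (bad c B p).card ≤ 10 * Δ := by
          intro B hB
          rw [hW, mem_image] at hB
          obtain ⟨x, hx, rfl⟩ := hB
          obtain ⟨hx1, hx2, hx3⟩ := hmem x hx
          have hPx := mem_matchings hx2
          have hi := mv_inj S a c hac (hCm _ hx1).1 (hCm _ h01).1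
            (hPx.1.trans (hsub _)) (hP0.1.trans (hsub _)) (hx3.trans h03.symm)
          refine ⟨(hCm _ hx1).1, ?_, ?_⟩
          · have h5 := hi.2
            rw [hi.1] at h5
            exact h5
          · intro p hp
            rw [← hi.1] at hp
            exact card_unc_le S hS2 Δ (by omega) hdeg a c hac x.1 (hPx.1 hp)
        have hfib : ∀ B1 ∈ W.image (strip a x0.2),
            (W.filter (fun B => strip a x0.2 B = B1)).card ≤ (12 * Δ) ^ k := by
          intro B1 _
          have hb := side_lemma a x0.2
            (fun p hp => by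
              have := alw_spec (hsub _ (hP0.1 hp))
              exact ⟨this.1, this.2.1⟩)
            B1 (10 * Δ) (W.filter (fun B => strip a x0.2 B = B1))
            (fun B hB => by
              rw [mem_filter] at hB
              have := hWm B hB.1
              exact ⟨fam_pack this.1, hB.2, fun p hp => (this.2.2 p hp).1⟩)
          rw [hP0.2.1] at hb
          refine hb.trans (Nat.pow_le_pow_left ?_ k)
          omega
        have himg : (W.image (strip a x0.2)).card ≤ (12 * Δ) ^ k := by
          have hb := side_lemma c x0.2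
            (fun p hp => by
              have := alw_spec (hsub _ (hP0.1 hp))
              exact ⟨this.1, this.2.2⟩)
            (strip c x0.2 (strip a x0.2 x0.1)) (10 * Δ) (W.image (strip a x0.2))
            (fun B1 hB1 => by
              rw [mem_image] at hB1
              obtain ⟨B, hB, rfl⟩ := hB1
              have h5 := hWm B hB
              refine ⟨fam_pack (strip_mem _ a x0.2 h5.1), h5.2.1, fun p hp => ?_⟩
              have e : bad c (strip a x0.2 B) p = bad c B p := by
                unfold bad
                ext z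
                simp only [mem_filter, mem_univ, true_and]
                have e1 : ∀ x, Cov (strip a x0.2 B) {c, x, z} ↔ Cov B {c, x, z} := fun x =>
                  cov_strip S a c x0.2 h5.1 _ (mem_insert_self _ _)
                simp only [e1]
              rw [e]
              exact (h5.2.2 p hp).2)
          rw [hP0.2.1] at hb
          refine hb.trans (Nat.pow_le_pow_left ?_ k)
          omega
        have h9 := Finset.card_le_mul_card_image (f := strip a x0.2) W ((12 * Δ) ^ k) hfib
        refine h9.trans ?_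
        calc (12 * Δ) ^ k * (W.image (strip a x0.2)).card ≤ (12 * Δ) ^ k * (12 * Δ) ^ k :=
              Nat.mul_le_mul_left _ himg
          _ = (144 * Δ ^ 2) ^ k := by rw [← mul_pow]; congr 1; ring)
  have h6 : (288 * Δ ^ 2) ^ k = 2 ^ k * (144 * Δ ^ 2) ^ k := by
    rw [← mul_pow]; congr 1; ring
  rw [h6] at key
  have h7 : (144 * Δ ^ 2) ^ k * (C.card * 2 ^ k) ≤ (144 * Δ ^ 2) ^ k * (Fam S).card := by
    calc (144 * Δ ^ 2) ^ k * (C.card * 2 ^ k) = C.card * (2 ^ k * (144 * Δ ^ 2) ^ k) := by ring
      _ ≤ _ := key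
  exact Nat.le_of_mul_le_mul_left h7 (by positivity)

/-- Gain lemma.  Split `Fam (insert {a,c} S)` into three classes: (A) `8 k n ≤ (unc S a c B).card`,
(A') `8 k n ≤ (unc S c a B).card`, (L) the others.  In class (A) use `double_count` with
`Pf B = matchings (unc S a c B) k` (at least `(6 n)^k` by `card_matchings`, `m = 6 n`), `φ = mv a c`;
the fibres have at most `(n + k^2 + 2)^k ≤ (2 n)^k` elements: `P` is determined by `mv_inj`,
`strip a P B = B` by `strip_eq_self`, then `side_lemma` at `c` with `D = n`.  Class (A') is the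
same with the roles exchanged (`strip c P (strip a P B) = strip a P B` by `cov_strip` and
`strip_eq_self`).  In class (L) use `Pf B = matchings (low S a c Δ B) k`, at least `(288 Δ^2)^k` by
`card_low` and `card_matchings`; the fibres have at most `((10 Δ + k^2 + 2)^k)^2 ≤ (144 Δ^2)^k`
elements: `side_lemma` at `c` for the possible `B1 = strip a P B` (`card_unc_le`, `cov_strip`,
`strip_mem`), and then `side_lemma` at `a` for each `B1`. -/
theorem gain (S : Finset (Finset V)) (hS2 : ∀ e ∈ S, e.card = 2) (k Δ : ℕ) (hk : 1 ≤ k)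
    (h1 : k ^ 2 + 2 ≤ Δ) (h2 : 256 * k ≤ Δ) (h3 : 64 * (Δ + 1) ≤ Fintype.card V)
    (h4 : 2304 * k * Δ ^ 2 ≤ Fintype.card V ^ 2) (hdeg : ∀ x, dg S x ≤ Δ)
    (a c : V) (hac : a ≠ c) (he : ({a, c} : Finset V) ∉ S) :
    (Fam (insert ({a, c} : Finset V) S)).card * 2 ^ k ≤ 3 * (Fam S).card := by
  classical
  have hA := classA S hS2 k Δ hk h1 h3 a c hac he
  have he' : ({c, a} : Finset V) ∉ S := by rwa [Finset.pair_comm]
  have hA' := classA S hS2 k Δ hk h1 h3 c a hac.symm he'
  rw [Finset.pair_comm c a] at hA'
  have hL := classL S hS2 k Δ hk h1 h2 h3 h4 hdeg a c hac he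
  set Fm := Fam (insert ({a, c} : Finset V) S) with hF
  set XA := Fm.filter (fun B => 8 * k * Fintype.card V ≤ (unc S a c B).card) with hXA
  set XA' := Fm.filter (fun B => 8 * k * Fintype.card V ≤ (unc S c a B).card) with hXA'
  set XL := Fm.filter (fun B => (unc S a c B).card < 8 * k * Fintype.card V ∧
        (unc S c a B).card < 8 * k * Fintype.card V) with hXL
  have hsub : Fm ⊆ (XA ∪ XA') ∪ XL := by
    intro B hB
    rw [mem_union, mem_union]
    by_cases hx : 8 * k * Fintype.card V ≤ (unc S a c B).card
    · exact Or.inl (Or.inl (by rw [hXA, mem_filter]; exact ⟨hB, hx⟩))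
    · by_cases hy : 8 * k * Fintype.card V ≤ (unc S c a B).card
      · exact Or.inl (Or.inr (by rw [hXA', mem_filter]; exact ⟨hB, hy⟩))
      · exact Or.inr (by rw [hXL, mem_filter]; exact ⟨hB, by omega, by omega⟩)
  have hcard : Fm.card ≤ XA.card + XA'.card + XL.card :=
    (card_le_card hsub).trans ((card_union_le _ _).trans
      (Nat.add_le_add_right (card_union_le _ _) _))
  calc Fm.card * 2 ^ k ≤ (XA.card + XA'.card + XL.card) * 2 ^ k := Nat.mul_le_mul_right _ hcard
    _ = XA.card * 2 ^ k + XA'.card * 2 ^ k + XL.card * 2 ^ k := by ring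
    _ ≤ (Fam S).card + (Fam S).card + (Fam S).card := by
        exact Nat.add_le_add (Nat.add_le_add hA hA') hL
    _ = 3 * (Fam S).card := by ring

end Pool.Agent.Helper2.R4
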