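/-
MP_e8bc6f_co, rank 4, block R4-ITER (iteration of the gain lemma).
-/
import Pool.Agent.Helper2.R4.GAIN

set_option autoImplicit false

namespace Pool.Agent.Helper2.R4

open Finset

variable {V : Type*} [Fintype V] [DecidableEq V]

/-- Iteration of `gain` (induction on `S`; a subset of `S` has smaller degrees). -/
theorem iter (S : Finset (Finset V)) (hS2 : ∀ e ∈ S, e.card = 2) (k Δ : ℕ) (hk : 1 ≤ k)
    (h1 : k ^ 2 + 2 ≤ Δ) (h2 : 256 * k ≤ Δ) (h3 : 64 * (Δ + 1) ≤ Fintype.card V)
    (h4 : 2304 * k * Δ ^ 2 ≤ Fintype.card V ^ 2) (hdeg : ∀ x, dg S x ≤ Δ) :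
    (Fam S).card * (2 ^ k) ^ S.card ≤ 3 ^ S.card * (Fam (∅ : Finset (Finset V))).card := by
  induction S using Finset.induction_on with
  | empty => simp
  | @insert e S he ih =>
    have hS2' : ∀ f ∈ S, f.card = 2 := fun f hf => hS2 f (mem_insert_of_mem hf)
    have hdeg' : ∀ x, dg S x ≤ Δ := fun x =>
      (card_le_card (filter_subset_filter _ (subset_insert e S))).trans (hdeg x)
    obtain ⟨a, c, hac, rfl⟩ := card_eq_two.mp (hS2 e (mem_insert_self e S))
    have hg := gain S hS2' k Δ hk h1 h2 h3 h4 hdeg' a c hac he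
    have hi := ih hS2' hdeg'
    rw [card_insert_of_notMem he, pow_succ, pow_succ]
    calc (Fam (insert {a, c} S)).card * ((2 ^ k) ^ S.card * 2 ^ k)
        = ((Fam (insert {a, c} S)).card * 2 ^ k) * (2 ^ k) ^ S.card := by ring
      _ ≤ (3 * (Fam S).card) * (2 ^ k) ^ S.card := Nat.mul_le_mul_right _ hg
      _ = 3 * ((Fam S).card * (2 ^ k) ^ S.card) := by ring
      _ ≤ 3 * (3 ^ S.card * (Fam (∅ : Finset (Finset V))).card) := Nat.mul_le_mul_left _ hi
      _ = 3 ^ S.card * 3 * (Fam (∅ : Finset (Finset V))).card := by ring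

/-- Avoiding more pairs is rarer. -/
theorem fam_anti {S T : Finset (Finset V)} (h : S ⊆ T) : Fam T ⊆ Fam S := by
  intro B hB
  simp only [Fam, mem_filter, mem_univ, true_and] at hB ⊢
  exact ⟨hB.1, fun e he b hb => hB.2 e (h he) b hb⟩

/-- Packings on `V` minus a point: they are packings on `V` which avoid every pair containing the
point `y`; apply `iter` to `Δ` of these pairs. -/
theorem fam_star (y : V) (k Δ : ℕ) (hk : 1 ≤ k)
    (h1 : k ^ 2 + 2 ≤ Δ) (h2 : 256 * k ≤ Δ) (h3 : 64 * (Δ + 1) ≤ Fintype.card V)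
    (h4 : 2304 * k * Δ ^ 2 ≤ Fintype.card V ^ 2) :
    (Fam (∅ : Finset (Finset {v : V // v ≠ y}))).card * (2 ^ k) ^ Δ ≤
      3 ^ Δ * (Fam (∅ : Finset (Finset V))).card := by
  classical
  have hcard : Δ ≤ ((univ : Finset V).erase y).card := by
    rw [card_erase_of_mem (mem_univ y), card_univ]; omega
  obtain ⟨X, hX, hXc⟩ := exists_subset_card_eq hcard
  have hXy : ∀ x ∈ X, x ≠ y := fun x hx => ne_of_mem_erase (hX hx)
  have hinj : Set.InjOn (fun x : V => ({y, x} : Finset V)) X := by
    intro x hx z hz hxz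
    have hx1 : x ∈ (fun x : V => ({y, x} : Finset V)) z := by rw [← hxz]; simp
    simp only [mem_insert, mem_singleton] at hx1
    rcases hx1 with h | h
    · exact absurd h (hXy x hx)
    · exact h
  set S : Finset (Finset V) := X.image (fun x => ({y, x} : Finset V)) with hS
  have hSc : S.card = Δ := by rw [hS, card_image_of_injOn hinj, hXc]
  have hS2 : ∀ e ∈ S, e.card = 2 := by
    intro e he
    rw [hS, mem_image] at he
    obtain ⟨x, hx, rfl⟩ := he
    exact card_pair (hXy x hx).symm
  have hdeg : ∀ x, dg S x ≤ Δ := fun x => (card_filter_le _ _).trans hSc.le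
  have hmain := iter S hS2 k Δ hk h1 h2 h3 h4 hdeg
  rw [hSc] at hmain
  refine le_trans (Nat.mul_le_mul_right _ ?_) hmain
  let g : Finset {v : V // v ≠ y} → Finset V := fun b => b.map (Function.Embedding.subtype _)
  have hg : Function.Injective g := map_injective _
  refine card_le_card_of_injOn (fun B => B.image g) ?_ ?_
  · intro B hB
    simp only [Fam, coe_filter, mem_univ, true_and, Set.mem_ofPred_eq] at hB ⊢
    obtain ⟨⟨hB1, hB2⟩, -⟩ := hB
    refine ⟨⟨?_, ?_⟩, ?_⟩
    · intro b hb
      obtain ⟨b', hb', rfl⟩ := mem_image.mp hb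
      simpa [g] using hB1 b' hb'
    · intro b hb c hc hbc
      obtain ⟨b', hb', rfl⟩ := mem_image.mp hb
      obtain ⟨c', hc', rfl⟩ := mem_image.mp hc
      have hne : b' ≠ c' := fun h => hbc (by rw [h])
      have := hB2 b' hb' c' hc' hne
      simp only [g]
      rw [← map_inter, card_map]
      exact this
    · intro e he b hb heb
      obtain ⟨b', hb', rfl⟩ := mem_image.mp hb
      rw [hS, mem_image] at he
      obtain ⟨x, hx, rfl⟩ := he
      have hy : y ∈ g b' := heb (by simp)
      simp only [g, mem_map, Function.Embedding.coe_subtype] at hy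
      obtain ⟨v, -, hv⟩ := hy
      exact v.2 hv
  · intro B _ C _ hBC
    exact image_injective hg hBC

end Pool.Agent.Helper2.R4
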