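/-
MP_e8bc6f_co, rank 4, block R4-SUM (sum over all linear spaces).
-/
import Pool.Agent.Helper2.R4.ITER
import Pool.Agent.Helper2.R4.EX

set_option autoImplicit false

namespace Pool.Agent.Helper2.R4

open Finset

section
variable {V : Type*} [Fintype V] [DecidableEq V]

open Classical in
/-- `∑_{L ≠ ∅} ∏_{l ∈ L} z^|l| ≤ ∏_{|l| ≥ 3} (1 + z^|l|) - 1 ≤ exp ((1+z)^n - 1) - 1 ≤ 4 n z`
(`Finset.prod_one_add`, `1 + t ≤ exp t`, `∑_l z^|l| = (1+z)^n`, `exp s - 1 ≤ 2 s` for `s ≤ 1`). -/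
theorem sum_prod_le (z : ℝ) (hz : 0 ≤ z) (hz1 : 2 * Fintype.card V * z ≤ 1) :
    ∑ L ∈ (univ : Finset (Finset (Finset V))).filter (fun L => IsLin L ∧ L ≠ ∅),
      z ^ (∑ l ∈ L, l.card) ≤ 4 * Fintype.card V * z := by
  set n : ℝ := (Fintype.card V : ℝ) with hn
  have hn0 : 0 ≤ n := by positivity
  have hnz : 0 ≤ n * z := mul_nonneg hn0 hz
  set X : Finset (Finset V) := univ.filter (fun l => 3 ≤ l.card) with hX
  have hterm : ∀ l : Finset V, 0 ≤ z ^ l.card := fun l => pow_nonneg hz _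
  have h1 : ∑ L ∈ (univ : Finset (Finset (Finset V))).filter (fun L => IsLin L ∧ L ≠ ∅),
      z ^ (∑ l ∈ L, l.card) ≤ ∑ L ∈ X.powerset.erase ∅, ∏ l ∈ L, z ^ l.card := by
    have h2 : ∀ L ∈ (univ : Finset (Finset (Finset V))).filter (fun L => IsLin L ∧ L ≠ ∅),
        z ^ (∑ l ∈ L, l.card) = ∏ l ∈ L, z ^ l.card := fun L _ =>
      (Finset.prod_pow_eq_pow_sum L (fun l => l.card) z).symm
    rw [Finset.sum_congr rfl h2]
    refine Finset.sum_le_sum_of_subset_of_nonneg ?_ ?_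
    · intro L hL
      rw [Finset.mem_filter] at hL
      rw [Finset.mem_erase, Finset.mem_powerset]
      refine ⟨hL.2.2, fun l hl => ?_⟩
      rw [hX, Finset.mem_filter]
      exact ⟨Finset.mem_univ _, hL.2.1.1 l hl⟩
    · intro L _ _
      exact Finset.prod_nonneg fun l _ => hterm l
  have h3 : ∑ L ∈ X.powerset.erase ∅, ∏ l ∈ L, z ^ l.card = ∏ l ∈ X, (1 + z ^ l.card) - 1 := by
    rw [Finset.prod_one_add, ← Finset.add_sum_erase X.powerset _ (Finset.empty_mem_powerset X)]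
    simp
  have h4 : ∏ l ∈ X, (1 + z ^ l.card) ≤ Real.exp (∑ l ∈ X, z ^ l.card) := by
    rw [Real.exp_sum]
    refine Finset.prod_le_prod (fun l _ => ?_) (fun l _ => ?_)
    · have := hterm l
      linarith
    · have := Real.add_one_le_exp (z ^ l.card)
      linarith
  have h5 : ∑ l ∈ X, z ^ l.card ≤ (1 + z) ^ (Fintype.card V) - 1 := by
    have h6 : ∑ l : Finset V, z ^ l.card = (1 + z) ^ (Fintype.card V) := by
      have := Fintype.sum_pow_mul_eq_add_pow V z (1 : ℝ)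
      simp only [one_pow, mul_one] at this
      rw [this, add_comm]
    have h7 : ∑ l ∈ X, z ^ l.card ≤ ∑ l ∈ (univ : Finset (Finset V)).erase ∅, z ^ l.card := by
      refine Finset.sum_le_sum_of_subset_of_nonneg ?_ (fun l _ _ => hterm l)
      intro l hl
      rw [hX, Finset.mem_filter] at hl
      rw [Finset.mem_erase]
      refine ⟨?_, Finset.mem_univ _⟩
      rintro rfl
      simp at hl
    have h8 := Finset.add_sum_erase (univ : Finset (Finset V)) (fun l => z ^ l.card)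
      (Finset.mem_univ ∅)
    simp only [Finset.card_empty, pow_zero] at h8
    linarith
  have h9 : (1 + z) ^ (Fintype.card V) ≤ Real.exp (n * z) := by
    have h10 : (1 + z) ^ (Fintype.card V) ≤ (Real.exp z) ^ (Fintype.card V) := by
      refine pow_le_pow_left₀ (by linarith) ?_ _
      have := Real.add_one_le_exp z
      linarith
    rw [← Real.exp_nat_mul] at h10
    exact h10
  have h11 : Real.exp (n * z) - 1 ≤ 2 * (n * z) := by
    have := Real.abs_exp_sub_one_le (x := n * z) (by rw [abs_of_nonneg hnz]; linarith)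
    rw [abs_of_nonneg hnz] at this
    exact (le_abs_self _).trans this
  have h12 : ∑ l ∈ X, z ^ l.card ≤ 2 * (n * z) := by linarith
  have h13 : Real.exp (2 * (n * z)) - 1 ≤ 2 * (2 * (n * z)) := by
    have h0 : 0 ≤ 2 * (n * z) := by linarith
    have := Real.abs_exp_sub_one_le (x := 2 * (n * z)) (by rw [abs_of_nonneg h0]; linarith)
    rw [abs_of_nonneg h0] at this
    exact (le_abs_self _).trans this
  have h14 : Real.exp (∑ l ∈ X, z ^ l.card) ≤ Real.exp (2 * (n * z)) := Real.exp_le_exp.mpr h12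
  calc _ ≤ ∑ L ∈ X.powerset.erase ∅, ∏ l ∈ L, z ^ l.card := h1
    _ = ∏ l ∈ X, (1 + z ^ l.card) - 1 := h3
    _ ≤ 4 * n * z := by linarith
end

section
variable {V : Type*} [Fintype V] [LinearOrder V]

open Classical in
/-- Sum over all nontrivial linear spaces.  With `S0` from `extract`, `Fam (Sp L) ⊆ Fam S0`, so by
`iter` `|Fam (Sp L)| ≤ ρ^|S0| |Fam ∅|`, `ρ = 3 / 2^k ≤ 1`, and `|S0| ≥ (∑ |l|) Δ / (6 n)`; so
`|Fam (Sp L)| ≤ z^(∑ |l|) |Fam ∅|`; then `sum_prod_le`. -/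
theorem sum_fam_le (k Δ : ℕ) (hk : 2 ≤ k)
    (h1 : k ^ 2 + 2 ≤ Δ) (h2 : 256 * k ≤ Δ) (h3 : 64 * (Δ + 1) ≤ Fintype.card V)
    (h4 : 2304 * k * Δ ^ 2 ≤ Fintype.card V ^ 2) (z : ℝ)
    (hz : z = (3 / 2 ^ k : ℝ) ^ ((Δ : ℝ) / (6 * Fintype.card V)))
    (hz1 : 2 * Fintype.card V * z ≤ 1) :
    ∑ L ∈ (univ : Finset (Finset (Finset V))).filter (fun L => IsLin L ∧ L ≠ ∅),
      ((Fam (Sp L)).card : ℝ) ≤ 4 * Fintype.card V * z * (Fam (∅ : Finset (Finset V))).card := by
  have hρ0 : (0 : ℝ) < 3 / 2 ^ k := by positivity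
  have hρ1 : (3 / 2 ^ k : ℝ) ≤ 1 := by
    rw [div_le_one (by positivity)]
    have : (2 : ℝ) ^ 2 ≤ 2 ^ k := pow_le_pow_right₀ (by norm_num) hk
    linarith
  have hz0 : 0 ≤ z := by rw [hz]; positivity
  have hn : (0 : ℝ) < Fintype.card V := by
    have : 0 < Fintype.card V := by omega
    exact_mod_cast this
  have key : ∀ L : Finset (Finset V), IsLin L →
      ((Fam (Sp L)).card : ℝ) ≤ z ^ (∑ l ∈ L, l.card) * (Fam (∅ : Finset (Finset V))).card := by
    intro L hL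
    obtain ⟨S0, hsub, hdeg, hcard⟩ := extract L hL Δ (by omega) (by omega)
    have hS2 : ∀ e ∈ S0, e.card = 2 := by
      intro e he
      have := hsub he
      rw [Sp, Finset.mem_filter] at this
      exact this.2.1
    have hit := iter S0 hS2 k Δ (by omega) h1 h2 h3 h4 hdeg
    have hle : ((Fam (Sp L)).card : ℝ) ≤ (Fam S0).card := by
      exact_mod_cast Finset.card_le_card (fam_anti hsub)
    have hit' : ((Fam S0).card : ℝ) ≤
        (3 / 2 ^ k : ℝ) ^ S0.card * (Fam (∅ : Finset (Finset V))).card := by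
      have h5 : ((Fam S0).card : ℝ) * (2 ^ k) ^ S0.card ≤
          3 ^ S0.card * (Fam (∅ : Finset (Finset V))).card := by exact_mod_cast hit
      rw [div_pow, div_mul_eq_mul_div, le_div_iff₀ (by positivity)]
      exact h5
    have hpow : (3 / 2 ^ k : ℝ) ^ S0.card ≤ z ^ (∑ l ∈ L, l.card) := by
      rw [hz]
      generalize (3 / 2 ^ k : ℝ) = ρ at hρ0 hρ1 ⊢
      rw [← Real.rpow_natCast ρ S0.card, ← Real.rpow_natCast _ (∑ l ∈ L, l.card),
        ← Real.rpow_mul hρ0.le]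
      refine Real.rpow_le_rpow_of_exponent_ge hρ0 hρ1 ?_
      rw [div_mul_eq_mul_div, div_le_iff₀ (by positivity)]
      have h6 : ((∑ l ∈ L, l.card : ℕ) : ℝ) * Δ ≤ 6 * Fintype.card V * S0.card := by
        exact_mod_cast hcard
      linarith
    calc ((Fam (Sp L)).card : ℝ) ≤ (Fam S0).card := hle
      _ ≤ (3 / 2 ^ k : ℝ) ^ S0.card * (Fam (∅ : Finset (Finset V))).card := hit'
      _ ≤ _ := mul_le_mul_of_nonneg_right hpow (Nat.cast_nonneg _)
  calc ∑ L ∈ (univ : Finset (Finset (Finset V))).filter (fun L => IsLin L ∧ L ≠ ∅),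
      ((Fam (Sp L)).card : ℝ)
      ≤ ∑ L ∈ (univ : Finset (Finset (Finset V))).filter (fun L => IsLin L ∧ L ≠ ∅),
        z ^ (∑ l ∈ L, l.card) * (Fam (∅ : Finset (Finset V))).card :=
        Finset.sum_le_sum fun L hL => key L (Finset.mem_filter.mp hL).2.1
    _ = (∑ L ∈ (univ : Finset (Finset (Finset V))).filter (fun L => IsLin L ∧ L ≠ ∅),
        z ^ (∑ l ∈ L, l.card)) * (Fam (∅ : Finset (Finset V))).card := by
        rw [Finset.sum_mul]
    _ ≤ _ := mul_le_mul_of_nonneg_right (sum_prod_le z hz0 hz1) (Nat.cast_nonneg _)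
end

end Pool.Agent.Helper2.R4
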