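/-
MP_e8bc6f_co, rank 4, block R4-LAB (labelled count).
-/
import Pool.Agent.Helper2.R4.SUM
import Pool.Agent.Helper2.R4.ENC2
import Pool.Agent.Helper2.R4.MAT
import Pool.Agent.Helper2.R4.PAV

set_option autoImplicit false

namespace Pool.Agent.Helper2.R4

open Finset

variable {V : Type*} [Fintype V] [LinearOrder V]

/-- Number of simple matroids of rank 4 which are not paving: `M ↦ (lin M, enc (lin M) (pln M))`
is injective (`mat_det`, `enc_inj`), and `lin M ≠ ∅`. -/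
theorem card_nonpav_le (k Δ : ℕ) (hk : 2 ≤ k)
    (h1 : k ^ 2 + 2 ≤ Δ) (h2 : 256 * k ≤ Δ) (h3 : 64 * (Δ + 1) ≤ Fintype.card V)
    (h4 : 2304 * k * Δ ^ 2 ≤ Fintype.card V ^ 2) (z : ℝ)
    (hz : z = (3 / 2 ^ k : ℝ) ^ ((Δ : ℝ) / (6 * Fintype.card V)))
    (hz1 : 2 * Fintype.card V * z ≤ 1) :
    ({M : Matroid V | Good M ∧ ¬ Pav M}.ncard : ℝ) ≤
      4 * Fintype.card V * z * (Fam (∅ : Finset (Finset V))).card := by
  classical
  have hsum := sum_fam_le (V := V) k Δ hk h1 h2 h3 h4 z hz hz1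
  refine le_trans ?_ hsum
  rw [← Nat.cast_sum, ← Finset.card_sigma]
  norm_cast
  rw [← Set.ncard_coe_finset]
  refine Set.ncard_le_ncard_of_injOn
    (fun M => (⟨lin M, enc (lin M) (pln M)⟩ :
      Σ _ : Finset (Finset V), Finset (Finset V))) ?_ ?_ (Finset.finite_toSet _)
  · rintro M ⟨hM, hp⟩
    rw [Finset.mem_coe, Finset.mem_sigma, Finset.mem_filter]
    exact ⟨⟨Finset.mem_univ _, lin_isLin hM, fun h => hp ((lin_eq_empty_iff hM).1 h)⟩,
      enc_mem (lin_isLin hM) (pln_isPlanes hM)⟩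
  · rintro M ⟨hM, -⟩ M' ⟨hM', -⟩ h
    simp only [Sigma.mk.injEq, heq_eq_eq] at h
    obtain ⟨hl, he⟩ := h
    refine mat_det hM hM' hl ?_
    rw [← hl] at he
    refine enc_inj (lin_isLin hM) (pln_isPlanes hM) ?_ he
    rw [hl]
    exact pln_isPlanes hM'

private theorem lab_sp_empty : Sp (∅ : Finset (Finset V)) = ∅ := by
  unfold Sp
  rw [Finset.filter_eq_empty_iff]
  rintro e - ⟨-, l, hl, -⟩
  exact absurd hl (Finset.notMem_empty l)

private theorem lab_card_pav_le :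
    {M : Matroid V | Good M ∧ Pav M}.ncard ≤ (Fam (∅ : Finset (Finset V))).card := by
  classical
  rw [← Set.ncard_coe_finset]
  refine Set.ncard_le_ncard_of_injOn (fun M => enc ∅ (pln M)) ?_ ?_ (Finset.finite_toSet _)
  · rintro M ⟨hM, hp⟩
    have hl := (lin_eq_empty_iff hM).2 hp
    have h := enc_mem (lin_isLin hM) (pln_isPlanes hM)
    rw [hl, lab_sp_empty] at h
    exact Finset.mem_coe.2 h
  · rintro M ⟨hM, hp⟩ M' ⟨hM', hp'⟩ h
    have hl := (lin_eq_empty_iff hM).2 hp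
    have hl' := (lin_eq_empty_iff hM').2 hp'
    refine mat_det hM hM' (hl.trans hl'.symm) ?_
    have h1 := lin_isLin hM
    have h2 := pln_isPlanes hM
    have h3 := pln_isPlanes hM'
    rw [hl] at h1 h2
    rw [hl'] at h3
    exact enc_inj h1 h2 h3 h

/-- All simple matroids of rank 4: those which are paving give different packings
`enc ∅ (pln M)`. -/
theorem card_good_le (k Δ : ℕ) (hk : 2 ≤ k)
    (h1 : k ^ 2 + 2 ≤ Δ) (h2 : 256 * k ≤ Δ) (h3 : 64 * (Δ + 1) ≤ Fintype.card V)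
    (h4 : 2304 * k * Δ ^ 2 ≤ Fintype.card V ^ 2) (z : ℝ)
    (hz : z = (3 / 2 ^ k : ℝ) ^ ((Δ : ℝ) / (6 * Fintype.card V)))
    (hz1 : 2 * Fintype.card V * z ≤ 1) :
    ({M : Matroid V | Good M}.ncard : ℝ) ≤
      3 * (Fam (∅ : Finset (Finset V))).card := by
  have hA := card_nonpav_le (V := V) k Δ hk h1 h2 h3 h4 z hz hz1
  have hB : ({M : Matroid V | Good M ∧ Pav M}.ncard : ℝ) ≤
      (Fam (∅ : Finset (Finset V))).card := by exact_mod_cast lab_card_pav_le
  have hU : {M : Matroid V | Good M} =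
      {M : Matroid V | Good M ∧ ¬ Pav M} ∪ {M : Matroid V | Good M ∧ Pav M} := by
    ext M
    simp only [Set.mem_ofPred_eq, Set.mem_union]
    tauto
  have hC : ({M : Matroid V | Good M}.ncard : ℝ) ≤
      ({M : Matroid V | Good M ∧ ¬ Pav M}.ncard : ℝ) +
        ({M : Matroid V | Good M ∧ Pav M}.ncard : ℝ) := by
    rw [hU]
    exact_mod_cast Set.ncard_union_le _ _
  have hF : (0 : ℝ) ≤ (Fam (∅ : Finset (Finset V))).card := Nat.cast_nonneg _
  have hD : 4 * Fintype.card V * z * (Fam (∅ : Finset (Finset V))).card ≤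
      2 * ((Fam (∅ : Finset (Finset V))).card : ℝ) := by
    apply mul_le_mul_of_nonneg_right _ hF
    linarith
  linarith

end Pool.Agent.Helper2.R4
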