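/-
MP_e8bc6f_co, rank 4, block R4-UNL (isomorphism classes and labelled matroids).
-/
import Pool.Agent.Helper2.R4.PAV

set_option autoImplicit false

namespace Pool.Agent.Helper2.R4

open Finset

/-- The isomorphism class of `M` (as in the frozen statement). -/
def cls {n : ℕ} (M : Matroid (Fin n)) : Set (Matroid (Fin n)) :=
  {N : Matroid (Fin n) | N.E = Set.univ ∧
    ∃ σ : Equiv.Perm (Fin n), ∀ I : Set (Fin n), M.Indep I ↔ N.Indep (σ '' I)}

/-- Number of isomorphism classes of matroids with the property `Q`. -/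
noncomputable def nc (n : ℕ) (Q : Matroid (Fin n) → Prop) : ℕ :=
  {S : Set (Matroid (Fin n)) | ∃ M : Matroid (Fin n), Q M ∧ S = cls M}.ncard

private theorem finite_mat (n : ℕ) : Finite (Matroid (Fin n)) := by
  have hinj : Function.Injective
      (fun M : Matroid (Fin n) => (M.E, {I : Set (Fin n) | M.Indep I})) := by
    intro M N h
    simp only [Prod.mk.injEq] at h
    obtain ⟨hE, hI⟩ := h
    apply Matroid.ext_indep hE
    intro I _
    have := congrArg (fun S : Set (Set (Fin n)) => I ∈ S) hI
    simpa using this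
  exact Finite.of_injective _ hinj

private theorem self_mem_cls {n : ℕ} {M : Matroid (Fin n)} (hE : M.E = Set.univ) : M ∈ cls M :=
  ⟨hE, 1, fun I => by simp⟩

private theorem mapEquiv_mem_cls {n : ℕ} {M : Matroid (Fin n)} (hE : M.E = Set.univ)
    (σ : Equiv.Perm (Fin n)) : M.mapEquiv σ ∈ cls M := by
  refine ⟨by simp [hE], σ, fun I => ?_⟩
  rw [Matroid.mapEquiv_indep_iff]
  simp

private theorem eq_mapEquiv_of_mem_cls {n : ℕ} {M N : Matroid (Fin n)} (hE : M.E = Set.univ)
    (hN : N ∈ cls M) : ∃ σ : Equiv.Perm (Fin n), M.mapEquiv σ = N := by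
  obtain ⟨hNE, σ, hσ⟩ := hN
  refine ⟨σ, Matroid.ext_indep (by simp [hE, hNE]) fun I _ => ?_⟩
  rw [Matroid.mapEquiv_indep_iff, hσ]
  simp

private theorem cls_eq {n : ℕ} {M N : Matroid (Fin n)} (hN : N ∈ cls M) : cls N = cls M := by
  obtain ⟨_, σ, hσ⟩ := hN
  ext P
  constructor
  · rintro ⟨hPE, τ, hτ⟩
    refine ⟨hPE, σ.trans τ, fun I => ?_⟩
    rw [hσ, hτ, ← Set.image_comp]
    rfl
  · rintro ⟨hPE, τ, hτ⟩
    refine ⟨hPE, σ.symm.trans τ, fun I => ?_⟩
    have h1 := hσ (σ.symm '' I)
    have h2 : σ '' (σ.symm '' I) = I := by simp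
    rw [h2] at h1
    rw [← h1, hτ, ← Set.image_comp]
    rfl

/-- Each class has at most `n!` members. -/
theorem ncard_le_nc (n : ℕ) (Q : Matroid (Fin n) → Prop) (hE : ∀ M, Q M → M.E = Set.univ) :
    {M : Matroid (Fin n) | Q M}.ncard ≤ n.factorial * nc n Q := by
  classical
  have := finite_mat n
  let _ : Fintype (Matroid (Fin n)) := Fintype.ofFinite _
  have hA : {M : Matroid (Fin n) | Q M} = ((univ.filter Q : Finset (Matroid (Fin n))) :
      Set (Matroid (Fin n))) := by ext M; simp
  have hB : {S : Set (Matroid (Fin n)) | ∃ M : Matroid (Fin n), Q M ∧ S = cls M} =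
      (((univ.filter Q).image cls : Finset (Set (Matroid (Fin n)))) :
        Set (Set (Matroid (Fin n)))) := by
    ext S
    simp only [Set.mem_ofPred_eq, coe_image, Set.mem_image, coe_filter, mem_univ, true_and]
    constructor
    · rintro ⟨M, h1, h2⟩; exact ⟨M, h1, h2.symm⟩
    · rintro ⟨M, h1, h2⟩; exact ⟨M, h1, h2.symm⟩
  unfold nc
  rw [hA, hB, Set.ncard_coe_finset, Set.ncard_coe_finset]
  refine Finset.card_le_mul_card_image _ _ ?_
  intro S hS
  obtain ⟨M, hM, rfl⟩ := mem_image.1 hS
  have hMQ : Q M := (mem_filter.1 hM).2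
  have hME := hE M hMQ
  calc ((univ.filter Q).filter fun N => cls N = cls M).card
      ≤ ((univ : Finset (Equiv.Perm (Fin n))).image fun σ => M.mapEquiv σ).card := by
        refine card_le_card fun N hN => ?_
        obtain ⟨hN1, hN2⟩ := mem_filter.1 hN
        have hNE := hE N (mem_filter.1 hN1).2
        have hNM : N ∈ cls M := hN2 ▸ self_mem_cls hNE
        obtain ⟨σ, hσ⟩ := eq_mapEquiv_of_mem_cls hME hNM
        exact mem_image.2 ⟨σ, mem_univ _, hσ⟩
    _ ≤ (univ : Finset (Equiv.Perm (Fin n))).card := card_image_le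
    _ = n.factorial := by rw [card_univ, Fintype.card_perm, Fintype.card_fin]

/-- The classes without nontrivial automorphism have exactly `n!` members; the others are at most
as many as the matroids with a nontrivial automorphism. -/
theorem nc_mul_le (n : ℕ) (Q : Matroid (Fin n) → Prop) (hE : ∀ M, Q M → M.E = Set.univ)
    (hQ : ∀ M N, Q M → N ∈ cls M → Q N) :
    n.factorial * nc n Q ≤ {M : Matroid (Fin n) | Q M}.ncard + n.factorial *
      {M : Matroid (Fin n) | Q M ∧ ∃ σ : Equiv.Perm (Fin n), σ ≠ 1 ∧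
        ∀ I : Set (Fin n), M.Indep I ↔ M.Indep (σ '' I)}.ncard := by
  classical
  have := finite_mat n
  let _ : Fintype (Matroid (Fin n)) := Fintype.ofFinite _
  set R : Matroid (Fin n) → Prop := fun M => ∃ σ : Equiv.Perm (Fin n), σ ≠ 1 ∧
        ∀ I : Set (Fin n), M.Indep I ↔ M.Indep (σ '' I) with hR
  set A : Finset (Matroid (Fin n)) := univ.filter Q with hAdef
  set A₁ : Finset (Matroid (Fin n)) := univ.filter (fun M => Q M ∧ R M) with hA1def
  set A₀ : Finset (Matroid (Fin n)) := univ.filter (fun M => Q M ∧ ¬ R M) with hA0def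
  have hA : {M : Matroid (Fin n) | Q M} = (A : Set (Matroid (Fin n))) := by ext M; simp [hAdef]
  have hA1 : {M : Matroid (Fin n) | Q M ∧ ∃ σ : Equiv.Perm (Fin n), σ ≠ 1 ∧
        ∀ I : Set (Fin n), M.Indep I ↔ M.Indep (σ '' I)} = (A₁ : Set (Matroid (Fin n))) := by
    ext M; simp [hA1def, hR]
  have hB : {S : Set (Matroid (Fin n)) | ∃ M : Matroid (Fin n), Q M ∧ S = cls M} =
      ((A₀.image cls ∪ A₁.image cls : Finset (Set (Matroid (Fin n)))) :
        Set (Set (Matroid (Fin n)))) := by
    ext S
    simp only [Set.mem_ofPred_eq, coe_union, coe_image, Set.mem_union, Set.mem_image, mem_coe,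
      hA0def, hA1def, mem_filter, mem_univ, true_and]
    constructor
    · rintro ⟨M, h1, h2⟩
      by_cases h : R M
      · exact Or.inr ⟨M, ⟨h1, h⟩, h2.symm⟩
      · exact Or.inl ⟨M, ⟨h1, h⟩, h2.symm⟩
    · rintro (⟨M, h1, h2⟩ | ⟨M, h1, h2⟩)
      · exact ⟨M, h1.1, h2.symm⟩
      · exact ⟨M, h1.1, h2.symm⟩
  unfold nc
  rw [hA, hA1, hB, Set.ncard_coe_finset, Set.ncard_coe_finset, Set.ncard_coe_finset]
  have key : n.factorial * (A₀.image cls).card ≤ A.card := by
    set s : Finset (Matroid (Fin n)) := A.filter (fun N => cls N ∈ A₀.image cls) with hs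
    have himg : A₀.image cls = s.image cls := by
      ext S
      constructor
      · intro hS
        obtain ⟨M, hM, rfl⟩ := mem_image.1 hS
        refine mem_image.2 ⟨M, mem_filter.2 ⟨?_, hS⟩, rfl⟩
        exact mem_filter.2 ⟨mem_univ _, (mem_filter.1 hM).2.1⟩
      · intro hS
        obtain ⟨M, hM, rfl⟩ := mem_image.1 hS
        exact (mem_filter.1 hM).2
    rw [himg]
    refine le_trans (Finset.mul_card_image_le_card s n.factorial ?_)
      (card_le_card (filter_subset _ _))
    intro S hS
    rw [← himg] at hS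
    obtain ⟨M, hM, rfl⟩ := mem_image.1 hS
    obtain ⟨hMQ, hMR⟩ := (mem_filter.1 hM).2
    have hME := hE M hMQ
    have hinj : Function.Injective (fun σ : Equiv.Perm (Fin n) => M.mapEquiv σ) := by
      intro σ τ h
      by_contra hne
      apply hMR
      refine ⟨σ.trans τ.symm, ?_, fun I => ?_⟩
      · intro h1
        apply hne
        ext x
        have := congrArg (fun e : Equiv.Perm (Fin n) => τ (e x)) h1
        simpa using congrArg Fin.val this
      · have h2 : (M.mapEquiv σ).Indep (σ '' I) ↔ (M.mapEquiv τ).Indep (σ '' I) := by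
          simp only at h
          rw [h]
        rw [Matroid.mapEquiv_indep_iff, Matroid.mapEquiv_indep_iff] at h2
        have h3 : σ.symm '' (σ '' I) = I := by simp
        have h4 : τ.symm '' (σ '' I) = (σ.trans τ.symm) '' I := by
          rw [← Set.image_comp]; rfl
        rw [h3, h4] at h2
        exact h2
    calc n.factorial = (univ : Finset (Equiv.Perm (Fin n))).card := by
          rw [card_univ, Fintype.card_perm, Fintype.card_fin]
      _ = ((univ : Finset (Equiv.Perm (Fin n))).image fun σ => M.mapEquiv σ).card := by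
          rw [card_image_of_injective _ hinj]
      _ ≤ (s.filter fun N => cls N = cls M).card := by
          refine card_le_card fun N hN => ?_
          obtain ⟨σ, _, rfl⟩ := mem_image.1 hN
          have hmem := mapEquiv_mem_cls hME σ
          have hc : cls (M.mapEquiv σ) = cls M := cls_eq hmem
          refine mem_filter.2 ⟨mem_filter.2 ⟨?_, ?_⟩, hc⟩
          · exact mem_filter.2 ⟨mem_univ _, hQ M _ hMQ hmem⟩
          · rw [hc]; exact hS
  calc n.factorial * (A₀.image cls ∪ A₁.image cls).card
      ≤ n.factorial * ((A₀.image cls).card + (A₁.image cls).card) :=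
        Nat.mul_le_mul_left _ (card_union_le _ _)
    _ = n.factorial * (A₀.image cls).card + n.factorial * (A₁.image cls).card := by ring
    _ ≤ A.card + n.factorial * A₁.card :=
        Nat.add_le_add key (Nat.mul_le_mul_left _ card_image_le)

end Pool.Agent.Helper2.R4
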