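/-
MP_e8bc6f_co, rank 4, block R4-FIN (final estimates).
-/
import Pool.Agent.Helper2.R4.LAB
import Pool.Agent.Helper2.R4.FIX
import Pool.Agent.Helper2.R4.UNL

set_option autoImplicit false

namespace Pool.Agent.Helper2.R4

open Finset

private lemma h60_rpow_ge (r C : ℝ) (hr : 0 < r) : ∃ n0 : ℕ, ∀ n : ℕ, n0 ≤ n → C ≤ (n : ℝ) ^ r := by
  have h : Filter.Tendsto (fun n : ℕ => (n : ℝ) ^ r) Filter.atTop Filter.atTop :=
    (tendsto_rpow_atTop hr).comp tendsto_natCast_atTop_atTop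
  exact Filter.eventually_atTop.1 (h.eventually_ge_atTop C)

private lemma h60_log_le (r C : ℝ) (hr : 0 < r) (hC : 0 < C) :
    ∃ n0 : ℕ, ∀ n : ℕ, n0 ≤ n → Real.log n ≤ C * (n : ℝ) ^ r := by
  have h := (isLittleO_log_rpow_atTop hr).bound hC
  have h2 := tendsto_natCast_atTop_atTop.eventually h
  obtain ⟨n0, h3⟩ := Filter.eventually_atTop.1 h2
  refine ⟨n0, fun n hn => ?_⟩
  have h4 := h3 n hn
  have h5 : 0 ≤ (n : ℝ) ^ r := Real.rpow_nonneg (Nat.cast_nonneg n) r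
  rw [Real.norm_eq_abs, Real.norm_eq_abs, abs_of_nonneg h5] at h4
  exact (le_abs_self _).trans h4

/-- Parameters: with `t = ⌊n^{1/10}⌋` take `Δ = t^8`, `k = t^3`.  Then for large `n` all hypotheses
of the counting theorems hold on `Fin n`, `z ≤ 2^(-t/7)`, and `(3/2^k)^Δ` is smaller than
`exp (- 4 n log (n+1))`. -/
theorem params : ∃ n0 : ℕ, ∀ n ≥ n0, ∃ k Δ : ℕ, 2 ≤ k ∧ k ^ 2 + 2 ≤ Δ ∧ 256 * k ≤ Δ ∧
    64 * (Δ + 1) ≤ n - 1 ∧ 2304 * k * Δ ^ 2 ≤ (n - 1) ^ 2 ∧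
    (3 / 2 ^ k : ℝ) ^ ((Δ : ℝ) / (6 * n)) ≤ Real.exp (-(n : ℝ) ^ (1 / 15 : ℝ)) ∧
    (3 / 2 ^ k : ℝ) ^ Δ ≤ Real.exp (-(n : ℝ) ^ (1 + 1 / 20 : ℝ)) := by
  obtain ⟨n1, hn1⟩ := h60_rpow_ge (1 / 10) 20002 (by norm_num)
  obtain ⟨n2, hn2⟩ := h60_rpow_ge (1 / 30) 24576 (by norm_num)
  obtain ⟨n3, hn3⟩ := h60_rpow_ge (1 / 20) 4096 (by norm_num)
  refine ⟨n1 + n2 + n3 + 1, fun n hn => ?_⟩
  have hx := hn1 n (by omega)
  have hy := hn2 n (by omega)
  have hw := hn3 n (by omega)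
  have hnpos : (0 : ℝ) < n := by
    have : 0 < n := by omega
    exact_mod_cast this
  set x : ℝ := (n : ℝ) ^ (1 / 10 : ℝ) with hxdef
  set t : ℕ := Nat.floor x with ht
  have hx0 : (0 : ℝ) ≤ x := by linarith
  have htx : (t : ℝ) ≤ x := Nat.floor_le hx0
  have htx' : x < t + 1 := Nat.lt_floor_add_one x
  have hx10 : x ^ 10 = n := by
    rw [hxdef, ← Real.rpow_natCast, ← Real.rpow_mul hnpos.le]
    norm_num
  have htbig : 10000 ≤ t := by
    have : (10000 : ℝ) ≤ t := by linarith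
    exact_mod_cast this
  have hthalf : x / 2 ≤ t := by linarith
  have htn : t ^ 10 ≤ n := by
    have : ((t : ℝ)) ^ 10 ≤ x ^ 10 := pow_le_pow_left₀ (Nat.cast_nonneg t) htx 10
    rw [hx10] at this
    exact_mod_cast this
  have ht3 : 10000 ^ 3 ≤ t ^ 3 := Nat.pow_le_pow_left htbig 3
  have ht2 : 10000 ^ 2 ≤ t ^ 2 := Nat.pow_le_pow_left htbig 2
  have ht5 : 10000 ^ 5 ≤ t ^ 5 := Nat.pow_le_pow_left htbig 5
  have ht6 : 10000 ^ 6 ≤ t ^ 6 := Nat.pow_le_pow_left htbig 6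
  have ht8 : 10000 ^ 8 ≤ t ^ 8 := Nat.pow_le_pow_left htbig 8
  have h8 : t ^ 8 = t ^ 3 * t ^ 5 := by ring
  have h86 : t ^ 8 = t ^ 6 * t ^ 2 := by ring
  have h10 : t ^ 10 = t ^ 8 * t ^ 2 := by ring
  have hbase : (3 / 2 ^ (t ^ 3) : ℝ) ≤ Real.exp (-((t ^ 3 : ℕ) : ℝ) / 2) := by
    have hk : (11 : ℝ) ≤ ((t ^ 3 : ℕ) : ℝ) := by
      have : 11 ≤ t ^ 3 := by omega
      exact_mod_cast this
    have h1 : Real.log (3 / 2 ^ (t ^ 3)) ≤ -((t ^ 3 : ℕ) : ℝ) / 2 := by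
      rw [Real.log_div (by norm_num) (by positivity), Real.log_pow]
      have h2 := Real.log_two_gt_d9
      have h3 : Real.log 3 ≤ 3 - 1 := Real.log_le_sub_one_of_pos (by norm_num)
      nlinarith
    have h4 : (0 : ℝ) < 3 / 2 ^ (t ^ 3) := by positivity
    calc (3 / 2 ^ (t ^ 3) : ℝ) = Real.exp (Real.log (3 / 2 ^ (t ^ 3))) := (Real.exp_log h4).symm
      _ ≤ _ := Real.exp_le_exp.2 h1
  have hbpos : (0 : ℝ) ≤ 3 / 2 ^ (t ^ 3) := by positivity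
  have h11 : x ^ 11 / 2048 ≤ (t : ℝ) ^ 11 := by
    have := pow_le_pow_left₀ (by linarith) hthalf 11
    calc x ^ 11 / 2048 = (x / 2) ^ 11 := by ring
      _ ≤ _ := this
  refine ⟨t ^ 3, t ^ 8, ?_, ?_, ?_, ?_, ?_, ?_, ?_⟩
  · omega
  · have : (t ^ 3) ^ 2 = t ^ 6 := by ring
    rw [this, h86]
    nlinarith
  · rw [h8]
    nlinarith
  · have : 64 * (t ^ 8 + 1) + 1 ≤ t ^ 10 := by
      rw [h10]; nlinarith
    omega
  · have h1 : t ^ 10 ≤ 2 * (n - 1) := by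
      have : 2 ≤ t ^ 10 := by rw [h10]; nlinarith
      omega
    have h2 : (t ^ 10) ^ 2 ≤ (2 * (n - 1)) ^ 2 := Nat.pow_le_pow_left h1 2
    have h3 : (2 * (n - 1)) ^ 2 = 4 * (n - 1) ^ 2 := by ring
    have h4 : (t ^ 10) ^ 2 = t ^ 19 * t := by ring
    have h5 : 2304 * t ^ 3 * (t ^ 8) ^ 2 = 2304 * t ^ 19 := by ring
    rw [h5]
    have h6 : t ^ 19 * 10000 ≤ t ^ 19 * t := Nat.mul_le_mul_left _ htbig
    have h7 : 0 ≤ t ^ 19 := Nat.zero_le _
    omega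
  · have hexp : (0 : ℝ) ≤ (((t ^ 8 : ℕ) : ℝ) / (6 * n)) := by positivity
    calc (3 / 2 ^ (t ^ 3) : ℝ) ^ (((t ^ 8 : ℕ) : ℝ) / (6 * n))
        ≤ (Real.exp (-((t ^ 3 : ℕ) : ℝ) / 2)) ^ (((t ^ 8 : ℕ) : ℝ) / (6 * n)) :=
          Real.rpow_le_rpow hbpos hbase hexp
      _ = Real.exp (-((t : ℝ) ^ 11 / (12 * n))) := by
          rw [← Real.exp_mul]
          congr 1
          push_cast
          field_simp
          ring
      _ ≤ Real.exp (-(n : ℝ) ^ (1 / 15 : ℝ)) := by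
          apply Real.exp_le_exp.2
          apply neg_le_neg
          have h1 : (n : ℝ) ^ (1 / 15 : ℝ) * (n : ℝ) ^ (1 / 30 : ℝ) = x := by
            rw [hxdef, ← Real.rpow_add hnpos]; norm_num
          have h2 : 0 ≤ (n : ℝ) ^ (1 / 15 : ℝ) := Real.rpow_nonneg hnpos.le _
          have h3 : (n : ℝ) ^ (1 / 15 : ℝ) * 24576 ≤ x := by
            rw [← h1]; exact mul_le_mul_of_nonneg_left hy h2
          rw [le_div_iff₀ (by positivity)]
          calc (n : ℝ) ^ (1 / 15 : ℝ) * (12 * n) = ((n : ℝ) ^ (1 / 15 : ℝ) * 24576) * x ^ 10 / 2048 := by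
                rw [hx10]; ring
            _ ≤ x * x ^ 10 / 2048 := by
                apply div_le_div_of_nonneg_right _ (by norm_num)
                exact mul_le_mul_of_nonneg_right h3 (by positivity)
            _ = x ^ 11 / 2048 := by ring
            _ ≤ _ := h11
  · calc (3 / 2 ^ (t ^ 3) : ℝ) ^ (t ^ 8)
        ≤ (Real.exp (-((t ^ 3 : ℕ) : ℝ) / 2)) ^ (t ^ 8) := pow_le_pow_left₀ hbpos hbase _
      _ = Real.exp (-((t : ℝ) ^ 11 / 2)) := by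
          rw [← Real.exp_nat_mul]
          congr 1
          push_cast
          ring
      _ ≤ Real.exp (-(n : ℝ) ^ (1 + 1 / 20 : ℝ)) := by
          apply Real.exp_le_exp.2
          apply neg_le_neg
          have h1 : (n : ℝ) ^ (1 + 1 / 20 : ℝ) * (n : ℝ) ^ (1 / 20 : ℝ) = x ^ 11 := by
            rw [hxdef, ← Real.rpow_natCast, ← Real.rpow_mul hnpos.le, ← Real.rpow_add hnpos]
            norm_num
          have h2 : 0 ≤ (n : ℝ) ^ (1 + 1 / 20 : ℝ) := Real.rpow_nonneg hnpos.le _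
          have h3 : (n : ℝ) ^ (1 + 1 / 20 : ℝ) * 4096 ≤ x ^ 11 := by
            rw [← h1]; exact mul_le_mul_of_nonneg_left hw h2
          linarith

/-- The two numerical estimates. -/
private lemma h60_est : ∃ n0 : ℕ, ∀ n : ℕ, n0 ≤ n →
    16 * (n : ℝ) * Real.exp (-(n : ℝ) ^ (1 / 15 : ℝ)) ≤ Real.exp (-(n : ℝ) ^ (1 / 20 : ℝ)) ∧
    16 * ((n : ℝ) + 1) ^ (3 * n) * Real.exp (-(n : ℝ) ^ (1 + 1 / 20 : ℝ)) ≤
      Real.exp (-(n : ℝ) ^ (1 / 20 : ℝ)) := by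
  obtain ⟨n1, hn1⟩ := h60_rpow_ge (1 / 60) 3 (by norm_num)
  obtain ⟨n2, hn2⟩ := h60_log_le (1 / 20) (1 / 24) (by norm_num) (by norm_num)
  obtain ⟨n3, hn3⟩ := h60_rpow_ge (1 / 20) 100 (by norm_num)
  refine ⟨n1 + n2 + n3 + 16, fun n hn => ?_⟩
  have h1 := hn1 n (by omega)
  have h2 := hn2 n (by omega)
  have h3 := hn3 n (by omega)
  have hn16 : (16 : ℝ) ≤ n := by
    have : 16 ≤ n := by omega
    exact_mod_cast this
  have hnpos : (0 : ℝ) < n := by linarith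
  set y : ℝ := (n : ℝ) ^ (1 / 20 : ℝ) with hy
  have hlog16 : Real.log 16 ≤ 15 := by
    have := Real.log_le_sub_one_of_pos (show (0 : ℝ) < 16 by norm_num)
    linarith
  constructor
  · have h4 : (n : ℝ) ^ (1 / 15 : ℝ) = y * (n : ℝ) ^ (1 / 60 : ℝ) := by
      rw [hy, ← Real.rpow_add hnpos]; norm_num
    have h5 : y * 3 ≤ (n : ℝ) ^ (1 / 15 : ℝ) := by
      rw [h4]; exact mul_le_mul_of_nonneg_left h1 (by linarith)
    have h6 : 16 * (n : ℝ) = Real.exp (Real.log 16 + Real.log n) := by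
      rw [Real.exp_add, Real.exp_log (by norm_num), Real.exp_log hnpos]
    rw [h6, ← Real.exp_add]
    apply Real.exp_le_exp.2
    linarith
  · have h4 : (n : ℝ) ^ (1 + 1 / 20 : ℝ) = n * y := by
      rw [Real.rpow_add hnpos, Real.rpow_one, hy]
    have h5 : Real.log ((n : ℝ) + 1) ≤ 2 * Real.log n := by
      have h6 : (n : ℝ) + 1 ≤ (n : ℝ) ^ 2 := by nlinarith
      calc Real.log ((n : ℝ) + 1) ≤ Real.log ((n : ℝ) ^ 2) :=
            Real.log_le_log (by linarith) h6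
        _ = 2 * Real.log n := by rw [Real.log_pow]; norm_num
    have h6 : 16 * ((n : ℝ) + 1) ^ (3 * n)
        = Real.exp (Real.log 16 + ((3 * n : ℕ) : ℝ) * Real.log ((n : ℝ) + 1)) := by
      rw [Real.exp_add, Real.exp_log (by norm_num), Real.exp_nat_mul,
        Real.exp_log (by linarith)]
    rw [h6, h4, ← Real.exp_add]
    apply Real.exp_le_exp.2
    push_cast
    have h7 : 3 * (n : ℝ) * Real.log ((n : ℝ) + 1) ≤ 3 * n * (2 * (1 / 24 * y)) := by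
      apply mul_le_mul_of_nonneg_left _ (by positivity)
      linarith
    nlinarith

private lemma h60_rpow_anti {b y y' : ℝ} (hb : 0 < b) (hb1 : b ≤ 1) (h : y ≤ y') :
    b ^ y' ≤ b ^ y := Real.rpow_le_rpow_of_exponent_ge hb hb1 h

private lemma h60_base {k : ℕ} (hk : 2 ≤ k) : (0 : ℝ) < 3 / 2 ^ k ∧ (3 / 2 ^ k : ℝ) ≤ 1 := by
  refine ⟨by positivity, ?_⟩
  rw [div_le_one (by positivity)]
  calc (3 : ℝ) ≤ 2 ^ 2 := by norm_num
    _ ≤ 2 ^ k := pow_le_pow_right₀ (by norm_num) hk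

/-- Labelled estimate with the parameters. -/
private lemma h60_lab (n k Δ : ℕ) (hn : 16 ≤ n) (hk : 2 ≤ k) (h1 : k ^ 2 + 2 ≤ Δ)
    (h2 : 256 * k ≤ Δ) (h3 : 64 * (Δ + 1) ≤ n - 1) (h4 : 2304 * k * Δ ^ 2 ≤ (n - 1) ^ 2)
    (h5 : (3 / 2 ^ k : ℝ) ^ ((Δ : ℝ) / (6 * n)) ≤ Real.exp (-(n : ℝ) ^ (1 / 15 : ℝ)))
    (e1 : 16 * (n : ℝ) * Real.exp (-(n : ℝ) ^ (1 / 15 : ℝ)) ≤
      Real.exp (-(n : ℝ) ^ (1 / 20 : ℝ))) :
    ({M : Matroid (Fin n) | Good M ∧ ¬ Pav M}.ncard : ℝ) ≤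
      Real.exp (-(n : ℝ) ^ (1 / 20 : ℝ)) / 2 *
        {M : Matroid (Fin n) | Good M ∧ Pav M}.ncard ∧
    ((Fam (∅ : Finset (Finset (Fin n)))).card : ℝ) ≤
      2 * ({M : Matroid (Fin n) | Good M ∧ Pav M}.ncard : ℝ) := by
  have hcard : Fintype.card (Fin n) = n := Fintype.card_fin n
  have hn16 : (16 : ℝ) ≤ n := by exact_mod_cast hn
  set z : ℝ := (3 / 2 ^ k : ℝ) ^ ((Δ : ℝ) / (6 * n)) with hz
  have hz0 : 0 ≤ z := Real.rpow_nonneg (h60_base hk).1.le _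
  have hE1 : Real.exp (-(n : ℝ) ^ (1 / 20 : ℝ)) ≤ 1 := by
    apply Real.exp_le_one_iff.2
    have : 0 ≤ (n : ℝ) ^ (1 / 20 : ℝ) := Real.rpow_nonneg (by linarith) _
    linarith
  have hz1 : 16 * n * z ≤ Real.exp (-(n : ℝ) ^ (1 / 20 : ℝ)) :=
    (mul_le_mul_of_nonneg_left h5 (by positivity)).trans e1
  have hmain := card_nonpav_le (V := Fin n) k Δ hk h1 h2 (by rw [hcard]; omega)
    (by rw [hcard]; exact h4.trans (Nat.pow_le_pow_left (by omega) 2)) z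
    (by rw [hcard, hz]) (by rw [hcard]; nlinarith)
  rw [hcard] at hmain
  have hF := card_fam_le (V := Fin n) (by rw [hcard]; omega)
  have hF2 := two_le_card_fam (V := Fin n) (by rw [hcard]; omega)
  have hF3 : ((Fam (∅ : Finset (Finset (Fin n)))).card : ℝ) ≤
      2 * ({M : Matroid (Fin n) | Good M ∧ Pav M}.ncard : ℝ) := by
    have : (Fam (∅ : Finset (Finset (Fin n)))).card ≤
        2 * {M : Matroid (Fin n) | Good M ∧ Pav M}.ncard := by omega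
    exact_mod_cast this
  have hp0 : (0 : ℝ) ≤ ({M : Matroid (Fin n) | Good M ∧ Pav M}.ncard : ℝ) := Nat.cast_nonneg _
  refine ⟨?_, hF3⟩
  calc ({M : Matroid (Fin n) | Good M ∧ ¬ Pav M}.ncard : ℝ)
      ≤ 4 * n * z * (Fam (∅ : Finset (Finset (Fin n)))).card := by
        convert hmain using 3
    _ ≤ 4 * n * z * (2 * ({M : Matroid (Fin n) | Good M ∧ Pav M}.ncard : ℝ)) :=
        mul_le_mul_of_nonneg_left hF3 (by positivity)
    _ = (8 * n * z) * ({M : Matroid (Fin n) | Good M ∧ Pav M}.ncard : ℝ) := by ring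
    _ ≤ _ := by
        apply mul_le_mul_of_nonneg_right _ hp0
        linarith

/-- Labelled theorem. -/
theorem labelled : ∃ n0 : ℕ, ∀ n ≥ n0,
    ({M : Matroid (Fin n) | Good M ∧ ¬ Pav M}.ncard : ℝ) ≤
      Real.exp (-(n : ℝ) ^ (1 / 20 : ℝ)) * {M : Matroid (Fin n) | Good M ∧ Pav M}.ncard := by
  obtain ⟨n1, hn1⟩ := params
  obtain ⟨n2, hn2⟩ := h60_est
  refine ⟨n1 + n2 + 16, fun n hn => ?_⟩
  obtain ⟨k, Δ, hk, h1, h2, h3, h4, h5, h6⟩ := hn1 n (by omega)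
  obtain ⟨e1, e2⟩ := hn2 n (by omega)
  refine (h60_lab n k Δ (by omega) hk h1 h2 h3 h4 h5 e1).1.trans ?_
  apply mul_le_mul_of_nonneg_right _ (Nat.cast_nonneg _)
  have := Real.exp_pos (-(n : ℝ) ^ (1 / 20 : ℝ))
  linarith

/-- Matroids with a nontrivial automorphism `σ`. -/
private lemma h60_aut (n k Δ : ℕ) (hn : 16 ≤ n) (hk : 2 ≤ k) (h1 : k ^ 2 + 2 ≤ Δ)
    (h2 : 256 * k ≤ Δ) (h3 : 64 * (Δ + 1) ≤ n - 1) (h4 : 2304 * k * Δ ^ 2 ≤ (n - 1) ^ 2)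
    (h5 : (3 / 2 ^ k : ℝ) ^ ((Δ : ℝ) / (6 * n)) ≤ Real.exp (-(n : ℝ) ^ (1 / 15 : ℝ)))
    (h6 : (3 / 2 ^ k : ℝ) ^ Δ ≤ Real.exp (-(n : ℝ) ^ (1 + 1 / 20 : ℝ)))
    (e1 : 16 * (n : ℝ) * Real.exp (-(n : ℝ) ^ (1 / 15 : ℝ)) ≤
      Real.exp (-(n : ℝ) ^ (1 / 20 : ℝ))) (σ : Equiv.Perm (Fin n)) (hσ : σ ≠ 1) :
    ({M : Matroid (Fin n) | Good M ∧ ∀ I : Set (Fin n), M.Indep I ↔ M.Indep (σ '' I)}.ncard : ℝ)
      ≤ 4 * ((n : ℝ) + 1) ^ n * Real.exp (-(n : ℝ) ^ (1 + 1 / 20 : ℝ)) *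
        (Fam (∅ : Finset (Finset (Fin n)))).card := by
  obtain ⟨y, hy⟩ := card_fix_le σ hσ
  have hcard : Fintype.card (Fin n) = n := Fintype.card_fin n
  have hn16 : (16 : ℝ) ≤ n := by exact_mod_cast hn
  have hcard' : Fintype.card {v : Fin n // v ≠ y} = n - 1 := by
    rw [Fintype.card_subtype_compl, Fintype.card_fin, Fintype.card_subtype_eq]
  have hcast : ((n - 1 : ℕ) : ℝ) = n - 1 := by
    rw [Nat.cast_sub (by omega), Nat.cast_one]
  rw [hcard] at hy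
  set Fy := (Fam (∅ : Finset (Finset {v : Fin n // v ≠ y}))).card with hFy
  set z : ℝ := (3 / 2 ^ k : ℝ) ^ ((Δ : ℝ) / (6 * ((n - 1 : ℕ) : ℝ))) with hz
  have hz0 : 0 ≤ z := Real.rpow_nonneg (h60_base hk).1.le _
  have hzle : z ≤ (3 / 2 ^ k : ℝ) ^ ((Δ : ℝ) / (6 * n)) := by
    apply h60_rpow_anti (h60_base hk).1 (h60_base hk).2
    apply div_le_div_of_nonneg_left (Nat.cast_nonneg Δ)
    · rw [hcast]; linarith
    · rw [hcast]; linarith
  have hE1 : Real.exp (-(n : ℝ) ^ (1 / 20 : ℝ)) ≤ 1 := by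
    apply Real.exp_le_one_iff.2
    have : 0 ≤ (n : ℝ) ^ (1 / 20 : ℝ) := Real.rpow_nonneg (by linarith) _
    linarith
  have hz1 : 16 * n * z ≤ 1 :=
    ((mul_le_mul_of_nonneg_left (hzle.trans h5) (by positivity)).trans e1).trans hE1
  have hgood := card_good_le (V := {v : Fin n // v ≠ y}) k Δ hk h1 h2 (by rw [hcard']; omega)
    (by rw [hcard']; exact h4) z (by rw [hcard', hz])
    (by rw [hcard', hcast]; nlinarith)
  have hgood' : ({M : Matroid {v : Fin n // v ≠ y} | Good M}.ncard : ℝ) ≤ 3 * Fy := by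
    have hi : ∀ (i j : DecidableEq {v : Fin n // v ≠ y}),
        (@Fam {v : Fin n // v ≠ y} _ i ∅).card = (@Fam {v : Fin n // v ≠ y} _ j ∅).card := by
      intro i j
      rw [Subsingleton.elim i j]
    rw [hFy]
    refine hgood.trans (le_of_eq ?_)
    rw [hi]
  have hFy2 : 2 ≤ Fy := two_le_card_fam (by rw [hcard']; omega)
  have hstar := fam_star y k Δ (by omega) h1 h2 (by rw [hcard]; omega)
    (by rw [hcard]; exact h4.trans (Nat.pow_le_pow_left (by omega) 2))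
  have hstar' : (Fy : ℝ) ≤ (3 / 2 ^ k : ℝ) ^ Δ * (Fam (∅ : Finset (Finset (Fin n)))).card := by
    have h7 : (Fy : ℝ) * (2 ^ k) ^ Δ ≤ 3 ^ Δ * (Fam (∅ : Finset (Finset (Fin n)))).card := by
      have h8 : Fy * (2 ^ k) ^ Δ ≤ 3 ^ Δ * (Fam (∅ : Finset (Finset (Fin n)))).card := by
        have hi : ∀ (i j : DecidableEq {v : Fin n // v ≠ y}),
            (@Fam {v : Fin n // v ≠ y} _ i ∅).card = (@Fam {v : Fin n // v ≠ y} _ j ∅).card := by
          intro i j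
          rw [Subsingleton.elim i j]
        rw [hFy, hi]
        exact hstar
      exact_mod_cast h8
    rw [div_pow, div_mul_eq_mul_div, le_div_iff₀ (by positivity)]
    exact h7
  have hF0 : (0 : ℝ) ≤ ((Fam (∅ : Finset (Finset (Fin n)))).card : ℝ) := Nat.cast_nonneg _
  have hFE : (Fy : ℝ) ≤ Real.exp (-(n : ℝ) ^ (1 + 1 / 20 : ℝ)) *
      (Fam (∅ : Finset (Finset (Fin n)))).card :=
    hstar'.trans (mul_le_mul_of_nonneg_right h6 hF0)
  have hFy1 : (1 : ℝ) ≤ Fy := by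
    have : 1 ≤ Fy := by omega
    exact_mod_cast this
  have hN : (1 : ℝ) ≤ ((n : ℝ) + 1) ^ n := one_le_pow₀ (by linarith)
  calc ({M : Matroid (Fin n) | Good M ∧ ∀ I : Set (Fin n), M.Indep I ↔ M.Indep (σ '' I)}.ncard : ℝ)
      ≤ 1 + ((n : ℝ) + 1) ^ n * ({M : Matroid {v : Fin n // v ≠ y} | Good M}.ncard : ℝ) := by
        exact_mod_cast hy
    _ ≤ 1 + ((n : ℝ) + 1) ^ n * (3 * Fy) := by
        have := mul_le_mul_of_nonneg_left hgood' (show (0 : ℝ) ≤ ((n : ℝ) + 1) ^ n by positivity)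
        linarith
    _ ≤ ((n : ℝ) + 1) ^ n * Fy + ((n : ℝ) + 1) ^ n * (3 * Fy) := by
        have : 1 ≤ ((n : ℝ) + 1) ^ n * Fy := by nlinarith
        linarith
    _ = 4 * ((n : ℝ) + 1) ^ n * Fy := by ring
    _ ≤ 4 * ((n : ℝ) + 1) ^ n * (Real.exp (-(n : ℝ) ^ (1 + 1 / 20 : ℝ)) *
      (Fam (∅ : Finset (Finset (Fin n)))).card) :=
        mul_le_mul_of_nonneg_left hFE (by positivity)
    _ = _ := by ring

private lemma h60_iso {n : ℕ} {M N : Matroid (Fin n)} (hN : N ∈ cls M) (hM : Good M ∧ ¬ Pav M) :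
    Good N ∧ ¬ Pav N := by
  obtain ⟨hE, σ, hσ⟩ := hN
  obtain ⟨⟨hME, hM2, hM4⟩, hnp⟩ := hM
  have hσ' : ∀ I : Set (Fin n), N.Indep I ↔ M.Indep (σ.symm '' I) := by
    intro I
    rw [hσ]
    simp [Set.image_image]
  have hcardS : ∀ I : Set (Fin n), (σ.symm '' I).ncard = I.ncard := fun I =>
    Set.ncard_image_of_injective I σ.symm.injective
  refine ⟨⟨hE, ?_, ?_⟩, ?_⟩
  · intro I hI
    rw [hσ']
    exact hM2 _ (by rw [hcardS]; exact hI)
  · intro B hB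
    rw [Matroid.isBase_iff_maximal_indep] at hB
    have : M.IsBase (σ.symm '' B) := by
      rw [Matroid.isBase_iff_maximal_indep]
      refine ⟨(hσ' B).1 hB.1, fun J hJ hBJ => ?_⟩
      have h1 : N.Indep (σ '' J) := (hσ J).1 hJ
      have h2 : B ⊆ σ '' J := by
        intro b hb
        refine ⟨σ.symm b, hBJ ⟨b, hb, rfl⟩, by simp⟩
      have h3 := hB.2 h1 h2
      intro j hj
      exact ⟨σ j, h3 ⟨j, hj, rfl⟩, by simp⟩
    rw [← hcardS]
    exact hM4 _ this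
  · intro hP
    apply hnp
    intro I hI
    rw [hσ]
    exact hP _ (by rw [Set.ncard_image_of_injective I σ.injective]; exact hI)

/-- Unlabelled theorem. -/
theorem unlabelled : ∃ n0 : ℕ, ∀ n ≥ n0,
    (nc n (fun M => Good M ∧ ¬ Pav M) : ℝ) ≤
      Real.exp (-(n : ℝ) ^ (1 / 20 : ℝ)) * nc n (fun M => Good M ∧ Pav M) := by
  obtain ⟨n1, hn1⟩ := params
  obtain ⟨n2, hn2⟩ := h60_est
  refine ⟨n1 + n2 + 16, fun n hn => ?_⟩
  obtain ⟨k, Δ, hk, h1, h2, h3, h4, h5, h6⟩ := hn1 n (by omega)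
  obtain ⟨e1, e2⟩ := hn2 n (by omega)
  have hn16' : 16 ≤ n := by omega
  have hn16 : (16 : ℝ) ≤ n := by exact_mod_cast hn16'
  obtain ⟨hlab, hF⟩ := h60_lab n k Δ hn16' hk h1 h2 h3 h4 h5 e1
  set E : ℝ := Real.exp (-(n : ℝ) ^ (1 / 20 : ℝ)) with hE
  set E2 : ℝ := Real.exp (-(n : ℝ) ^ (1 + 1 / 20 : ℝ)) with hE2
  have hE0 : 0 < E := Real.exp_pos _
  have hE20 : 0 < E2 := Real.exp_pos _
  set q : ℕ := {M : Matroid (Fin n) | Good M ∧ ¬ Pav M}.ncard with hq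
  set p : ℕ := {M : Matroid (Fin n) | Good M ∧ Pav M}.ncard with hp
  set F : ℕ := (Fam (∅ : Finset (Finset (Fin n)))).card with hFdef
  set A : ℕ := {M : Matroid (Fin n) | (Good M ∧ ¬ Pav M) ∧ ∃ σ : Equiv.Perm (Fin n), σ ≠ 1 ∧
        ∀ I : Set (Fin n), M.Indep I ↔ M.Indep (σ '' I)}.ncard with hA
  have hmul := nc_mul_le n (fun M => Good M ∧ ¬ Pav M) (fun M hM => hM.1.1)
    (fun M N hM hN => h60_iso hN hM)
  have hle := ncard_le_nc n (fun M => Good M ∧ Pav M) (fun M hM => hM.1.1)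
  have hfin : Finite (Matroid (Fin n)) := finite_matroid
  -- the union bound
  have hAle : (A : ℝ) ≤ n.factorial * (4 * ((n : ℝ) + 1) ^ n * E2 * F) := by
    set s : Equiv.Perm (Fin n) → Set (Matroid (Fin n)) := fun σ =>
      {M : Matroid (Fin n) | σ ≠ 1 ∧ Good M ∧
        ∀ I : Set (Fin n), M.Indep I ↔ M.Indep (σ '' I)} with hs
    have hsub : {M : Matroid (Fin n) | (Good M ∧ ¬ Pav M) ∧ ∃ σ : Equiv.Perm (Fin n), σ ≠ 1 ∧
        ∀ I : Set (Fin n), M.Indep I ↔ M.Indep (σ '' I)} ⊆ ⋃ σ, s σ := by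
      rintro M ⟨hM, σ, hσ, hI⟩
      exact Set.mem_iUnion.2 ⟨σ, hσ, hM.1, hI⟩
    have h7 : A ≤ ∑ σ, (s σ).ncard :=
      (Set.ncard_le_ncard hsub (Set.toFinite _)).trans (Set.ncard_iUnion_le_of_fintype s)
    have h8 : ∀ σ : Equiv.Perm (Fin n), ((s σ).ncard : ℝ) ≤
        4 * ((n : ℝ) + 1) ^ n * E2 * F := by
      intro σ
      by_cases hσ : σ = 1
      · have : s σ = ∅ := by
          ext M; simp [hs, hσ]
        rw [this, Set.ncard_empty]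
        have : (0 : ℝ) ≤ F := Nat.cast_nonneg _
        have h9 : (0 : ℝ) ≤ ((n : ℝ) + 1) ^ n := by positivity
        push_cast
        positivity
      · have h9 : s σ = {M : Matroid (Fin n) | Good M ∧
            ∀ I : Set (Fin n), M.Indep I ↔ M.Indep (σ '' I)} := by
          ext M; simp [hs, hσ]
        rw [h9]
        exact h60_aut n k Δ hn16' hk h1 h2 h3 h4 h5 h6 e1 σ hσ
    calc (A : ℝ) ≤ ((∑ σ, (s σ).ncard : ℕ) : ℝ) := by exact_mod_cast h7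
      _ = ∑ σ, ((s σ).ncard : ℝ) := by push_cast; rfl
      _ ≤ ∑ _σ : Equiv.Perm (Fin n), (4 * ((n : ℝ) + 1) ^ n * E2 * F) :=
          Finset.sum_le_sum (fun σ _ => h8 σ)
      _ = _ := by
          rw [Finset.sum_const, Finset.card_univ, Fintype.card_perm, Fintype.card_fin,
            nsmul_eq_mul]
  have hmul' : (n.factorial : ℝ) * nc n (fun M => Good M ∧ ¬ Pav M) ≤
      q + n.factorial * A := by exact_mod_cast hmul
  have hle' : (p : ℝ) ≤ n.factorial * nc n (fun M => Good M ∧ Pav M) := by exact_mod_cast hle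
  have hfac : (n.factorial : ℝ) ≤ ((n : ℝ) + 1) ^ n := by
    have h7 : n.factorial ≤ (n + 1) ^ n :=
      (Nat.factorial_le_pow n).trans (Nat.pow_le_pow_left (by omega) n)
    exact_mod_cast h7
  have hfac0 : (0 : ℝ) < n.factorial := by exact_mod_cast n.factorial_pos
  have hp0 : (0 : ℝ) ≤ p := Nat.cast_nonneg _
  have hP0 : (0 : ℝ) ≤ nc n (fun M => Good M ∧ Pav M) := Nat.cast_nonneg _
  have hN3 : ((n : ℝ) + 1) ^ (3 * n) = ((n : ℝ) + 1) ^ n * ((n : ℝ) + 1) ^ n *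
      ((n : ℝ) + 1) ^ n := by rw [← pow_add, ← pow_add]; congr 1; ring
  have hN0 : (0 : ℝ) ≤ ((n : ℝ) + 1) ^ n := by positivity
  have hkey : (n.factorial : ℝ) * A ≤ E / 2 * p := by
    calc (n.factorial : ℝ) * A ≤ n.factorial * (n.factorial * (4 * ((n : ℝ) + 1) ^ n * E2 * F)) :=
          mul_le_mul_of_nonneg_left hAle hfac0.le
      _ ≤ ((n : ℝ) + 1) ^ n * (((n : ℝ) + 1) ^ n * (4 * ((n : ℝ) + 1) ^ n * E2 * (2 * p))) := by
          apply mul_le_mul hfac _ (by positivity) hN0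
          apply mul_le_mul hfac _ (by positivity) hN0
          exact mul_le_mul_of_nonneg_left hF (by positivity)
      _ = (16 * ((n : ℝ) + 1) ^ (3 * n) * E2) / 2 * p := by rw [hN3]; ring
      _ ≤ E / 2 * p := by
          apply mul_le_mul_of_nonneg_right _ hp0
          linarith
  have hfinal : (n.factorial : ℝ) * nc n (fun M => Good M ∧ ¬ Pav M) ≤
      n.factorial * (E * nc n (fun M => Good M ∧ Pav M)) := by
    calc (n.factorial : ℝ) * nc n (fun M => Good M ∧ ¬ Pav M) ≤ q + n.factorial * A := hmul'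
      _ ≤ E / 2 * p + E / 2 * p := add_le_add hlab hkey
      _ = E * p := by ring
      _ ≤ E * (n.factorial * nc n (fun M => Good M ∧ Pav M)) :=
          mul_le_mul_of_nonneg_left hle' hE0.le
      _ = _ := by ring
  exact le_of_mul_le_mul_left hfinal hfac0

end Pool.Agent.Helper2.R4
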